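import Pool.Agent.Helper96.UT.StC

/-!
Project UT, module IND: paths in `Γ` which are closed in a complex.
-/

set_option autoImplicit false

namespace Pool.Agent.Helper96.UT

section aux

variable {α : Type}

theorem NH_le_IND {H : Subgroup (FreeGroup α)} {Z : Cyc α} (hs : Z.s ∈ H) (l : ℕ) :
    NH H Z l ≤ H := by
  rw [NH, Subgroup.closure_le]
  rintro x ⟨g, hg, rfl⟩
  exact H.mul_mem (H.mul_mem hg (H.pow_mem hs l)) (H.inv_mem hg)

theorem mk_pair_IND (x : α × Bool) : FreeGroup.mk [x, bar x] = 1 := by
  rw [mk_cons, mk_cons, mk_nil, lt_bar, mul_one, mul_inv_cancel]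

theorem not_Rd_IND {w : List (α × Bool)} (h : ¬ Rd w) :
    ∃ (w₁ : List (α × Bool)) (x : α × Bool) (w₂ : List (α × Bool)),
      w = w₁ ++ [x, bar x] ++ w₂ := by
  unfold Rd at h
  push Not at h
  obtain ⟨i, hi, he⟩ := h
  have hi' : i < w.length := by omega
  refine ⟨w.take i, w[i], w.drop (i + 2), ?_⟩
  rw [← he]
  conv_lhs => rw [← List.take_append_drop i w, List.drop_eq_getElem_cons hi',
    List.drop_eq_getElem_cons hi]
  simp

theorem invRev_length_IND (w : List (α × Bool)) :
    (FreeGroup.invRev w).length = w.length := by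
  simp [FreeGroup.invRev]

theorem invRev_get_IND (w : List (α × Bool)) (j : ℕ) (h : j < (FreeGroup.invRev w).length)
    (h' : w.length - 1 - j < w.length) : (FreeGroup.invRev w)[j] = bar w[w.length - 1 - j] := by
  simp [FreeGroup.invRev, bar]

theorem invRev_take_IND (w : List (α × Bool)) (j : ℕ) (hj : j ≤ w.length) :
    (FreeGroup.invRev w).take j = FreeGroup.invRev (w.drop (w.length - j)) := by
  conv_lhs => rw [← List.take_append_drop (w.length - j) w]
  rw [invRev_append]
  have h1 : (FreeGroup.invRev (w.drop (w.length - j))).length = j := by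
    rw [invRev_length_IND, List.length_drop]
    omega
  exact List.take_left' h1

variable {Ω : Type} [MulAction (FreeGroup α) Ω]

theorem vt_invRev_IND {v : Ω} {w : List (α × Bool)} (hc : act v (FreeGroup.mk w) = v) (j : ℕ)
    (hj : j ≤ w.length) : vt v (FreeGroup.invRev w) j = vt v w (w.length - j) := by
  unfold vt
  rw [invRev_take_IND w j hj, mk_invRev]
  apply act_inv_eq
  rw [← act_mul, ← mk_append, List.take_append_drop]
  exact hc

theorem simple_invRev_IND {E : Set (Ω × α)} {v : Ω} {w : List (α × Bool)} (h : Simple E v w) :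
    Simple E v (FreeGroup.invRev w) := by
  obtain ⟨h1, h2, h3, h4⟩ := h
  refine ⟨?_, ?_, ?_, ?_⟩
  · have := InE_invRev h1
    rw [h2] at this
    exact this
  · rw [mk_invRev]
    exact act_inv_eq h2
  · intro i hi he
    have hi' := hi
    rw [invRev_length_IND] at hi'
    rw [invRev_get_IND w (i + 1) hi (by omega), invRev_get_IND w i (by omega) (by omega),
      bar_bar] at he
    have h5 : w.length - 1 - (i + 1) + 1 < w.length := by omega
    apply h3 (w.length - 1 - (i + 1)) h5
    have h6 : w.length - 1 - (i + 1) + 1 = w.length - 1 - i := by omega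
    rw [he]
    congr 1
  · intro i j hij hj
    rw [invRev_length_IND] at hj
    rw [vt_invRev_IND h2 i (by omega), vt_invRev_IND h2 j (by omega)]
    rcases Nat.eq_zero_or_pos i with rfl | hi
    · rw [Nat.sub_zero, vt_length, h2]
      have := h4 0 (w.length - j) (by omega) (by omega)
      rw [vt_zero] at this
      exact this
    · exact (h4 (w.length - j) (w.length - i) (by omega) (by omega)).symm

end aux

theorem tIND : StCNT → StREM → StCOV → StSTEP → StIND := by
  intro hCNT hREM hCOV hSTEP α Z l hl H hs hR Ω _ K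
  induction hN : K.C.card using Nat.strong_induction_on generalizing K with
  | _ N ihN =>
  subst hN
  have ihK : ∀ K' : Cx Z l Ω, K'.C.card < K.C.card → ∀ (g : FreeGroup α) (v : Ω)
      (w : List (α × Bool)), InG H Z.c g w → InE K'.E v w → act v (FreeGroup.mk w) = v →
      g * FreeGroup.mk w * g⁻¹ ∈ NH H Z l :=
    fun K' hK' g v w h1 h2 h3 => ihN _ hK' K' rfl g v w h1 h2 h3
  clear ihN
  intro g v w
  induction hn : w.length using Nat.strong_induction_on generalizing g v w with
  | _ n ihn =>
  subst hn
  intro hG hE hc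
  have ihw : ∀ (g : FreeGroup α) (v : Ω) (w' : List (α × Bool)), w'.length < w.length →
      InG H Z.c g w' → InE K.E v w' → act v (FreeGroup.mk w') = v →
      g * FreeGroup.mk w' * g⁻¹ ∈ NH H Z l :=
    fun g v w' hw' h1 h2 h3 => ihn _ hw' g v w' rfl h1 h2 h3
  clear ihn
  rcases eq_or_ne w [] with rfl | hw0
  · rw [mk_nil, mul_one, mul_inv_cancel]
    exact Subgroup.one_mem _
  by_cases hrd : Rd w
  swap
  · -- (a)
    obtain ⟨w₁, x, w₂, rfl⟩ := not_Rd_IND hrd
    rw [InG_append, InG_append, mk_append, mk_pair_IND, mul_one] at hG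
    rw [InE_append, InE_append, mk_append, mk_pair_IND, mul_one] at hE
    have hm : FreeGroup.mk (w₁ ++ [x, bar x] ++ w₂) = FreeGroup.mk (w₁ ++ w₂) := by
      rw [mk_append, mk_append, mk_pair_IND, mul_one, mk_append]
    rw [hm] at hc ⊢
    apply ihw g v (w₁ ++ w₂) (by simp) _ _ hc
    · rw [InG_append]
      exact ⟨hG.1.1, hG.2⟩
    · rw [InE_append]
      exact ⟨hE.1.1, hE.2⟩
  by_cases hinj : ∀ i j : ℕ, i < j → j < w.length → vt v w i ≠ vt v w j
  swap
  · -- (b)
    push Not at hinj
    obtain ⟨i, j, hij, hj, he⟩ := hinj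
    have hm1 : FreeGroup.mk (w.take j) =
        FreeGroup.mk (w.take i) * FreeGroup.mk ((w.take j).drop i) := by
      conv_lhs => rw [← List.take_append_drop i (w.take j)]
      rw [mk_append, List.take_take, min_eq_left hij.le]
    have hm2 : FreeGroup.mk w = FreeGroup.mk (w.take j) * FreeGroup.mk (w.drop j) := by
      conv_lhs => rw [← List.take_append_drop j w]
      rw [mk_append]
    have hG1 : InG H Z.c g (w.take j) ∧ InG H Z.c (g * FreeGroup.mk (w.take j)) (w.drop j) := by
      rw [← InG_append, List.take_append_drop]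
      exact hG
    have hG2 : InG H Z.c g (w.take i) ∧
        InG H Z.c (g * FreeGroup.mk (w.take i)) ((w.take j).drop i) := by
      have h5 := hG1.1
      rw [← List.take_append_drop i (w.take j), InG_append, List.take_take,
        min_eq_left hij.le] at h5
      exact h5
    have hE1 : InE K.E v (w.take j) ∧
        InE K.E (act v (FreeGroup.mk (w.take j))) (w.drop j) := by
      rw [← InE_append, List.take_append_drop]
      exact hE
    have hE2 : InE K.E v (w.take i) ∧
        InE K.E (act v (FreeGroup.mk (w.take i))) ((w.take j).drop i) := by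
      have h5 := hE1.1
      rw [← List.take_append_drop i (w.take j), InE_append, List.take_take,
        min_eq_left hij.le] at h5
      exact h5
    unfold vt at he
    have hc2 : act (act v (FreeGroup.mk (w.take i))) (FreeGroup.mk ((w.take j).drop i)) =
        act v (FreeGroup.mk (w.take i)) := by
      rw [← act_mul, ← hm1, he]
    have hA := ihw (g * FreeGroup.mk (w.take i)) (act v (FreeGroup.mk (w.take i)))
      ((w.take j).drop i) (by rw [List.length_drop, List.length_take]; omega) hG2.2 hE2.2 hc2
    have hAH := NH_le_IND hs l hA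
    have hG3 : InG H Z.c (g * FreeGroup.mk (w.take i)) (w.drop j) := by
      have h5 := hG1.2
      have h6 : g * FreeGroup.mk (w.take j) = (g * FreeGroup.mk (w.take i) *
          FreeGroup.mk ((w.take j).drop i) * (g * FreeGroup.mk (w.take i))⁻¹) *
          (g * FreeGroup.mk (w.take i)) := by
        rw [inv_mul_cancel_right, hm1, mul_assoc]
      rw [h6, InG_mul hAH] at h5
      exact h5
    have hB := ihw g v (w.take i ++ w.drop j)
      (by rw [List.length_append, List.length_drop, List.length_take]; omega)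
      (by rw [InG_append]; exact ⟨hG2.1, hG3⟩)
      (by
        rw [InE_append, he]
        exact ⟨hE2.1, hE1.2⟩)
      (by
        rw [mk_append, act_mul, he, ← act_mul, ← hm2]
        exact hc)
    have h7 : g * FreeGroup.mk w * g⁻¹ = (g * FreeGroup.mk (w.take i) *
          FreeGroup.mk ((w.take j).drop i) * (g * FreeGroup.mk (w.take i))⁻¹) *
          (g * FreeGroup.mk (w.take i ++ w.drop j) * g⁻¹) := by
      rw [hm2, hm1, mk_append]
      group
    rw [h7]
    exact Subgroup.mul_mem _ hA hB
  -- (c)
  have hS : Simple K.E v w := ⟨hE, hc, hrd, hinj⟩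
  have hlen : 0 < w.length := List.length_pos_iff.2 hw0
  have hCne : K.C.Nonempty := by
    obtain ⟨u, hu, -⟩ := hCOV α Z l Ω K v w hS 0 hlen
    exact ⟨u, hu⟩
  obtain ⟨u, hu, k, hsing, hav⟩ := hCNT α Z l (by omega) Ω K hCne v
  have hsk : Sing K u k := by
    have h5 := hsing 0 (Nat.zero_le _)
    rw [Nat.cast_zero, add_zero] at h5
    exact h5
  by_cases hno : ∀ (i : ℕ) (h : i < w.length),
      ed (vt v w i) w[i] ≠ ed (act u (pre Z.c k)) (Z.c k)
  · obtain ⟨K', hK', hKE⟩ := hREM α Z l (by omega) Ω K u hu k hsk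
    refine ihK K' hK' g v w hG ?_ hc
    rw [InE_iff, hKE]
    intro i hi
    exact ⟨(InE_iff _ _ _).1 hE i hi, hno i hi⟩
  push Not at hno
  obtain ⟨i, hi, he⟩ := hno
  rcases ed_eq he.symm with ⟨h1, h2⟩ | ⟨h1, h2⟩
  · exact hSTEP α Z l hl H hs hR Ω K ihK g v w hG hS u hu k hsing hav i hi h1 h2
  · have hi' : w.length - 1 - i < (FreeGroup.invRev w).length := by
      rw [invRev_length_IND]
      omega
    have hv' : vt v (FreeGroup.invRev w) (w.length - 1 - i) = act u (pre Z.c k) := by
      rw [vt_invRev_IND hc _ (by omega)]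
      have h5 : w.length - (w.length - 1 - i) = i + 1 := by omega
      rw [h5, vt_succ v w i hi, h1, h2, lt_bar, ← act_mul, mul_inv_cancel, act_one]
    have hx' : (FreeGroup.invRev w)[w.length - 1 - i] = Z.c k := by
      rw [invRev_get_IND w _ hi' (by omega)]
      have h5 : w.length - 1 - (w.length - 1 - i) = i := by omega
      have h6 : w[w.length - 1 - (w.length - 1 - i)] = w[i] := by
        congr 1
      rw [h6, h2, bar_bar]
    have hfin := hSTEP α Z l hl H hs hR Ω K ihK (g * FreeGroup.mk w) v (FreeGroup.invRev w)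
      (InG_invRev hG) (simple_invRev_IND hS) u hu k hsing hav _ hi' hv' hx'
    have h7 : g * FreeGroup.mk w * g⁻¹ = (g * FreeGroup.mk w * FreeGroup.mk (FreeGroup.invRev w) *
        (g * FreeGroup.mk w)⁻¹)⁻¹ := by
      rw [mk_invRev]
      group
    rw [h7]
    exact Subgroup.inv_mem _ hfin

end Pool.Agent.Helper96.UT
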