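import Pool.Agent.Helper96.UT.Defs

/-!
Project UT (MP_2c90c1_al), statements of part I (the inverse monoid) and the final assembly, with
proofs in the docstrings.
-/

set_option autoImplicit false

namespace Pool.Agent.Helper96.UT

variable {α : Type}

/-- The defining relations of `Inv⟨A | r = 1⟩` (as in the frozen statement). -/
def Rel (r : FreeMonoid (α × Bool)) (x y : FreeMonoid (α × Bool)) : Prop :=
  (∃ w : FreeMonoid (α × Bool),
      x = w * FreeMonoid.ofList ((FreeMonoid.toList w).reverse.map (fun p => (p.1, !p.2))) * w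
      ∧ y = w) ∨
  (∃ u w : FreeMonoid (α × Bool),
      x = u * FreeMonoid.ofList ((FreeMonoid.toList u).reverse.map (fun p => (p.1, !p.2)))
            * (w * FreeMonoid.ofList ((FreeMonoid.toList w).reverse.map (fun p => (p.1, !p.2))))
      ∧ y = w * FreeMonoid.ofList ((FreeMonoid.toList w).reverse.map (fun p => (p.1, !p.2)))
            * (u * FreeMonoid.ofList ((FreeMonoid.toList u).reverse.map (fun p => (p.1, !p.2))))) ∨
  (x = r ∧ y = 1)

/-- The inverse monoid `Inv⟨A | r = 1⟩`. -/
abbrev IM (r : FreeMonoid (α × Bool)) : Type := (conGen (Rel r)).Quotient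

/-- The value of a word in the inverse monoid. -/
def io (r : FreeMonoid (α × Bool)) (w : List (α × Bool)) : IM r :=
  ((FreeMonoid.ofList w : FreeMonoid (α × Bool)) : (conGen (Rel r)).Quotient)

section io

variable (r : FreeMonoid (α × Bool))

theorem io_nil : io r [] = 1 := rfl

theorem io_append (w w' : List (α × Bool)) : io r (w ++ w') = io r w * io r w' := rfl

theorem io_surj (y : IM r) : ∃ w, io r w = y := by
  obtain ⟨x, rfl⟩ := Con.mk'_surjective y
  exact ⟨FreeMonoid.toList x, rfl⟩

theorem invRev_eq (w : List (α × Bool)) :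
    w.reverse.map (fun p => (p.1, !p.2)) = FreeGroup.invRev w := by
  simp [FreeGroup.invRev]

theorem io_inv (w : List (α × Bool)) :
    io r w * io r (FreeGroup.invRev w) * io r w = io r w := by
  rw [← io_append, ← io_append]
  refine (Con.eq _).2 (ConGen.Rel.of _ _ (Or.inl ⟨FreeMonoid.ofList w, ?_, rfl⟩))
  rw [FreeMonoid.toList_ofList, invRev_eq]
  rfl

theorem io_comm (u w : List (α × Bool)) :
    io r (u ++ FreeGroup.invRev u) * io r (w ++ FreeGroup.invRev w) =
      io r (w ++ FreeGroup.invRev w) * io r (u ++ FreeGroup.invRev u) := by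
  rw [← io_append, ← io_append]
  refine (Con.eq _).2 (ConGen.Rel.of _ _ (Or.inr (Or.inl
    ⟨FreeMonoid.ofList u, FreeMonoid.ofList w, ?_, ?_⟩)))
  · rw [FreeMonoid.toList_ofList, FreeMonoid.toList_ofList, invRev_eq, invRev_eq]
    rfl
  · rw [FreeMonoid.toList_ofList, FreeMonoid.toList_ofList, invRev_eq, invRev_eq]
    rfl

theorem io_r : io r (FreeMonoid.toList r) = 1 :=
  (Con.eq _).2 (ConGen.Rel.of _ _ (Or.inr (Or.inr ⟨rfl, rfl⟩)))

end io

/-- Right invertible elements (right units). -/
def RU {r : FreeMonoid (α × Bool)} (y : IM r) : Prop := ∃ z, y * z = 1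

/-- The subgroup of the free group generated by the prefixes of `r` which are units in the inverse
monoid. -/
def HU (r : FreeMonoid (α × Bool)) : Subgroup (FreeGroup α) :=
  Subgroup.closure {g | ∃ j : ℕ, IsUnit (io r ((FreeMonoid.toList r).take j)) ∧
    g = FreeGroup.mk ((FreeMonoid.toList r).take j)}

/-- IM1 (no dependence).  Right units.

PROOF.  Write `[w] = io r w`, `w' = invRev w`.  (1) If `[w] z = 1` then
`[w][w'] = [w][w'] [w] z = [w] z = 1`.
(2) Let `RU [p ++ q]`; then `[p][q][q'][p'] = 1` by (1) (`invRev (p ++ q) = q' ++ p'`).  So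
`[p][q q'] = [p][p' p][q q'] = [p][q q'][p' p] = ([p][q q'][p'])[p] = [p]` (first step: `io_inv`; second:
`io_comm` for `p'` and `q`, `invRev p' = p`; the bracket is `1`).
(3) If `RU [p ++ [x, bar x] ++ q]` then `[p ++ [x, bar x] ++ q] = [p ++ q]`: `RU [p ++ [x]]` (prefix:
`[p x] ([bar x ++ q] z) = 1`), so `[p][x][bar x] = [p]` by (2).  So also `RU [p ++ q]`.
By induction along `FreeGroup.Red` (`FreeGroup.Red.Step` deletes `(x, b), (x, !b)`), `RU [w]` and
`FreeGroup.Red w v` give `[w] = [v]`.  If `mk w = mk w'` then `w, w'` have a common reduct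
(`FreeGroup.Red.exact`), so `[w] = [w']`. -/
def StIM1 : Prop := ∀ (α : Type) (r : FreeMonoid (α × Bool)),
  (∀ w, RU (io r w) → io r w * io r (FreeGroup.invRev w) = 1) ∧
  (∀ p q, RU (io r (p ++ q)) → io r p * io r (q ++ FreeGroup.invRev q) = io r p) ∧
  (∀ w w', RU (io r w) → RU (io r w') → FreeGroup.mk w = FreeGroup.mk w' → io r w = io r w')

/-- IM2 (to prove: `theorem tIM2 : StIM1 → StIM2`).  Right units and units are products of prefixes
of `r`.

PROOF.  Every prefix `[r_j]`, `r_j = r.take j`, is a right unit (`[r_j][r.drop j] = [r] = 1`).  Let `R'` be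
the submonoid generated by the `[r_j]`; all its elements are right units.  For `x ∈ R'` and a word
`w` let `D x w` be: `x [p] ∈ R'` for all prefixes `p` of `w`.
`D x (u ++ v) ↔ D x u ∧ D (x [u]) v`.  Define a relation on words (a `Con` on `FreeMonoid`): `u ~ v` iff
`[u] = [v]` and for all `x ∈ R'`, `D x u ↔ D x v`.  It is a congruence (by the displayed rule:
if `u ~ v`, `u' ~ v'`: `D x (u u') ↔ D x u ∧ D (x[u]) u' ↔ D x v ∧ D (x [v]) v'`; when `D x u` holds,
`x [u] ∈ R'`; so state the rule with the conjunction and use that `D x u` gives `x[u] ∈ R'`).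
It contains the relations `Rel r`:
* `w w' w ~ w`: if `D x w`, then `y := x [w] ∈ R'`, and for `w = p ++ q` (so `q'` is a prefix of `w'`):
`y [q'] = x [p][q][q'] = x [p] ∈ R'` (IM1 (2), applied to a word for `x`: `RU (x [p ++ q])`); the end is
`x [w][w'] = x`, so `D x w` again for the last part.
* `u u' w w'` and `w w' u u'`: `D` of both is `D x u ∧ D x w` by the same computation.
* `r ~ 1`: `x [r_j] ∈ R'`, so `D x r` is true, as is `D x []`.
So `conGen (Rel r) ≤ ~`.  Let `RU [w]`.  Then `[w w'] = 1 = [ ]`, so `w w' ~ []`, so `D 1 (w w')`, and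
`[w] ∈ R'`.  This is the first claim.
Second claim: let `y` be a unit.  It is a right unit, so `y = x_1 ⋯ x_t` with all `x_i` prefixes.  Show by
induction on `t` that it is a product of prefixes which are units: `t = 0` clear.  `x_t` is a right unit,
and `z y = 1` gives `(z x_1 ⋯ x_{t-1}) x_t = 1`: `x_t` has a left inverse too, so it is a unit
(a left and a right inverse); `y x_t⁻¹ = x_1 ⋯ x_{t-1}` is a unit. -/
def StIM2 : Prop := ∀ (α : Type) (r : FreeMonoid (α × Bool)),
  (∀ w, RU (io r w) → io r w ∈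
    Submonoid.closure {y : IM r | ∃ j : ℕ, y = io r ((FreeMonoid.toList r).take j)}) ∧
  (∀ y : IM r, IsUnit y → y ∈
    Submonoid.closure {y : IM r | IsUnit y ∧ ∃ j : ℕ, y = io r ((FreeMonoid.toList r).take j)})

/-- PSI (to prove: `theorem tPSI : StIM1 → StIM2 → StPSI`).  The map from `HU r` onto the group of
units.

PROOF.  Let `B` be the set of `g` in the free group such that there is a word `w` with `mk w = g` and
`io r w` a unit.  It is a subgroup: products clear; inverse: if `[w]` is a unit then `[w][w'] = 1`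
(IM1 (1)), so `[w']` is its inverse, a unit, and `mk w' = g⁻¹`.  The generators of `HU r` are in `B`,
so `HU r ≤ B`.  For `h ∈ HU r` choose such a word `w` and let `Ψ h` be the unit `[w]`; it does not
depend on `w` by IM1 (3) (units are right units), so it is multiplicative (`w ++ w₁` for a product)
and the second claim holds.  Surjective: a unit `y` is by IM2 a product of units `[r_j]`; the product
of the corresponding `mk r_j` is in `HU r` and maps to `y` (`Submonoid.closure_induction`: the set of the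
`y` for which some `h ∈ HU r` and `w` exist with `mk w = h`, `[w] = y`, `y` unit is a submonoid).
Last claim: the map `FreeMonoid → FreeGroup α ⧸ normalClosure {mk r}`, `w ↦ mk w`, respects `Rel r`
(in a group `w w⁻¹ w = w`, idempotents are `1`, `r ↦ 1`), so it factors through `IM r` (`Con.lift`,
`Con.conGen_le`).  If `Ψ h = 1` then `[w] = 1`, so `mk w ↦ 1`. -/
def StPSI : Prop := ∀ (α : Type) (r : FreeMonoid (α × Bool)), ∃ Ψ : HU r →* (IM r)ˣ,
  Function.Surjective Ψ ∧
  (∀ (h : HU r) (w : List (α × Bool)), FreeGroup.mk w = (h : FreeGroup α) → IsUnit (io r w) →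
    ((Ψ h : (IM r)ˣ) : IM r) = io r w) ∧
  (∀ h : HU r, ∃ w : List (α × Bool), FreeGroup.mk w = (h : FreeGroup α) ∧ IsUnit (io r w)) ∧
  (∀ h : HU r, Ψ h = 1 → (h : FreeGroup α) ∈
    Subgroup.normalClosure ({FreeGroup.mk (FreeMonoid.toList r)} : Set (FreeGroup α)))

/-- RIG (to prove: `theorem tRIG : StIM1 → StPSI → StRIG`).  Rigidity of the graph of `HU r`.

PROOF.  Write `[w] = io r w`, `s_i := seg c 0 i` (`0 ≤ i`), so `r = s_{l n}`, `mk s_i = pre i`,
`[s_n]^l = [r] = 1`, so `S := [s_n]` is a unit and `Z.s = mk s_n ∈ HU r =: H`.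
Call `y ∈ IM r` a VALUE of `g ∈ FreeGroup α` if `y = [w]`, `RU y`, `mk w = g` for some word `w`.  By IM1
(3) `g` has at most one value.
(1) `g = h * pre j` with `h ∈ H`, `j : ℤ`, has a value: subtracting a multiple of `n` (`s ∈ H`) let
`0 ≤ j < n`; let `w_h` be a word for `h` with `[w_h]` a unit (PSI); `[w_h ++ s_j]` is a right unit
because `[s_j]` is one (`s_j` is a prefix of `r`).  So the value is `[w_h][s_j]`, and if the value of
`g` is a unit, then `[s_j]` is a unit, so `pre j = mk s_j ∈ H` (a prefix of `r`) and `g ∈ H`.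
(2) If `PG H c g x` then the values of `g`, `g * lt x` satisfy `val (g lt x) = val g * [x]`.
First case `g = h * pre j`, `x = c j`, `0 ≤ j < n`: the values are `[w_h][s_j]` and `[w_h][s_{j+1}]`
(for `j + 1 = n` also: it is a right unit with the right image).  Second case `g = h * pre (j+1)`,
`x = bar (c j)`: `val g = y [c j]` with `y = val (h pre j)`, and `val g * [bar (c j)] = y [c j][bar (c j)] = y`
by IM1 (2).
So along a path in `Γ` the values are obtained by multiplication with the word read so far: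
`val (g * mk w) = val g * [w]`.
(3) For `y` right unit and `0 ≤ m < n` let `D y m` be: `y = x [s_m]` for some right unit `x`.  Choose
`m < n` maximal: for all `j < n`, `D [s_j] m → D [s_m] j`.  (Exists: the relation `D [s_j] m` on the
finite set `{0..n-1}` is reflexive and transitive; `Finite.exists_maximal` or induction.)
(4) Claim: if `g = h * pre j` has a value `y = x [s_m]` with `x` a right unit then `x` is a unit.
`y = [w_h][s_j]`, `0 ≤ j < n`, so `[s_j] = [w_h]⁻¹ x [s_m]`, `D [s_j] m`, so `[s_m] = x₂ [s_j]`, `x₂` a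
right unit.  Then `[s_j] = ([w_h]⁻¹ x x₂)[s_j]`; multiply by a right inverse of `[s_j]`:
`[w_h]⁻¹ x x₂ = 1`.  And `[s_m] = (x₂ [w_h]⁻¹ x)[s_m]` gives `x₂ [w_h]⁻¹ x = 1`.  So `x` has the left inverse
`x₂ [w_h]⁻¹`, and it is a right unit, so it is a unit.
(5) Let `seg c i n` be a path in `Γ` from `g`; by `s ∈ H`, periodicity we may assume `0 ≤ i < n`
(replace `i` by `i mod n`; `pre (i + q n) = s^q pre i`).  The vertices `g_t := g * (pre i)⁻¹ * pre (i + t)`,
`0 ≤ t ≤ n`, all have values `y_t`, `y_{t'} = y_t [seg c (i+t) (t'-t)]` for `t ≤ t'`.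
(The path has at least one step, so each `g_t` is an end of a step of `Γ`, hence of the form
`h * pre j`.)
Let `t₀ := n - i` if `i > 0`, `t₀ := 0` if `i = 0` (phase `0`).
Case A: `m` is reached after `t₀` or `i = 0`, i.e. `t₀ + m ≤ n`: `y_{t₀+m} = y_{t₀} [s_m]`
(`seg c (i+t₀) m = s_m`).  By (4) `y_{t₀}` is a unit.
Case B: otherwise `i > 0` and `m > n - t₀ = i`, so `t_m := m - i < t₀` is the time of phase `m`.
`z := seg c m (n-m)`, `s_n = s_m ++ z`, `y_{t₀} = y_{t_m} [z]`.  Let `x' := y_{t₀} S⁻¹`, a right unit, where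
`S⁻¹ = [invRev s_n] = [z'][s_m']`.  Then `x' [s_m] = y_{t_m} [z][z'][s_m'][s_m] = y_{t_m} [s_m'][s_m]`
(IM1 (2): `RU (y_{t_m} [z])`).  `[s_m'][s_m]` is idempotent-like: both `y_{t_m}` and `x' [s_m]` are right
units and values of words: let `w_y` be a word for `y_{t_m}`; `x' [s_m]` is the value of the word
`w_y ++ z ++ z' ++ s_m' ++ s_m`, which has the same image in the free group as `w_y`; so by IM1 (3)
`x' [s_m] = y_{t_m}`.  By (4) `x'` is a unit, so `y_{t₀} = x' S` is a unit.
In both cases `g_{t₀}` has a unit value, so `g_{t₀} ∈ H` by (1).  `g = g_{t₀} * (pre (i + t₀))⁻¹ * pre i` with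
`pre (i + t₀) ∈ {1, s}`.  So `g ∈ H * pre i`. -/
def StRIG : Prop := ∀ (α : Type) (r : FreeMonoid (α × Bool)) (Z : Cyc α) (l : ℕ), 1 ≤ l →
  FreeMonoid.toList r = seg Z.c 0 (l * Z.n) → Z.s ∈ HU r ∧ Rig (HU r) Z

/-- GEN (no dependence).  Elements of `HU r` are closed paths in `Γ`.

PROOF.  The set of `h ∈ H := HU r` which are `mk w` for a path `w` in `Γ` from `1` is a subgroup:
product: `w ++ w₁`, `w₁` is a path from `1` and hence from `h * 1` (`InG_mul`); inverse: `InG_invRev`, the
path `invRev w` starts at `h = h * 1`, so it is also a path from `1`.  It contains the generators: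
`(toList r).take j = seg c 0 (min j (l n))`, a path from `1 = 1 * pre 0` (`InG_seg`). -/
def StGEN : Prop := ∀ (α : Type) (r : FreeMonoid (α × Bool)) (Z : Cyc α) (l : ℕ),
  FreeMonoid.toList r = seg Z.c 0 (l * Z.n) → ∀ h ∈ HU r, ∃ w : List (α × Bool),
    InG (HU r) Z.c 1 w ∧ FreeGroup.mk w = h

/-- ROOT (no dependence).  The primitive root of a power.

PROOF.  `L := (List.replicate k u).flatten`, `N := L.length = k |u| > 0`.  Let `c : ℤ → α × Bool`,
`c i := L[i mod N]`; it has the periods `N` and `|u|`.  The set of `d : ℤ` with `c (i+d) = c i` for all `i`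
is a subgroup of `ℤ` containing `|u| > 0`, so it is `n ℤ` with `n ≥ 1`, `n ∣ |u|`.  `Z := (c, n)`: `per`,
`prim` clear; `red`: consecutive letters of `c` are consecutive letters of `L` or its last and first
letters.  `|u| = j n`, `l := j k`, `N = l n`, `L = seg c 0 N`, `u = seg c 0 (j n)` (the first `|u|` letters
of `L`), `mk u = pre (j n) = s^j`. -/
def StROOT : Prop := ∀ (α : Type) (u : List (α × Bool)) (k : ℕ), 2 ≤ k → u ≠ [] →
  (∀ p ∈ ((List.replicate k u).flatten).zip ((List.replicate k u).flatten).tail,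
    ¬ (p.1.1 = p.2.1 ∧ p.1.2 ≠ p.2.2)) →
  (∀ a b : α × Bool, ((List.replicate k u).flatten).head? = some a →
    ((List.replicate k u).flatten).getLast? = some b → ¬ (a.1 = b.1 ∧ a.2 ≠ b.2)) →
  ∃ (Z : Cyc α) (j : ℕ), 1 ≤ j ∧ (List.replicate k u).flatten = seg Z.c 0 (j * k * Z.n) ∧
    FreeGroup.mk u = Z.s ^ j

/-- FGF (no dependence).  A finitely generated subgroup of a free group is free of finite rank.

PROOF.  Nielsen-Schreier in Mathlib (`subgroupIsFreeOfIsFree` or similar): `H` is free,
`H ≃* FreeGroup X`.  `X` is finite: `FreeGroup X` is finitely generated, so its abelianization, or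
the `ℤ/2`-vector space `X →₀ ZMod 2` (image of the homomorphism
`FreeGroup X → Multiplicative (X →₀ ZMod 2)`, surjective) is finitely generated, so `X` is finite.
Then `X ≃ Fin p`. -/
def StFGF : Prop := ∀ (α : Type) (H : Subgroup (FreeGroup α)), H.FG →
  ∃ p : ℕ, Nonempty (H ≃* FreeGroup (Fin p))

/-- PRES (no dependence).  A quotient of a free group by the normal closure of one element.

PROOF.  `Ψ ∘ e.symm : FreeGroup (Fin p) →* U` is surjective with kernel
`normalClosure {(e x)^k}` (the image of `normalClosure {x^k}` under `e`).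
`PresentedGroup S = FreeGroup ⧸ normalClosure S`; `QuotientGroup.quotientKerEquivOfSurjective`. -/
def StPRES : Prop := ∀ (H : Type) [Group H] (p : ℕ) (e : H ≃* FreeGroup (Fin p)) (U : Type)
  [Group U] (Ψ : H →* U), Function.Surjective Ψ → ∀ (x : H) (k : ℕ),
  Ψ.ker = Subgroup.normalClosure ({x ^ k} : Set H) →
  Nonempty (U ≃* PresentedGroup ({(e x) ^ k} : Set (FreeGroup (Fin p))))

end Pool.Agent.Helper96.UT
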