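import Pool.Agent.Helper96.UT.StC
import Pool.Agent.Helper96.UT.StI

/-!
Project UT (MP_2c90c1_al): final assembly, from the statements of the modules.
-/

set_option autoImplicit false

namespace Pool.Agent.Helper96.UT

variable {α : Type}

theorem toList_pow (u : FreeMonoid (α × Bool)) (k : ℕ) :
    FreeMonoid.toList (u ^ k) = (List.replicate k (FreeMonoid.toList u)).flatten := by
  induction k with
  | zero => rfl
  | succ k ih =>
    rw [pow_succ', FreeMonoid.toList_mul, ih, List.replicate_succ, List.flatten_cons]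

theorem mk_r {Z : Cyc α} {l : ℕ} {L : List (α × Bool)} (h : L = seg Z.c 0 (l * Z.n)) :
    FreeGroup.mk L = Z.s ^ l := by
  rw [h, mk_seg, pre_zero, inv_one, one_mul, zero_add]
  have e : ((l * Z.n : ℕ) : ℤ) = 0 + (l : ℤ) * Z.n := by push_cast; ring
  rw [e, Z.pre_add_mul, pre_zero, mul_one, zpow_natCast]

theorem HU_fg (r : FreeMonoid (α × Bool)) : (HU r).FG := by
  classical
  let S : Finset (FreeGroup α) := ((Finset.range ((FreeMonoid.toList r).length + 1)).image
    fun j => FreeGroup.mk ((FreeMonoid.toList r).take j)).filter fun g =>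
      ∃ j : ℕ, IsUnit (io r ((FreeMonoid.toList r).take j)) ∧
        g = FreeGroup.mk ((FreeMonoid.toList r).take j)
  refine ⟨S, ?_⟩
  have : (S : Set (FreeGroup α)) = {g | ∃ j : ℕ, IsUnit (io r ((FreeMonoid.toList r).take j)) ∧
      g = FreeGroup.mk ((FreeMonoid.toList r).take j)} := by
    ext g
    constructor
    · intro hg
      exact (Finset.mem_filter.1 hg).2
    · rintro ⟨j, hj, rfl⟩
      refine Finset.mem_filter.2 ⟨?_, j, hj, rfl⟩
      rw [Finset.mem_image]
      rcases Nat.lt_or_ge (FreeMonoid.toList r).length j with h | h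
      · refine ⟨(FreeMonoid.toList r).length, Finset.mem_range.2 (Nat.lt_succ_self _), ?_⟩
        rw [List.take_length, List.take_of_length_le h.le]
      · exact ⟨j, Finset.mem_range.2 (Nat.lt_succ_of_le h), rfl⟩
  rw [this]
  rfl

theorem ker_eq (hRIG : StRIG) (hGEN : StGEN) (hEXZ : StEXZ) (hIND : StIND)
    (r : FreeMonoid (α × Bool)) (Z : Cyc α) (l : ℕ) (hl : 2 ≤ l)
    (hr : FreeMonoid.toList r = seg Z.c 0 (l * Z.n)) (Ψ : HU r →* (IM r)ˣ)
    (h2 : ∀ (h : HU r) (w : List (α × Bool)), FreeGroup.mk w = (h : FreeGroup α) →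
      IsUnit (io r w) → ((Ψ h : (IM r)ˣ) : IM r) = io r w)
    (h4 : ∀ h : HU r, Ψ h = 1 → (h : FreeGroup α) ∈
      Subgroup.normalClosure ({FreeGroup.mk (FreeMonoid.toList r)} : Set (FreeGroup α)))
    (x : HU r) (hx : (x : FreeGroup α) = Z.s ^ l) :
    Ψ.ker = Subgroup.normalClosure ({x} : Set (HU r)) := by
  obtain ⟨hs, hrig⟩ := hRIG α r Z l (by omega) hr
  have hmk := mk_r hr
  apply le_antisymm
  · intro h hh
    rw [MonoidHom.mem_ker] at hh
    have h5 := h4 h hh
    rw [hmk] at h5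
    obtain ⟨w, hw, hwh⟩ := hGEN α r Z l hr h h.2
    obtain ⟨Ω, inst, K, v, hE, hv⟩ := hEXZ α Z l (by omega) _ h5
    have h6 := hIND α Z l hl (HU r) hs hrig Ω K 1 v w hw (by rw [hE]; exact InE_univ v w)
      (by rw [hwh]; exact hv)
    rw [one_mul, inv_one, mul_one, hwh] at h6
    -- from the subgroup of the free group to the subgroup of `HU r`
    have key : NH (HU r) Z l ≤ (Subgroup.normalClosure ({x} : Set (HU r))).map (HU r).subtype := by
      refine (Subgroup.closure_le _).2 ?_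
      rintro _ ⟨g, hg, rfl⟩
      refine ⟨⟨g, hg⟩ * x * ⟨g, hg⟩⁻¹, ?_, ?_⟩
      · exact (Subgroup.normalClosure_normal).conj_mem _
          (Subgroup.subset_normalClosure (Set.mem_singleton x)) _
      · simp [hx]
    obtain ⟨y, hy, hy2⟩ := key h6
    have : y = h := Subtype.ext hy2
    rw [← this]
    exact hy
  · refine Subgroup.normalClosure_le_normal ?_
    intro y hy
    rw [Set.mem_singleton_iff] at hy
    rw [hy]
    change x ∈ Ψ.ker
    rw [MonoidHom.mem_ker]
    apply Units.ext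
    rw [h2 x (FreeMonoid.toList r) (by rw [hmk, hx]) (by rw [io_r]; exact isUnit_one), io_r]
    rfl

theorem units_trivial (hIM2 : StIM2) (r : FreeMonoid (α × Bool)) (hr : r = 1) (y : (IM r)ˣ) :
    y = 1 := by
  have h := (hIM2 α r).2 (y : IM r) y.isUnit
  apply Units.ext
  have h2 : Submonoid.closure {y : IM r | IsUnit y ∧ ∃ j : ℕ,
      y = io r ((FreeMonoid.toList r).take j)} ≤ ⊥ := by
    rw [Submonoid.closure_le]
    rintro y ⟨-, j, rfl⟩
    have : (FreeMonoid.toList r).take j = [] := by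
      rw [hr]; simp
    rw [this]
    exact Submonoid.mem_bot.2 rfl
  exact Submonoid.mem_bot.1 (h2 h)

/-- The theorem, from the modules. -/
theorem utFinal (hIM2 : StIM2) (hPSI : StPSI) (hRIG : StRIG) (hGEN : StGEN) (hROOT : StROOT)
    (hFGF : StFGF) (hPRES : StPRES) (hEXZ : StEXZ) (hIND : StIND)
    (u : FreeMonoid (α × Bool)) (k : ℕ) (hk : 2 ≤ k)
    (h1 : ∀ p ∈ (FreeMonoid.toList (u ^ k)).zip (FreeMonoid.toList (u ^ k)).tail,
        ¬ (p.1.1 = p.2.1 ∧ p.1.2 ≠ p.2.2))
    (h2 : ∀ a b : α × Bool, (FreeMonoid.toList (u ^ k)).head? = some a →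
        (FreeMonoid.toList (u ^ k)).getLast? = some b → ¬ (a.1 = b.1 ∧ a.2 ≠ b.2)) :
    ∃ (n : ℕ) (s : FreeGroup (Fin n)),
      Nonempty ((IM (u ^ k))ˣ ≃* PresentedGroup ({s ^ k} : Set (FreeGroup (Fin n)))) := by
  by_cases hu : u = 1
  · -- the trivial case
    have hr : u ^ k = 1 := by rw [hu, one_pow]
    refine ⟨0, 1, ⟨?_⟩⟩
    have hs1 : Subsingleton (IM (u ^ k))ˣ :=
      ⟨fun a b => by rw [units_trivial hIM2 _ hr a, units_trivial hIM2 _ hr b]⟩
    have hs2 : Subsingleton (PresentedGroup ({(1 : FreeGroup (Fin 0)) ^ k} :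
        Set (FreeGroup (Fin 0)))) := by
      constructor
      intro a b
      obtain ⟨a, rfl⟩ := QuotientGroup.mk_surjective a
      obtain ⟨b, rfl⟩ := QuotientGroup.mk_surjective b
      rw [Subsingleton.elim a b]
    exact
      { toFun := fun _ => 1
        invFun := fun _ => 1
        left_inv := fun _ => Subsingleton.elim _ _
        right_inv := fun _ => Subsingleton.elim _ _
        map_mul' := fun _ _ => Subsingleton.elim _ _ }
  · have hu' : FreeMonoid.toList u ≠ [] := by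
      intro h
      exact hu (FreeMonoid.toList.injective h)
    have hL := toList_pow u k
    rw [hL] at h1 h2
    obtain ⟨Z, j, hj, hLs, hmu⟩ := hROOT α (FreeMonoid.toList u) k hk hu' h1 h2
    have hr : FreeMonoid.toList (u ^ k) = seg Z.c 0 (j * k * Z.n) := by rw [hL, hLs]
    have hl : 2 ≤ j * k := by nlinarith
    obtain ⟨Ψ, hsurj, hΨ2, -, hΨ4⟩ := hPSI α (u ^ k)
    obtain ⟨hs, -⟩ := hRIG α (u ^ k) Z (j * k) (by omega) hr
    let x : HU (u ^ k) := ⟨Z.s ^ j, (HU (u ^ k)).pow_mem hs j⟩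
    have hxk : ((x ^ k : HU (u ^ k)) : FreeGroup α) = Z.s ^ (j * k) := by
      rw [Subgroup.coe_pow, pow_mul]
    have hker := ker_eq hRIG hGEN hEXZ hIND (u ^ k) Z (j * k) hl hr Ψ hΨ2 hΨ4 (x ^ k) hxk
    obtain ⟨p, ⟨e⟩⟩ := hFGF α (HU (u ^ k)) (HU_fg _)
    exact ⟨p, e x, hPRES (HU (u ^ k)) p e (IM (u ^ k))ˣ Ψ hsurj x k hker⟩

end Pool.Agent.Helper96.UT
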