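import Pool.Agent.Helper96.UT.StC

set_option autoImplicit false

namespace Pool.Agent.Helper96.UT

variable {α : Type} {Z : Cyc α} {l : ℕ} {Ω : Type} [MulAction (FreeGroup α) Ω]

theorem eta_mul_ARC (η : Stk Z) (i q : ℤ) : η.η (i + q * Z.n) = η.η i := by
  induction q with
  | zero => simp
  | succ q ih =>
    rw [← ih, ← η.per (i + q * Z.n)]
    congr 1
    ring
  | pred q ih =>
    rw [← ih, ← η.per (i + (-q - 1) * Z.n)]
    congr 1
    ring

theorem tht_mul_ARC (η : Stk Z) (i q : ℤ) : tht Z η.η (i + q * Z.n) = tht Z η.η i := by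
  unfold tht
  rw [Z.per_mul, eta_mul_ARC]
  have : i + q * Z.n + 1 = (i + 1) + q * Z.n := by ring
  rw [this, eta_mul_ARC]

theorem topV_ARC (K : Cx Z l Ω) (η : Stk Z) (u : Ω) (i q : ℤ) :
    TopV K η.η (act u (Z.s ^ q)) i ↔ TopV K η.η u (i + q * Z.n) := by
  unfold TopV
  rw [act_pre_add, eta_mul_ARC]

theorem topE_ARC (K : Cx Z l Ω) (η : Stk Z) (u : Ω) (i q : ℤ) :
    TopE K η.η (act u (Z.s ^ q)) i ↔ TopE K η.η u (i + q * Z.n) := by
  unfold TopE
  rw [act_pre_add, tht_mul_ARC, Z.per_mul]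

theorem topV_succ_ARC (K : Cx Z l Ω) (η : Stk Z) (u : Ω) (k : ℤ)
    (h : TopV K η.η u (k + 1)) : TopE K η.η u k := by
  intro u' hu' k' he
  rcases ed_eq he.symm with ⟨h1, h2⟩ | ⟨h1, h2⟩
  · have h3 : act u' (pre Z.c (k' + 1)) = act u (pre Z.c (k + 1)) := by
      rw [← act_pre_succ, ← act_pre_succ, h1, h2]
    have h4 := h u' hu' (k' + 1) h3
    have h5 := η.mono k k' h2.symm
    unfold tht
    rw [h2]
    split
    · by_contra hc
      exact absurd (h5.1 (by omega)) (by omega)
    · exact h4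
  · rw [act_pre_succ] at h1
    have h4 := h u' hu' k' h1
    have h5 := η.monobar k k' (by rw [h2, bar_bar])
    unfold tht
    rw [h2]
    rcases hb : (Z.c k).2 with _ | _
    · simpa [bar, hb] using h4
    · simp only [bar, hb, Bool.not_true, Bool.false_eq_true, if_false, if_true]
      by_contra hc
      exact absurd (h5.1 (by omega)) (by omega)

theorem iter_ARC (u : Ω) (q : ℕ) :
    (fun x : Ω => act x Z.s)^[q] u = act u (Z.s ^ q) := by
  induction q with
  | zero => simp
  | succ q ih => rw [Function.iterate_succ_apply', ih, pow_succ, act_mul]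

open scoped Classical in
theorem card_orb_ARC (hl : 1 ≤ l) (u : Ω) (hu : act u (Z.s ^ l) = u) :
    (orb Z l u).card = Function.minimalPeriod (fun x : Ω => act x Z.s) u := by
  set f : Ω → Ω := fun x => act x Z.s with hf
  have hp : Function.IsPeriodicPt f l u := by
    unfold Function.IsPeriodicPt Function.IsFixedPt
    rw [iter_ARC, hu]
  have hpos : 0 < Function.minimalPeriod f u :=
    Function.minimalPeriod_pos_of_mem_periodicPts ⟨l, hl, hp⟩
  have hle : Function.minimalPeriod f u ≤ l := hp.minimalPeriod_le hl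
  have e : orb Z l u = (Finset.range (Function.minimalPeriod f u)).image fun q : ℕ => f^[q] u := by
    ext x
    simp only [orb, Finset.mem_image, Finset.mem_range]
    constructor
    · rintro ⟨q, _, rfl⟩
      refine ⟨q % Function.minimalPeriod f u, Nat.mod_lt _ hpos, ?_⟩
      rw [Function.iterate_mod_minimalPeriod_eq, iter_ARC]
    · rintro ⟨q, hq, rfl⟩
      exact ⟨q, by omega, by rw [iter_ARC]⟩
  rw [e, Finset.card_image_of_injOn, Finset.card_range]
  intro a ha b hb hab
  simp only [Finset.coe_range, Set.mem_Iio] at ha hb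
  exact (Function.iterate_eq_iterate_iff_of_lt_minimalPeriod ha hb).1 hab

theorem dvd_ARC (hl : 1 ≤ l) (u : Ω) (hu : act u (Z.s ^ l) = u) (a b : ℤ)
    (h : act u (Z.s ^ a) = act u (Z.s ^ b)) : ((orb Z l u).card : ℤ) ∣ a - b := by
  have h1 : act u (Z.s ^ (a - b)) = u := by
    rw [sub_eq_add_neg, zpow_add, act_mul, h, zpow_neg]
    exact act_inv_eq rfl
  rw [card_orb_ARC hl u hu]
  have key : ∀ j : ℕ, act u (Z.s ^ (j : ℤ)) = u →
      Function.minimalPeriod (fun x : Ω => act x Z.s) u ∣ j := by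
    intro j hj
    apply Function.IsPeriodicPt.minimalPeriod_dvd
    unfold Function.IsPeriodicPt Function.IsFixedPt
    rw [iter_ARC]
    rwa [zpow_natCast] at hj
  rcases Int.eq_nat_or_neg (a - b) with ⟨m, hm | hm⟩
  · rw [hm] at h1 ⊢
    exact_mod_cast key m h1
  · rw [hm] at h1 ⊢
    rw [zpow_neg] at h1
    have h2 := act_inv_eq h1
    rw [inv_inv] at h2
    rw [dvd_neg]
    exact_mod_cast key m h2

/-- the pair of a step -/
theorem mem_Bd_ARC (K : Cx Z l Ω) (η : Stk Z) (hl : 1 ≤ l) (u : Ω) (hu : u ∈ K.C) (k : ℤ)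
    (h : TopE K η.η u k) (h' : ¬ TopV K η.η u k) :
    (act u (Z.s ^ (k / Z.n)), (k % Z.n).toNat) ∈ (Bd K η.η) ∧
      act u (Z.s ^ (k / Z.n)) ∈ orb Z l u := by
  classical
  have hn : (0 : ℤ) < Z.n := by exact_mod_cast Z.pos
  have h0 := Int.emod_nonneg k hn.ne'
  have h1 := Int.emod_lt_of_pos k hn
  have hk : ((k % Z.n).toNat : ℤ) + (k / Z.n) * Z.n = k := by
    rw [Int.toNat_of_nonneg h0]
    have := Int.mul_ediv_add_emod k Z.n
    linarith [mul_comm (k / Z.n) (Z.n : ℤ)]
  refine ⟨?_, ?_⟩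
  · simp only [Bd, Finset.mem_filter, Finset.mem_product, Finset.mem_range]
    refine ⟨⟨K.cell_zpow hl hu _, by omega⟩, ?_, ?_⟩
    · rw [topE_ARC, hk]
      exact h
    · rw [topV_ARC, hk]
      exact h'
  · have hl' : (0 : ℤ) < l := by exact_mod_cast hl
    simp only [orb, Finset.mem_image, Finset.mem_range]
    set q := k / (Z.n : ℤ) with hq
    have h2 := Int.emod_nonneg q hl'.ne'
    have h3 := Int.emod_lt_of_pos q hl'
    refine ⟨(q % l).toNat, by omega, ?_⟩
    have e : q = (l : ℤ) * (q / l) + ((q % l).toNat : ℤ) := by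
      rw [Int.toNat_of_nonneg h2]; exact (Int.mul_ediv_add_emod q l).symm
    conv_rhs => rw [e]
    rw [zpow_add, act_mul, K.fix_zpow hu, zpow_natCast]

theorem exists_max_ARC (η : Stk Z) : ∃ k₀ : ℤ, ∀ k, η.η k ≤ η.η k₀ := by
  have hn : (0 : ℤ) < Z.n := by exact_mod_cast Z.pos
  obtain ⟨i, hi, hm⟩ := Finset.exists_max_image (Finset.range Z.n) (fun i : ℕ => η.η i)
    ⟨0, Finset.mem_range.2 Z.pos⟩
  refine ⟨i, fun k => ?_⟩
  have h0 := Int.emod_nonneg k hn.ne'
  have h1 := Int.emod_lt_of_pos k hn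
  have hk : ((k % Z.n).toNat : ℤ) + (k / Z.n) * Z.n = k := by
    rw [Int.toNat_of_nonneg h0]
    have := Int.mul_ediv_add_emod k Z.n
    linarith [mul_comm (k / Z.n) (Z.n : ℤ)]
  have := hm (k % Z.n).toNat (Finset.mem_range.2 (by omega))
  rw [← hk, eta_mul_ARC]
  exact this

open scoped Classical in
theorem tARC : StARC := by
  intro α Z η l hl Ω _ K u hu
  have hn : (0 : ℤ) < Z.n := by exact_mod_cast Z.pos
  obtain ⟨m₀, hm₀⟩ := exists_max_ARC η
  have hT0 : ∀ q : ℤ, TopV K η.η u (m₀ + q * Z.n) := by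
    intro q u' _ k' _
    rw [eta_mul_ARC]
    exact hm₀ k'
  refine ⟨fun h0 => ?_, fun h1 => ?_⟩
  · rw [Finset.card_eq_zero] at h0
    have hstep : ∀ k, TopV K η.η u (k + 1) → TopV K η.η u k := by
      intro k hk
      by_contra hc
      obtain ⟨h2, h3⟩ := mem_Bd_ARC K η hl u hu k (topV_succ_ARC K η u k hk) hc
      have : (act u (Z.s ^ (k / Z.n)), (k % Z.n).toNat) ∈
          (Bd K η.η).filter fun p => p.1 ∈ orb Z l u := Finset.mem_filter.2 ⟨h2, h3⟩
      rw [h0] at this
      exact absurd this (Finset.notMem_empty _)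
    have hdown : ∀ (k : ℤ) (t : ℕ), TopV K η.η u (k + t) → TopV K η.η u k := by
      intro k t
      induction t with
      | zero => simp
      | succ t ih =>
        intro h
        apply ih
        apply hstep
        have e : k + ((t + 1 : ℕ) : ℤ) = k + t + 1 := by push_cast; ring
        rwa [e] at h
    intro k
    -- choose a large multiple
    have hk : k ≤ m₀ + (|k - m₀|) * Z.n := by
      have h1 : k - m₀ ≤ |k - m₀| := le_abs_self _
      have h2 : 0 ≤ |k - m₀| := abs_nonneg _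
      nlinarith
    obtain ⟨t, ht⟩ := Int.le.dest hk
    exact hdown k t (by rw [ht]; exact hT0 _)
  · rw [Finset.card_eq_one] at h1
    obtain ⟨p, hp⟩ := h1
    have hpm : p ∈ (Bd K η.η).filter fun p => p.1 ∈ orb Z l u := by rw [hp]; simp
    obtain ⟨hp1, hp2⟩ := Finset.mem_filter.1 hpm
    have hpo : ∃ q : ℕ, act u (Z.s ^ q) = p.1 := by
      classical
      simp only [orb, Finset.mem_image, Finset.mem_range] at hp2
      obtain ⟨q, _, hq⟩ := hp2
      exact ⟨q, hq⟩
    obtain ⟨q, hq⟩ := hpo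
    set d : ℤ := ((orb Z l u).card : ℤ) with hd
    set ks : ℤ := (p.2 : ℤ) + q * Z.n with hks
    have hpos : 0 < (orb Z l u).card := Finset.card_pos.2 ⟨p.1, hp2⟩
    have hd1 : 1 ≤ d := by rw [hd]; exact_mod_cast hpos
    -- every bad index is congruent to `ks`
    have hbad : ∀ k, TopE K η.η u k → ¬ TopV K η.η u k → d * Z.n ∣ k - ks := by
      intro k hk hk'
      obtain ⟨h2, h3⟩ := mem_Bd_ARC K η hl u hu k hk hk'
      have h4 : (act u (Z.s ^ (k / Z.n)), (k % Z.n).toNat) ∈
          (Bd K η.η).filter fun p => p.1 ∈ orb Z l u := Finset.mem_filter.2 ⟨h2, h3⟩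
      rw [hp, Finset.mem_singleton] at h4
      have h5 : act u (Z.s ^ (k / Z.n)) = act u (Z.s ^ (q : ℤ)) := by
        rw [zpow_natCast, hq, ← h4]
      have h6 := dvd_ARC hl u (K.fix u hu) _ _ h5
      have h0 := Int.emod_nonneg k hn.ne'
      have hk2 : ((k % Z.n).toNat : ℤ) + (k / Z.n) * Z.n = k := by
        rw [Int.toNat_of_nonneg h0]
        have := Int.mul_ediv_add_emod k Z.n
        linarith [mul_comm (k / Z.n) (Z.n : ℤ)]
      have h7 : p.2 = (k % Z.n).toNat := by rw [← h4]
      have e : k - ks = (k / Z.n - q) * Z.n := by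
        rw [hks, h7]
        nth_rewrite 1 [← hk2]
        ring
      rw [e]
      exact mul_dvd_mul_right h6 _
    have hstep : ∀ k, ks < k → k < ks + d * Z.n → TopV K η.η u (k + 1) → TopV K η.η u k := by
      intro k hk1 hk2 hk
      by_contra hc
      have h2 := hbad k (topV_succ_ARC K η u k hk) hc
      have h3 := Int.le_of_dvd (by omega) h2
      omega
    -- choose `q'` with `ks + (d-1) n < m₀ + q' n ≤ ks + d n`
    set r : ℤ := (ks + d * Z.n - m₀) / Z.n with hr
    have hr1 : m₀ + r * Z.n ≤ ks + d * Z.n := by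
      have := Int.ediv_mul_le (ks + d * Z.n - m₀) hn.ne'
      rw [← hr] at this
      linarith
    have hr2 : ks + (d - 1) * Z.n < m₀ + r * Z.n := by
      have := Int.lt_ediv_add_one_mul_self (ks + d * Z.n - m₀) hn
      rw [← hr] at this
      linarith
    refine ⟨m₀ + r * Z.n - (d - 1) * Z.n, ?_⟩
    have hdown : ∀ t : ℕ, (t : ℤ) ≤ (d - 1) * Z.n → TopV K η.η u (m₀ + r * Z.n - t) := by
      intro t
      induction t with
      | zero =>
        intro _
        simpa using hT0 r
      | succ t ih =>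
        intro ht
        push_cast at ht ⊢
        have h2 := ih (by linarith)
        have e : m₀ + r * Z.n - t = (m₀ + r * Z.n - (t + 1)) + 1 := by ring
        rw [e] at h2
        refine hstep _ ?_ ?_ h2
        · linarith
        · have : (0 : ℤ) ≤ t := by positivity
          linarith
    intro t ht
    have hcast : (((orb Z l u).card - 1 : ℕ) : ℤ) = d - 1 := by
      rw [hd]; push_cast [Nat.cast_sub hpos]; rfl
    have ht' : (t : ℤ) ≤ (d - 1) * Z.n := by
      rw [← hcast]
      exact_mod_cast ht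
    obtain ⟨t', ht2⟩ : ∃ t' : ℕ, (t' : ℤ) = (d - 1) * Z.n - t :=
      ⟨((d - 1) * Z.n - t).toNat, Int.toNat_of_nonneg (by linarith)⟩
    have := hdown t' (by rw [ht2]; linarith [Int.natCast_nonneg t])
    rw [ht2] at this
    have e : m₀ + r * Z.n - ((d - 1) * Z.n - t) = m₀ + r * Z.n - (d - 1) * Z.n + t := by ring
    rwa [e] at this

end Pool.Agent.Helper96.UT
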