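import Pool.Agent.Helper96.UT.StC

set_option autoImplicit false

namespace Pool.Agent.Helper96.UT

theorem orb_card_CNT (hP : StPER) {α : Type} {Z : Cyc α} {l : ℕ} (hl : 1 ≤ l) {Ω : Type}
    [MulAction (FreeGroup α) Ω] (K : Cx Z l Ω) {u : Ω} (hu : u ∈ K.C) {k : ℤ}
    (hS : Sing K u k) : (orb Z l u).card = l := by
  classical
  have key : ∀ q q' : ℕ, q < q' → q' < l → act u (Z.s ^ q) ≠ act u (Z.s ^ q') := by
    intro q q' hqq hq' heq
    have e : Z.s ^ q' = Z.s ^ (((q' - q : ℕ) : ℤ)) * Z.s ^ q := by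
      rw [zpow_natCast, ← pow_add]
      congr 1
      omega
    rw [e, act_mul] at heq
    have h1 := act_inj heq
    have h2 := hP α Z l hl Ω K u hu k hS _ h1.symm
    have h3 : l ∣ q' - q := by exact_mod_cast h2
    have h4 := Nat.le_of_dvd (by omega) h3
    omega
  unfold orb
  rw [Finset.card_image_of_injOn, Finset.card_range]
  intro q hq q' hq' heq
  simp only [Finset.coe_range, Set.mem_Iio] at hq hq'
  rcases lt_trichotomy q q' with h | h | h
  · exact absurd heq (key q q' h hq')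
  · exact h
  · exact absurd heq.symm (key q' q h hq)

/-- CNT: a long arc of single vertices whose interior avoids a given vertex. -/
theorem tCNT : StGOOD → StPER → StCNT := by
  intro hG hP α Z l hl Ω _ K hK v
  rcases hG α Z l hl Ω K hK with ⟨u, hu, hS⟩ | ⟨u₁, hu₁, u₂, hu₂, hne, ⟨k₁, h₁⟩, ⟨k₂, h₂⟩⟩
  · by_cases hv : ∃ k : ℤ, act u (pre Z.c k) = v
    · obtain ⟨k, hk⟩ := hv
      refine ⟨u, hu, k, fun t _ => hS _, fun t ht0 ht1 heq => ?_⟩
      obtain ⟨q, hq1, hq2⟩ := hS k u hu (k + t) (heq.trans hk.symm)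
      have hd := hP α Z l hl Ω K u hu k (hS k) q hq2.symm
      have hn : (0 : ℤ) < Z.n := by exact_mod_cast Z.pos
      have htq : (t : ℤ) = q * Z.n := by linarith
      have hq0 : 0 < q := by
        by_contra hle
        have : q * Z.n ≤ 0 := mul_nonpos_of_nonpos_of_nonneg (by omega) hn.le
        have : (0 : ℤ) < t := by exact_mod_cast ht0
        omega
      have hlq := Int.le_of_dvd hq0 hd
      have ht2 : (t : ℤ) < ((l : ℤ) - 1) * Z.n := by
        have : ((t : ℕ) : ℤ) < (((l - 1) * Z.n : ℕ) : ℤ) := by exact_mod_cast ht1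
        rw [Nat.cast_mul, Nat.cast_sub hl] at this
        simpa using this
      rw [htq] at ht2
      have := lt_of_mul_lt_mul_right ht2 hn.le
      omega
    · exact ⟨u, hu, 0, fun t _ => hS _, fun t _ _ heq => hv ⟨_, heq⟩⟩
  · have s₁ : Sing K u₁ k₁ := by simpa using h₁ 0 (Nat.zero_le _)
    have s₂ : Sing K u₂ k₂ := by simpa using h₂ 0 (Nat.zero_le _)
    rw [orb_card_CNT hP hl K hu₁ s₁] at h₁
    rw [orb_card_CNT hP hl K hu₂ s₂] at h₂
    by_cases hv : ∃ t : ℕ, 0 < t ∧ t < (l - 1) * Z.n ∧ act u₁ (pre Z.c (k₁ + t)) = v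
    · obtain ⟨t, ht0, ht1, htv⟩ := hv
      refine ⟨u₂, hu₂, k₂, h₂, fun t' _ ht1' heq => ?_⟩
      obtain ⟨q, hq1, hq2⟩ := h₁ t ht1.le u₂ hu₂ (k₂ + t') (heq.trans htv.symm)
      refine hne (-q) ?_
      rw [zpow_neg]
      exact act_inv_eq hq2.symm
    · exact ⟨u₁, hu₁, k₁, h₁, fun t ht0 ht1 heq => hv ⟨t, ht0, ht1, heq⟩⟩

end Pool.Agent.Helper96.UT
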