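import Pool.Agent.Helper96.UT.StC

set_option autoImplicit false

namespace Pool.Agent.Helper96.UT

/-- The edges of a simple closed path are pairwise different. -/
private theorem edges_ne_COV {α : Type} {Ω : Type} [MulAction (FreeGroup α) Ω]
    {E : Set (Ω × α)} {v : Ω} {w : List (α × Bool)} (hs : Simple E v w)
    {i j : ℕ} (hij : i < j) (hj : j < w.length) :
    ed (vt v w i) (w[i]'(hij.trans hj)) ≠ ed (vt v w j) w[j] := by
  intro he
  have hi : i < w.length := hij.trans hj
  rcases ed_eq he with ⟨h1, _⟩ | ⟨h1, h2⟩
  · exact hs.inj i j hij hj h1.symm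
  · rw [← vt_succ v w i hi] at h1
    rcases Nat.lt_or_ge (i + 1) j with h3 | h3
    · exact hs.inj (i + 1) j h3 hj h1.symm
    · have h4 : j = i + 1 := by omega
      subst h4
      exact hs.rd i hj h2

theorem tCOV : StCOV := by
  classical
  intro α Z l Ω _ K v w hs i hi
  by_contra hcon
  push Not at hcon
  have key := K.sc ℤ (fun e => if e = ed (vt v w i) w[i] then 1 else 0) (by
    intro u hu
    have h0 : u = act u (pre Z.c 0) := by rw [pre_zero, act_one]
    rw [h0, Sm_seg]
    refine Finset.sum_eq_zero fun t _ => ?_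
    have hne := hcon u hu (0 + (t : ℤ))
    simp only [hne, if_false, neg_zero, ite_self]) v w hs.inE hs.closed
  rw [Sm_eq_sum, Finset.sum_eq_single (⟨i, hi⟩ : Fin w.length)] at key
  · revert key
    simp only [Fin.getElem_fin, if_true]
    split <;> simp
  · intro j _ hji
    have hne : ed (vt v w j) w[j] ≠ ed (vt v w i) w[i] := by
      have hv : (j : ℕ) ≠ i := fun h => hji (Fin.ext h)
      rcases Nat.lt_or_gt_of_ne hv with h | h
      · exact edges_ne_COV hs h hi
      · exact (edges_ne_COV hs h j.2).symm
    simp only [Fin.getElem_fin] at hne ⊢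
    simp [hne]
  · intro h
    exact absurd (Finset.mem_univ _) h

end Pool.Agent.Helper96.UT
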