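import Pool.Agent.Helper96.UT.StC

set_option autoImplicit false

/-!
Project UT, module EXZ: every element of the normal closure is closed in a complex.
-/

namespace Pool.Agent.Helper96.UT

section aux_EXZ

variable {α : Type} {Ω : Type} [MulAction (FreeGroup α) Ω] {Q : Type} [AddCommGroup Q]

theorem Sm_cancel_EXZ (φ : Ω × α → Q) (v : Ω) (x : α × Bool) (w : List (α × Bool)) :
    Sm φ v (x :: bar x :: w) = Sm φ v w := by
  simp only [Sm, ed_bar, lt_bar]
  have h1 : act (act v (lt x)) (lt x)⁻¹ = v := act_inv_eq rfl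
  rw [h1]
  rcases x with ⟨a, b⟩
  cases b <;> simp [bar]

theorem Sm_step_EXZ (φ : Ω × α → Q) (v : Ω) {w w' : List (α × Bool)}
    (h : FreeGroup.Red.Step w w') : Sm φ v w = Sm φ v w' := by
  rcases h with ⟨⟩
  rename_i L₁ L₂ x b
  rw [Sm_append, Sm_append]
  congr 1
  exact Sm_cancel_EXZ φ _ (x, b) L₂

theorem Sm_red_EXZ (φ : Ω × α → Q) (v : Ω) {w w' : List (α × Bool)}
    (h : FreeGroup.Red w w') : Sm φ v w = Sm φ v w' := by
  induction h with
  | refl => rfl
  | tail _ h ih => exact ih.trans (Sm_step_EXZ φ v h)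

theorem Sm_mk_EXZ (φ : Ω × α → Q) (v : Ω) {w w' : List (α × Bool)}
    (h : FreeGroup.mk w = FreeGroup.mk w') : Sm φ v w = Sm φ v w' := by
  obtain ⟨u, h1, h2⟩ := FreeGroup.Red.exact.1 h
  exact (Sm_red_EXZ φ v h1).trans (Sm_red_EXZ φ v h2).symm

theorem rep_EXZ (g : FreeGroup α) : ∃ w : List (α × Bool), FreeGroup.mk w = g :=
  Quot.exists_rep g

/-- a finite set of conjugates suffices -/
theorem fin_EXZ (r : FreeGroup α) {x : FreeGroup α}
    (hx : x ∈ Subgroup.normalClosure ({r} : Set (FreeGroup α))) :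
    ∃ S : Finset (FreeGroup α), x ∈ Subgroup.closure ((fun g => g * r * g⁻¹) '' (S : Set _)) := by
  classical
  unfold Subgroup.normalClosure at hx
  induction hx using Subgroup.closure_induction with
  | mem y hy =>
    rw [Group.mem_conjugatesOfSet_iff] at hy
    obtain ⟨a, ha, hc⟩ := hy
    rw [Set.mem_singleton_iff] at ha
    subst ha
    obtain ⟨c, hc⟩ := isConj_iff.1 hc
    refine ⟨{c}, Subgroup.subset_closure ⟨c, by simp, hc⟩⟩
  | one => exact ⟨∅, Subgroup.one_mem _⟩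
  | mul a b _ _ ha hb =>
    obtain ⟨S, hS⟩ := ha
    obtain ⟨T, hT⟩ := hb
    refine ⟨S ∪ T, Subgroup.mul_mem _ ?_ ?_⟩
    · refine Subgroup.closure_mono (Set.image_mono ?_) hS
      rw [Finset.coe_union]
      exact Set.subset_union_left
    · refine Subgroup.closure_mono (Set.image_mono ?_) hT
      rw [Finset.coe_union]
      exact Set.subset_union_right
  | inv a _ ha =>
    obtain ⟨S, hS⟩ := ha
    exact ⟨S, Subgroup.inv_mem _ hS⟩

theorem act_coset_EXZ (L : Subgroup (FreeGroup α)) (g : FreeGroup α) :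
    act ((1 : FreeGroup α) : FreeGroup α ⧸ L) g = ((g⁻¹ : FreeGroup α) : FreeGroup α ⧸ L) := by
  unfold act
  change (((g⁻¹ * 1 : FreeGroup α)) : FreeGroup α ⧸ L) = _
  rw [mul_one]

theorem act_coset_eq_EXZ (L : Subgroup (FreeGroup α)) (g h : FreeGroup α) :
    act ((1 : FreeGroup α) : FreeGroup α ⧸ L) g = act ((1 : FreeGroup α) : FreeGroup α ⧸ L) h ↔
      g * h⁻¹ ∈ L := by
  rw [act_coset_EXZ, act_coset_EXZ, QuotientGroup.eq, inv_inv]

theorem mk_seg_s_EXZ (Z : Cyc α) (l : ℕ) : FreeGroup.mk (seg Z.c 0 (l * Z.n)) = Z.s ^ l := by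
  rw [mk_seg, pre_zero, inv_one, one_mul]
  have h := Z.pre_add_mul 0 l
  rw [pre_zero, mul_one, zpow_natCast] at h
  rw [← h]
  congr 1

end aux_EXZ

theorem tEXZ : StEXZ := by
  intro α Z l hl x hx
  classical
  obtain ⟨S, hS⟩ := fin_EXZ (Z.s ^ l) hx
  set L : Subgroup (FreeGroup α) :=
    Subgroup.closure ((fun g => g * Z.s ^ l * g⁻¹) '' (S : Set (FreeGroup α))) with hL
  have hgen : ∀ g ∈ S, g * Z.s ^ l * g⁻¹ ∈ L := fun g hg =>
    Subgroup.subset_closure ⟨g, by exact_mod_cast hg, rfl⟩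
  let v : FreeGroup α ⧸ L := ((1 : FreeGroup α) : FreeGroup α ⧸ L)
  have hv : ∀ g h : FreeGroup α, act v g = act v h ↔ g * h⁻¹ ∈ L := act_coset_eq_EXZ L
  have hv1 : ∀ g ∈ L, act v g = v := by
    intro g hg
    have := (hv g 1).2 (by simpa using hg)
    rw [this, act_one]
  let C : Finset (FreeGroup α ⧸ L) :=
    (S ×ˢ Finset.range l).image fun p => act v (p.1 * Z.s ^ p.2)
  have hC : ∀ u, u ∈ C ↔ ∃ g ∈ S, ∃ q < l, u = act v (g * Z.s ^ q) := by
    intro u
    simp only [C, Finset.mem_image, Finset.mem_product, Finset.mem_range, Prod.exists]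
    constructor
    · rintro ⟨g, q, ⟨hg, hq⟩, rfl⟩
      exact ⟨g, hg, q, hq, rfl⟩
    · rintro ⟨g, hg, q, hq, rfl⟩
      exact ⟨g, q, ⟨hg, hq⟩, rfl⟩
  have hrot : ∀ g ∈ S, act v (g * Z.s ^ l) = act v g := by
    intro g hg
    rw [hv]
    exact hgen g hg
  refine ⟨FreeGroup α ⧸ L, inferInstance,
    { E := Set.univ
      C := C
      cyc := ?_
      fix := ?_
      sub := fun _ _ _ => trivial
      sc := ?_ }, v, rfl, hv1 x hS⟩
  · intro u hu
    obtain ⟨g, hg, q, hq, rfl⟩ := (hC u).1 hu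
    rw [← act_mul, mul_assoc, ← pow_succ, hC]
    rcases Nat.lt_or_ge (q + 1) l with h | h
    · exact ⟨g, hg, q + 1, h, rfl⟩
    · have e : q + 1 = l := by omega
      refine ⟨g, hg, 0, by omega, ?_⟩
      rw [e, hrot g hg, pow_zero, mul_one]
  · intro u hu
    obtain ⟨g, hg, q, hq, rfl⟩ := (hC u).1 hu
    rw [← act_mul, hv]
    have e : g * Z.s ^ q * Z.s ^ l * (g * Z.s ^ q)⁻¹ = g * Z.s ^ l * g⁻¹ := by
      rw [mul_assoc g, ← pow_add, add_comm q l, pow_add]
      group
    rw [e]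
    exact hgen g hg
  · intro Q _ φ hφ y w _ hw
    have key : ∀ g, g ∈ L → ∀ w, FreeGroup.mk w = g → Sm φ v w = 0 := by
      intro g hg
      rw [hL] at hg
      induction hg using Subgroup.closure_induction with
      | mem z hz =>
        obtain ⟨g, hg, rfl⟩ := hz
        have hg' : g ∈ S := by exact_mod_cast hg
        intro w hw
        obtain ⟨w1, hw1⟩ := rep_EXZ g
        have e : FreeGroup.mk w =
            FreeGroup.mk (w1 ++ (seg Z.c 0 (l * Z.n) ++ FreeGroup.invRev w1)) := by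
          rw [hw, mk_append, mk_append, mk_seg_s_EXZ, mk_invRev, hw1, ← mul_assoc]
        rw [Sm_mk_EXZ φ v e, Sm_append, Sm_append, hw1, mk_seg_s_EXZ, ← act_mul, hrot g hg',
          ← hw1, Sm_invRev, hw1, hφ]
        · abel
        · rw [hC]
          exact ⟨g, hg', 0, by omega, by rw [pow_zero, mul_one]⟩
      | one =>
        intro w hw
        have e : FreeGroup.mk w = FreeGroup.mk [] := by rw [hw, mk_nil]
        rw [Sm_mk_EXZ φ v e]
        rfl
      | mul a b ha hb iha ihb =>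
        intro w hw
        obtain ⟨wa, hwa⟩ := rep_EXZ a
        obtain ⟨wb, hwb⟩ := rep_EXZ b
        have e : FreeGroup.mk w = FreeGroup.mk (wa ++ wb) := by
          rw [hw, mk_append, hwa, hwb]
        rw [Sm_mk_EXZ φ v e, Sm_append, iha wa hwa, hwa, hv1 a ha, ihb wb hwb, add_zero]
      | inv a ha iha =>
        intro w hw
        obtain ⟨wa, hwa⟩ := rep_EXZ a
        have e : FreeGroup.mk w = FreeGroup.mk (FreeGroup.invRev wa) := by
          rw [hw, mk_invRev, hwa]
        have h2 := Sm_invRev φ v wa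
        rw [hwa, hv1 a ha, iha wa hwa, neg_zero] at h2
        rw [Sm_mk_EXZ φ v e, h2]
    obtain ⟨a, rfl⟩ := QuotientGroup.mk_surjective y
    have hy : ((a : FreeGroup α) : FreeGroup α ⧸ L) = act v a⁻¹ := by
      rw [show act v a⁻¹ = _ from act_coset_EXZ L a⁻¹, inv_inv]
    obtain ⟨w1, hw1⟩ := rep_EXZ a⁻¹
    rw [hy] at hw ⊢
    rw [← act_mul] at hw
    have h3 := key _ ((hv _ _).1 hw) (w1 ++ (w ++ FreeGroup.invRev w1)) (by
      rw [mk_append, mk_append, mk_invRev, hw1, mul_assoc])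
    rw [Sm_append, Sm_append, hw1, ← act_mul, hw, ← hw1, Sm_invRev] at h3
    rw [← hw1]
    have h4 : Sm φ v w1 + (Sm φ (act v (FreeGroup.mk w1)) w + -Sm φ v w1) =
        Sm φ (act v (FreeGroup.mk w1)) w := by abel
    rw [← h4, h3]

end Pool.Agent.Helper96.UT
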