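import Pool.Agent.Helper96.UT.StI

/-!
Project UT, module FGF: finitely generated subgroups of free groups are free of finite rank.
-/

set_option autoImplicit false

namespace Pool.Agent.Helper96.UT

theorem fin_FGF (X : Type) (h : Group.FG (FreeGroup X)) : Finite X := by
  classical
  obtain ⟨S, hS⟩ := Group.fg_def.1 h
  -- the supports of the generators
  let T : Finset X := S.biUnion fun g => (g.toWord.map Prod.fst).toFinset
  have hT : ∀ x : X, x ∈ T := by
    intro x
    by_contra hx
    -- the homomorphism killing all the letters different from `x`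
    let f : FreeGroup X →* Multiplicative ℤ :=
      FreeGroup.lift fun y => if y = x then Multiplicative.ofAdd 1 else 1
    have hf : ∀ g ∈ S, f g = 1 := by
      intro g hg
      have hgx : x ∉ g.toWord.map Prod.fst := by
        intro hh
        exact hx (Finset.mem_biUnion.2 ⟨g, hg, List.mem_toFinset.2 hh⟩)
      have key : ∀ L : List (X × Bool), x ∉ L.map Prod.fst → f (FreeGroup.mk L) = 1 := by
        intro L
        induction L with
        | nil => intro _; exact map_one f
        | cons a L ih =>
          intro hL
          rw [mk_cons, map_mul, ih (by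
            intro hh
            exact hL (by simp only [List.map_cons, List.mem_cons]; exact Or.inr hh)), mul_one]
          have ha : a.1 ≠ x := by
            rintro rfl
            exact hL (by simp)
          rcases a with ⟨y, b⟩
          cases b <;> simp [lt, f, ha]
      rw [← FreeGroup.mk_toWord (x := g)]
      exact key _ hgx
    have hker : (⊤ : Subgroup (FreeGroup X)) ≤ f.ker := by
      rw [← hS, Subgroup.closure_le]
      intro g hg
      exact hf g hg
    have h1 : f (FreeGroup.of x) = 1 := hker (Subgroup.mem_top _)
    rw [FreeGroup.lift_apply_of, if_pos rfl] at h1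
    exact one_ne_zero (Multiplicative.ofAdd.injective (h1 : Multiplicative.ofAdd (1 : ℤ) = Multiplicative.ofAdd 0))
  exact Finite.of_injective (fun x : X => (⟨x, hT x⟩ : T)) fun a b hab => congrArg Subtype.val hab

theorem tFGF : StFGF := by
  intro α H hH
  have : Group.FG H := (Group.fg_iff_subgroup_fg H).2 hH
  obtain ⟨X, ⟨b⟩⟩ := IsFreeGroup.nonempty_basis (G := H)
  have e : H ≃* FreeGroup X := b.repr
  have : Finite X := fin_FGF X (Group.fg_of_surjective (f := e.toMonoidHom) e.surjective)
  obtain ⟨p, ⟨q⟩⟩ := Finite.exists_equiv_fin X
  exact ⟨p, ⟨e.trans (FreeGroup.freeGroupCongr q)⟩⟩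

end Pool.Agent.Helper96.UT
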