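import Pool.Agent.Helper96.UT.StI

/-!
Project UT, module GEN: elements of `HU r` are closed paths in the graph.
-/

set_option autoImplicit false

namespace Pool.Agent.Helper96.UT

theorem take_seg_GEN {α : Type} (c : ℤ → α × Bool) (i : ℤ) (k j : ℕ) :
    (seg c i k).take j = seg c i (min j k) := by
  rw [seg, ← List.map_take, List.take_range]
  rfl

theorem tGEN : StGEN := by
  intro α r Z l hr h hh
  refine Subgroup.closure_induction
    (p := fun h _ => ∃ w : List (α × Bool), InG (HU r) Z.c 1 w ∧ FreeGroup.mk w = h)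
    ?_ ?_ ?_ ?_ hh
  · rintro g ⟨j, -, rfl⟩
    refine ⟨_, ?_, rfl⟩
    rw [hr, take_seg_GEN]
    have := InG_seg (H := HU r) (c := Z.c) (HU r).one_mem 0 (min j (l * Z.n))
    rwa [pre_zero, one_mul] at this
  · exact ⟨[], trivial, mk_nil⟩
  · rintro x y hx - ⟨w, hw, rfl⟩ ⟨w', hw', rfl⟩
    refine ⟨w ++ w', ?_, mk_append w w'⟩
    rw [InG_append, one_mul]
    refine ⟨hw, ?_⟩
    have := (InG_mul (c := Z.c) (g := 1) (w := w') hx).2 hw'
    rwa [mul_one] at this
  · rintro x hx ⟨w, hw, rfl⟩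
    refine ⟨FreeGroup.invRev w, ?_, mk_invRev w⟩
    have h1 := InG_invRev hw
    rw [one_mul] at h1
    have := (InG_mul (c := Z.c) (g := 1) (w := FreeGroup.invRev w) hx).1 (by rwa [mul_one])
    exact this

end Pool.Agent.Helper96.UT
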