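import Pool.Agent.Helper96.UT.StC

set_option autoImplicit false

namespace Pool.Agent.Helper96.UT

section GOOD

variable {α : Type} {Z : Cyc α} {l : ℕ} {Ω : Type} [MulAction (FreeGroup α) Ω]

/-- The reversed stacking. -/
def negStk_GOOD (η : Stk Z) : Stk Z where
  η := fun i => - η.η i
  per := fun i => by rw [η.per]
  inj := fun i j h => η.inj i j (neg_inj.mp h)
  mono := fun i j h => by
    rw [neg_lt_neg_iff, neg_lt_neg_iff]
    exact η.mono j i h.symm
  monobar := fun i j h => by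
    rw [neg_lt_neg_iff, neg_lt_neg_iff]
    exact (η.monobar j i (by rw [h, bar_bar])).symm

theorem sing_GOOD (K : Cx Z l Ω) (η : Stk Z) (u : Ω) (k : ℤ) (h1 : TopV K η.η u k)
    (h2 : TopV K (negStk_GOOD η).η u k) : Sing K u k := by
  intro u' hu' k' h
  have e1 : η.η k' ≤ η.η k := h1 u' hu' k' h
  have e2 : - η.η k' ≤ - η.η k := h2 u' hu' k' h
  have e3 : η.η k' = η.η k := le_antisymm e1 (neg_le_neg_iff.mp e2)
  obtain ⟨q, hq⟩ := η.inj k' k e3
  have hk : k' = k + q * Z.n := by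
    rw [mul_comm, ← hq]
    ring
  refine ⟨q, hk, ?_⟩
  rw [hk, act_pre_add] at h
  exact (act_inj h).symm

open scoped Classical in
theorem mem_orb_GOOD (K : Cx Z l Ω) (hl : 1 ≤ l) {u : Ω} (hu : u ∈ K.C) (w : Ω) :
    w ∈ orb Z l u ↔ ∃ q : ℤ, w = act u (Z.s ^ q) := by
  unfold orb
  rw [Finset.mem_image]
  constructor
  · rintro ⟨q, _, rfl⟩
    exact ⟨(q : ℤ), by rw [zpow_natCast]⟩
  · rintro ⟨q, rfl⟩
    have hl' : (0 : ℤ) < l := by exact_mod_cast hl
    obtain ⟨r, hr⟩ : ∃ r : ℕ, (r : ℤ) = q % l := ⟨(q % l).toNat, Int.toNat_of_nonneg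
      (Int.emod_nonneg _ hl'.ne')⟩
    have e : q = (l : ℤ) * (q / l) + r := by rw [hr]; exact (Int.mul_ediv_add_emod q l).symm
    refine ⟨r, ?_, ?_⟩
    · rw [Finset.mem_range]
      have : (r : ℤ) < l := by rw [hr]; exact Int.emod_lt_of_pos q hl'
      exact_mod_cast this
    · conv_rhs => rw [e, zpow_add, act_mul, K.fix_zpow hu, zpow_natCast]

theorem orb_eq_iff_GOOD (K : Cx Z l Ω) (hl : 1 ≤ l) {u v : Ω} (hu : u ∈ K.C) (hv : v ∈ K.C) :
    v ∈ orb Z l u ↔ orb Z l v = orb Z l u := by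
  constructor
  · intro h
    obtain ⟨q0, rfl⟩ := (mem_orb_GOOD K hl hu v).mp h
    ext w
    rw [mem_orb_GOOD K hl hv, mem_orb_GOOD K hl hu]
    constructor
    · rintro ⟨q, rfl⟩
      exact ⟨q0 + q, by rw [zpow_add, act_mul]⟩
    · rintro ⟨q, rfl⟩
      refine ⟨q - q0, ?_⟩
      rw [← act_mul, ← zpow_add]
      congr 2
      ring
  · intro h
    rw [← h, mem_orb_GOOD K hl hv]
    exact ⟨0, by simp⟩

open scoped Classical in
theorem sum_GOOD (K : Cx Z l Ω) (hl : 1 ≤ l) (f : ℤ → ℤ) :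
    ∑ O ∈ K.C.image (fun u => orb Z l u),
      ((Bd K f).filter fun p => orb Z l p.1 = O).card = (Bd K f).card := by
  rw [← Finset.card_eq_sum_card_fiberwise]
  intro p hp
  have hp' : p ∈ Bd K f := hp
  unfold Bd at hp'
  rw [Finset.mem_filter, Finset.mem_product] at hp'
  exact Finset.mem_coe.mpr (Finset.mem_image.mpr ⟨p.1, hp'.1.1, rfl⟩)

open scoped Classical in
theorem fib_GOOD (K : Cx Z l Ω) (hl : 1 ≤ l) (f : ℤ → ℤ) {u : Ω} (hu : u ∈ K.C) :
    ((Bd K f).filter fun p => p.1 ∈ orb Z l u).card =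
      ((Bd K f).filter fun p => orb Z l p.1 = orb Z l u).card := by
  congr 1
  apply Finset.filter_congr
  intro p hp
  unfold Bd at hp
  rw [Finset.mem_filter, Finset.mem_product] at hp
  exact orb_eq_iff_GOOD K hl hu hp.1.1

open scoped Classical in
theorem tGOOD : StSTK → StLIN → StTOP → StARC → StGOOD := by
  intro hSTK hLIN hTOP hARC α Z l hl Ω _ K hne
  obtain ⟨η⟩ := hSTK α Z
  have hlin := hLIN α Z l hl Ω K hne
  have htop1 := hTOP α Z η l hl Ω K
  have htop2 := hTOP α Z (negStk_GOOD η) l hl Ω K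
  -- the two counting functions
  let t : Finset Ω → ℕ := fun O => ((Bd K η.η).filter fun p => orb Z l p.1 = O).card
  let b : Finset Ω → ℕ := fun O => ((Bd K (negStk_GOOD η).η).filter fun p => orb Z l p.1 = O).card
  have ht : ∑ O ∈ K.C.image (fun u => orb Z l u), t O = (Bd K η.η).card := sum_GOOD K hl _
  have hb : ∑ O ∈ K.C.image (fun u => orb Z l u), b O = (Bd K (negStk_GOOD η).η).card :=
    sum_GOOD K hl _
  have hN : NC K = (K.C.image fun u => orb Z l u).card := rfl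
  have hsum : ∑ O ∈ K.C.image (fun u => orb Z l u), (t O + b O) + 2 ≤
      2 * (K.C.image fun u => orb Z l u).card := by
    rw [Finset.sum_add_distrib, ht, hb, ← hN]
    omega
  have harc1 : ∀ u ∈ K.C, (t (orb Z l u) = 0 → ∀ k, TopV K η.η u k) ∧
      (t (orb Z l u) = 1 → ∃ k₀ : ℤ, ∀ t : ℕ,
        t ≤ ((orb Z l u).card - 1) * Z.n → TopV K η.η u (k₀ + t)) := by
    intro u hu
    have h := hARC α Z η l hl Ω K u hu
    rw [fib_GOOD K hl η.η hu] at h
    exact h
  have harc2 : ∀ u ∈ K.C, (b (orb Z l u) = 0 → ∀ k, TopV K (negStk_GOOD η).η u k) ∧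
      (b (orb Z l u) = 1 → ∃ k₀ : ℤ, ∀ t : ℕ,
        t ≤ ((orb Z l u).card - 1) * Z.n → TopV K (negStk_GOOD η).η u (k₀ + t)) := by
    intro u hu
    have h := hARC α Z (negStk_GOOD η) l hl Ω K u hu
    rw [fib_GOOD K hl (negStk_GOOD η).η hu] at h
    exact h
  by_cases h0 : ∃ O ∈ K.C.image (fun u => orb Z l u), t O + b O = 0
  · left
    obtain ⟨O, hO, hz⟩ := h0
    obtain ⟨u, hu, rfl⟩ := Finset.mem_image.mp hO
    refine ⟨u, hu, fun k => ?_⟩
    exact sing_GOOD K η u k ((harc1 u hu).1 (by omega) k) ((harc2 u hu).1 (by omega) k)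
  · right
    have h0' : ∀ O ∈ K.C.image (fun u => orb Z l u), 1 ≤ t O + b O := by
      intro O hO
      by_contra hlt
      exact h0 ⟨O, hO, by omega⟩
    have hcard : 1 < ((K.C.image (fun u => orb Z l u)).filter fun O => t O + b O = 1).card := by
      have h1 : ∑ O ∈ K.C.image (fun u => orb Z l u), (if t O + b O = 1 then 1 else 2) ≤
          ∑ O ∈ K.C.image (fun u => orb Z l u), (t O + b O) := by
        apply Finset.sum_le_sum
        intro O hO
        have := h0' O hO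
        split_ifs with h
        · omega
        · omega
      have h2 : ∑ O ∈ K.C.image (fun u => orb Z l u), (if t O + b O = 1 then 1 else 2) +
          ((K.C.image (fun u => orb Z l u)).filter fun O => t O + b O = 1).card =
          2 * (K.C.image fun u => orb Z l u).card := by
        rw [Finset.card_filter, ← Finset.sum_add_distrib]
        have : ∀ O ∈ K.C.image (fun u => orb Z l u),
            ((if t O + b O = 1 then 1 else 2) + (if t O + b O = 1 then 1 else 0)) = 2 := by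
          intro O _
          split_ifs <;> rfl
        rw [Finset.sum_congr rfl this, Finset.sum_const, smul_eq_mul, mul_comm]
      omega
    obtain ⟨O₁, hO₁, O₂, hO₂, hne12⟩ := Finset.one_lt_card.mp hcard
    rw [Finset.mem_filter] at hO₁ hO₂
    obtain ⟨u₁, hu₁, rfl⟩ := Finset.mem_image.mp hO₁.1
    obtain ⟨u₂, hu₂, rfl⟩ := Finset.mem_image.mp hO₂.1
    have key : ∀ u ∈ K.C, t (orb Z l u) + b (orb Z l u) = 1 →
        ∃ k₁ : ℤ, ∀ t : ℕ, t ≤ ((orb Z l u).card - 1) * Z.n → Sing K u (k₁ + t) := by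
      intro u hu h1
      rcases Nat.eq_zero_or_pos (t (orb Z l u)) with hz | hz
      · have hbb : b (orb Z l u) = 1 := by omega
        obtain ⟨k₀, hk₀⟩ := (harc2 u hu).2 hbb
        exact ⟨k₀, fun t ht => sing_GOOD K η u _ ((harc1 u hu).1 hz _) (hk₀ t ht)⟩
      · have htt : t (orb Z l u) = 1 := by omega
        have hbb : b (orb Z l u) = 0 := by omega
        obtain ⟨k₀, hk₀⟩ := (harc1 u hu).2 htt
        exact ⟨k₀, fun t ht => sing_GOOD K η u _ (hk₀ t ht) ((harc2 u hu).1 hbb _)⟩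
    refine ⟨u₁, hu₁, u₂, hu₂, ?_, key u₁ hu₁ hO₁.2, key u₂ hu₂ hO₂.2⟩
    intro q hq
    apply hne12
    have : u₂ ∈ orb Z l u₁ := (mem_orb_GOOD K hl hu₁ u₂).mpr ⟨q, hq.symm⟩
    exact ((orb_eq_iff_GOOD K hl hu₁ hu₂).mp this).symm

end GOOD

end Pool.Agent.Helper96.UT
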