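import Pool.Agent.Helper96.UT.StI

/-!
Right units of the inverse monoid `Inv⟨A | r = 1⟩`.
-/

set_option autoImplicit false

namespace Pool.Agent.Helper96.UT

variable {α : Type}

theorem one_IM1 (r : FreeMonoid (α × Bool)) (w : List (α × Bool)) (h : RU (io r w)) :
    io r w * io r (FreeGroup.invRev w) = 1 := by
  obtain ⟨z, hz⟩ := h
  calc io r w * io r (FreeGroup.invRev w)
      = io r w * io r (FreeGroup.invRev w) * (io r w * z) := by rw [hz, mul_one]
    _ = (io r w * io r (FreeGroup.invRev w) * io r w) * z := by simp only [mul_assoc]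
    _ = 1 := by rw [io_inv, hz]

theorem two_IM1 (r : FreeMonoid (α × Bool)) (p q : List (α × Bool)) (h : RU (io r (p ++ q))) :
    io r p * io r (q ++ FreeGroup.invRev q) = io r p := by
  have h1 := one_IM1 r (p ++ q) h
  rw [invRev_append, io_append, io_append] at h1
  have h2 := io_comm r (FreeGroup.invRev p) q
  rw [FreeGroup.invRev_invRev] at h2
  have h3 := io_inv r p
  calc io r p * io r (q ++ FreeGroup.invRev q)
      = io r p * io r (FreeGroup.invRev p) * io r p * io r (q ++ FreeGroup.invRev q) := by rw [h3]
    _ = io r p * (io r (FreeGroup.invRev p ++ p) * io r (q ++ FreeGroup.invRev q)) := by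
        rw [io_append r (FreeGroup.invRev p) p]
        simp only [mul_assoc]
    _ = io r p * (io r (q ++ FreeGroup.invRev q) * io r (FreeGroup.invRev p ++ p)) := by rw [h2]
    _ = (io r p * io r q * (io r (FreeGroup.invRev q) * io r (FreeGroup.invRev p))) * io r p := by
        rw [io_append r (FreeGroup.invRev p) p, io_append r q (FreeGroup.invRev q)]
        simp only [mul_assoc]
    _ = io r p := by rw [h1, one_mul]

theorem step_IM1 (r : FreeMonoid (α × Bool)) {w v : List (α × Bool)}
    (hs : FreeGroup.Red.Step w v) (h : RU (io r w)) : io r w = io r v := by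
  cases hs with
  | @not p q x b =>
    obtain ⟨z, hz⟩ := h
    have h1 : RU (io r (p ++ [(x, b)])) := by
      refine ⟨io r ((x, !b) :: q) * z, ?_⟩
      rw [← mul_assoc, ← io_append, List.append_assoc, List.singleton_append]
      exact hz
    have h2 := two_IM1 r p [(x, b)] h1
    have e : p ++ (x, b) :: (x, !b) :: q = p ++ (([(x, b)] ++ FreeGroup.invRev [(x, b)]) ++ q) := by
      simp [FreeGroup.invRev]
    rw [e, io_append, io_append, ← mul_assoc, h2, ← io_append]

theorem red_IM1 (r : FreeMonoid (α × Bool)) {w v : List (α × Bool)}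
    (hs : FreeGroup.Red w v) (h : RU (io r w)) : io r w = io r v := by
  induction hs with
  | refl => rfl
  | tail _ h2 ih =>
    rw [ih]
    exact step_IM1 r h2 (ih ▸ h)

/-- Right units. -/
theorem tIM1 : StIM1 := by
  intro α r
  refine ⟨one_IM1 r, two_IM1 r, ?_⟩
  intro w w' hw hw' he
  obtain ⟨v, h1, h2⟩ := FreeGroup.Red.exact.1 he
  rw [red_IM1 r h1 hw, red_IM1 r h2 hw']

end Pool.Agent.Helper96.UT
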