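import Pool.Agent.Helper96.UT.StI

/-!
Project UT (MP_2c90c1_al), module IM2: right units and units of `Inv⟨A | r = 1⟩` are products of
prefixes of `r`.
-/

set_option autoImplicit false

namespace Pool.Agent.Helper96.UT

variable {α : Type}

/-- The submonoid generated by the prefixes. -/
def RR_IM2 (r : FreeMonoid (α × Bool)) : Submonoid (IM r) :=
  Submonoid.closure {y : IM r | ∃ j : ℕ, y = io r ((FreeMonoid.toList r).take j)}

theorem RU_mul_IM2 {r : FreeMonoid (α × Bool)} {x y : IM r} (hx : RU x) (hy : RU y) :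
    RU (x * y) := by
  obtain ⟨z, hz⟩ := hx
  obtain ⟨t, ht⟩ := hy
  refine ⟨t * z, ?_⟩
  rw [mul_assoc, ← mul_assoc y t z, ht, one_mul, hz]

theorem RU_take_IM2 (r : FreeMonoid (α × Bool)) (j : ℕ) :
    RU (io r ((FreeMonoid.toList r).take j)) := by
  refine ⟨io r ((FreeMonoid.toList r).drop j), ?_⟩
  rw [← io_append, List.take_append_drop]
  exact io_r r

theorem RU_of_mem_IM2 {r : FreeMonoid (α × Bool)} {x : IM r} (hx : x ∈ RR_IM2 r) : RU x := by
  unfold RR_IM2 at hx
  induction hx using Submonoid.closure_induction with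
  | mem x hx =>
    obtain ⟨j, rfl⟩ := hx
    exact RU_take_IM2 r j
  | one => exact ⟨1, mul_one 1⟩
  | mul x y _ _ hx hy => exact RU_mul_IM2 hx hy

/-- All prefixes of `w` lead from `x` to products of prefixes of `r`. -/
def D_IM2 (r : FreeMonoid (α × Bool)) (x : IM r) (w : List (α × Bool)) : Prop :=
  ∀ p q : List (α × Bool), w = p ++ q → x * io r p ∈ RR_IM2 r

theorem D_nil_IM2 (r : FreeMonoid (α × Bool)) (x : IM r) : D_IM2 r x [] ↔ x ∈ RR_IM2 r := by
  constructor
  · intro h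
    have := h [] [] rfl
    rwa [io_nil, mul_one] at this
  · intro h p q hpq
    have h1 : p = [] := (List.append_eq_nil_iff.1 hpq.symm).1
    rw [h1, io_nil, mul_one]
    exact h

theorem D_start_IM2 {r : FreeMonoid (α × Bool)} {x : IM r} {w : List (α × Bool)}
    (h : D_IM2 r x w) : x ∈ RR_IM2 r := by
  have := h [] w rfl
  rwa [io_nil, mul_one] at this

theorem D_append_IM2 (r : FreeMonoid (α × Bool)) (x : IM r) (u v : List (α × Bool)) :
    D_IM2 r x (u ++ v) ↔ D_IM2 r x u ∧ D_IM2 r (x * io r u) v := by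
  constructor
  · intro h
    refine ⟨fun p q hpq => ?_, fun p q hpq => ?_⟩
    · exact h p (q ++ v) (by rw [hpq, List.append_assoc])
    · have := h (u ++ p) q (by rw [hpq, List.append_assoc])
      rwa [io_append, ← mul_assoc] at this
  · rintro ⟨h1, h2⟩ p q hpq
    rcases List.append_eq_append_iff.1 hpq with ⟨a', rfl, h3⟩ | ⟨c', h3, h4⟩
    · rw [io_append, ← mul_assoc]
      exact h2 a' q h3
    · exact h1 p c' h3

theorem key_IM2 (h1 : StIM1) {r : FreeMonoid (α × Bool)} {x : IM r} {w p q : List (α × Bool)}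
    (h : D_IM2 r x w) (hw : w = p ++ q) :
    x * io r w * io r (FreeGroup.invRev q) = x * io r p := by
  obtain ⟨v, rfl⟩ := io_surj r x
  have h2 : RU (io r ((v ++ p) ++ q)) := by
    have h3 := RU_of_mem_IM2 (h w [] (by simp))
    rwa [hw, ← io_append, ← List.append_assoc] at h3
  have h4 := (h1 α r).2.1 (v ++ p) q h2
  rw [hw]
  simp only [io_append, mul_assoc] at h4 ⊢
  exact h4

theorem K_IM2 (h1 : StIM1) {r : FreeMonoid (α × Bool)} {x : IM r} {w : List (α × Bool)}
    (h : D_IM2 r x w) : D_IM2 r (x * io r w) (FreeGroup.invRev w) ∧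
      x * io r w * io r (FreeGroup.invRev w) = x := by
  constructor
  · intro p1 q1 hp
    have hw : w = FreeGroup.invRev q1 ++ FreeGroup.invRev p1 := by
      rw [← invRev_append, ← hp, FreeGroup.invRev_invRev]
    have h2 := key_IM2 h1 h hw
    rw [FreeGroup.invRev_invRev] at h2
    rw [h2]
    exact h _ _ hw
  · have h2 := key_IM2 h1 h (List.nil_append w).symm
    rwa [io_nil, mul_one] at h2

theorem K2_IM2 (h1 : StIM1) (r : FreeMonoid (α × Bool)) (x : IM r) (w : List (α × Bool)) :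
    D_IM2 r x (w ++ FreeGroup.invRev w) ↔ D_IM2 r x w := by
  rw [D_append_IM2]
  exact ⟨fun h => h.1, fun h => ⟨h, (K_IM2 h1 h).1⟩⟩

theorem K3_IM2 (h1 : StIM1) (r : FreeMonoid (α × Bool)) (x : IM r) (u w : List (α × Bool)) :
    D_IM2 r x ((u ++ FreeGroup.invRev u) ++ w) ↔ D_IM2 r x u ∧ D_IM2 r x w := by
  rw [D_append_IM2, K2_IM2 h1]
  constructor
  · rintro ⟨h2, h3⟩
    refine ⟨h2, ?_⟩
    rwa [io_append, ← mul_assoc, (K_IM2 h1 h2).2] at h3
  · rintro ⟨h2, h3⟩
    refine ⟨h2, ?_⟩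
    rwa [io_append, ← mul_assoc, (K_IM2 h1 h2).2]

/-- The congruence of the proof. -/
def con_IM2 (r : FreeMonoid (α × Bool)) : Con (FreeMonoid (α × Bool)) where
  r u v := io r (FreeMonoid.toList u) = io r (FreeMonoid.toList v) ∧
    ∀ x, D_IM2 r x (FreeMonoid.toList u) ↔ D_IM2 r x (FreeMonoid.toList v)
  iseqv := ⟨fun u => ⟨rfl, fun _ => Iff.rfl⟩, fun h => ⟨h.1.symm, fun x => (h.2 x).symm⟩,
    fun h h' => ⟨h.1.trans h'.1, fun x => (h.2 x).trans (h'.2 x)⟩⟩
  mul' := by
    intro u v u' v' h h'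
    refine ⟨?_, fun x => ?_⟩
    · rw [FreeMonoid.toList_mul, FreeMonoid.toList_mul, io_append, io_append, h.1, h'.1]
    · rw [FreeMonoid.toList_mul, FreeMonoid.toList_mul, D_append_IM2, D_append_IM2, h.1, h.2,
        h'.2]

theorem con_le_IM2 (h1 : StIM1) (r : FreeMonoid (α × Bool)) : conGen (Rel r) ≤ con_IM2 r := by
  refine Con.conGen_le.2 ?_
  rintro u v (⟨w, rfl, rfl⟩ | ⟨u, w, rfl, rfl⟩ | ⟨rfl, rfl⟩)
  · rw [invRev_eq]
    refine ⟨?_, fun x => ?_⟩
    · rw [FreeMonoid.toList_mul, FreeMonoid.toList_mul, FreeMonoid.toList_ofList, io_append,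
        io_append]
      exact io_inv r _
    · rw [FreeMonoid.toList_mul, FreeMonoid.toList_mul, FreeMonoid.toList_ofList, K3_IM2 h1]
      exact and_self_iff
  · rw [invRev_eq, invRev_eq]
    refine ⟨?_, fun x => ?_⟩
    · simp only [FreeMonoid.toList_mul, FreeMonoid.toList_ofList]
      rw [io_append, io_append r (FreeMonoid.toList w ++ _)]
      exact io_comm r _ _
    · simp only [FreeMonoid.toList_mul, FreeMonoid.toList_ofList]
      rw [K3_IM2 h1, K3_IM2 h1, K2_IM2 h1, K2_IM2 h1]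
      exact and_comm
  · refine ⟨io_r _, fun x => ?_⟩
    rw [FreeMonoid.toList_one, D_nil_IM2]
    constructor
    · exact D_start_IM2
    · intro hx p q hpq
      refine Submonoid.mul_mem _ hx (Submonoid.subset_closure ⟨p.length, ?_⟩)
      rw [hpq, List.take_left]

theorem first_IM2 (h1 : StIM1) (r : FreeMonoid (α × Bool)) (w : List (α × Bool))
    (hw : RU (io r w)) : io r w ∈ RR_IM2 r := by
  have h2 := (h1 α r).1 w hw
  rw [← io_append, ← io_nil r] at h2
  have h3 : conGen (Rel r) (FreeMonoid.ofList (w ++ FreeGroup.invRev w))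
      (FreeMonoid.ofList []) := (Con.eq _).1 h2
  have h4 := (con_le_IM2 h1 r h3).2 1
  rw [FreeMonoid.toList_ofList, FreeMonoid.toList_ofList] at h4
  have h5 := h4.2 ((D_nil_IM2 r 1).2 (Submonoid.one_mem _))
  have h6 := h5 w _ rfl
  rwa [one_mul] at h6

theorem second_IM2 (r : FreeMonoid (α × Bool)) {y : IM r} (hy : y ∈ RR_IM2 r) (hu : IsUnit y) :
    y ∈ Submonoid.closure {y : IM r | IsUnit y ∧ ∃ j : ℕ,
      y = io r ((FreeMonoid.toList r).take j)} := by
  revert hu
  unfold RR_IM2 at hy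
  induction hy using Submonoid.closure_induction_right with
  | one => exact fun _ => Submonoid.one_mem _
  | mul_right y' hy' x hx ih =>
    intro hu
    obtain ⟨j, rfl⟩ := hx
    obtain ⟨t, ht⟩ := RU_take_IM2 r j
    obtain ⟨z, hz⟩ := hu.exists_left_inv
    have hx : IsUnit (io r ((FreeMonoid.toList r).take j)) := by
      have h3 : (z * y') * io r ((FreeMonoid.toList r).take j) = 1 := by rw [mul_assoc, hz]
      have h4 : t = z * y' := (left_inv_eq_right_inv h3 ht).symm
      exact ⟨⟨_, t, ht, by rw [h4]; exact h3⟩, rfl⟩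
    have hy : IsUnit y' := by
      obtain ⟨a, ha⟩ := hu
      obtain ⟨b, hb⟩ := hx
      refine ⟨a * b⁻¹, ?_⟩
      rw [Units.val_mul, ha, ← hb, mul_assoc, Units.mul_inv, mul_one]
    exact Submonoid.mul_mem _ (ih hy) (Submonoid.subset_closure ⟨hx, j, rfl⟩)

theorem tIM2 : StIM1 → StIM2 := by
  intro h1 α r
  refine ⟨fun w hw => first_IM2 h1 r w hw, fun y hy => ?_⟩
  obtain ⟨w, rfl⟩ := io_surj r y
  refine second_IM2 r (first_IM2 h1 r w ?_) hy
  obtain ⟨z, hz⟩ := hy.exists_right_inv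
  exact ⟨z, hz⟩

end Pool.Agent.Helper96.UT
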