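import Pool.Agent.Helper96.UT.StC

/-!
Project UT (MP_2c90c1_al), module LIN: the Euler characteristic inequality.
-/

set_option autoImplicit false

namespace Pool.Agent.Helper96.UT

variable {α : Type} {Z : Cyc α} {l : ℕ} {Ω : Type} [MulAction (FreeGroup α) Ω]

/-- Joined by a path in `E`. -/
private def Jn (E : Set (Ω × α)) (v v' : Ω) : Prop :=
  ∃ w : List (α × Bool), InE E v w ∧ act v (FreeGroup.mk w) = v'

private def jnSetoid (E : Set (Ω × α)) : Setoid Ω where
  r := Jn E
  iseqv :=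
    { refl := fun v => ⟨[], trivial, by simp [mk_nil]⟩
      symm := by
        rintro v v' ⟨w, h1, h2⟩
        refine ⟨FreeGroup.invRev w, ?_, ?_⟩
        · rw [← h2]
          exact InE_invRev h1
        · rw [mk_invRev]
          exact act_inv_eq h2
      trans := by
        rintro v v' v'' ⟨w, h1, h2⟩ ⟨w', h3, h4⟩
        refine ⟨w ++ w', ?_, ?_⟩
        · rw [InE_append, h2]
          exact ⟨h1, h3⟩
        · rw [mk_append, act_mul, h2, h4] }

/-- A cochain with vanishing sums along closed paths in `E` is a coboundary on `E`. -/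
private theorem potential (E : Set (Ω × α)) (φ : Ω × α → ℚ)
    (h : ∀ (v : Ω) (w : List (α × Bool)), InE E v w → act v (FreeGroup.mk w) = v →
      Sm φ v w = 0) :
    ∃ f : Ω → ℚ, ∀ (x : Ω) (a : α), (x, a) ∈ E → φ (x, a) = f (act x (lt (a, true))) - f x := by
  classical
  let S := jnSetoid E
  let r : Ω → Ω := fun v => (Quotient.mk S v).out
  have hr : ∀ v, Jn E (r v) v := fun v => Quotient.mk_out (s := S) v
  choose p hp1 hp2 using hr
  refine ⟨fun v => Sm φ (r v) (p v), fun x a hx => ?_⟩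
  have e1 : ed x (a, true) = (x, a) := by simp [ed]
  have hr2 : r (act x (lt (a, true))) = r x := by
    change (Quotient.mk S (act x (lt (a, true)))).out = (Quotient.mk S x).out
    congr 1
    refine Quotient.sound ?_
    refine S.symm ?_
    exact ⟨[(a, true)], ⟨by rw [e1]; exact hx, trivial⟩, rfl⟩
  set y := act x (lt (a, true)) with hy
  have hc := h (r x) (p x ++ [(a, true)] ++ FreeGroup.invRev (p y)) (by
    rw [InE_append, InE_append, hp2 x]
    refine ⟨⟨hp1 x, ⟨by rw [e1]; exact hx, trivial⟩⟩, ?_⟩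
    rw [mk_append, act_mul, hp2 x]
    have : act x (FreeGroup.mk [(a, true)]) = y := rfl
    rw [this]
    have h3 := InE_invRev (hp1 y)
    rw [hp2 y] at h3
    exact h3) (by
    rw [mk_append, mk_append, act_mul, act_mul, hp2 x]
    have : act x (FreeGroup.mk [(a, true)]) = y := rfl
    rw [this, mk_invRev]
    have h3 := act_inv_eq (hp2 y)
    rw [h3, hr2])
  rw [Sm_append, Sm_append, mk_append, act_mul, hp2 x] at hc
  have h4 : act x (FreeGroup.mk [(a, true)]) = y := rfl
  rw [h4] at hc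
  have h5 := Sm_invRev φ (r y) (p y)
  rw [hp2 y] at h5
  rw [h5, hr2] at hc
  simp only [Sm, if_true, e1, add_zero] at hc
  change φ (x, a) = Sm φ (r y) (p y) - Sm φ (r x) (p x)
  rw [hr2]
  linarith

/-- The boundary sum does not depend on the base point in the orbit. -/
private theorem Sm_rot {Q : Type} [AddCommGroup Q] (K : Cx Z l Ω) (φ : Ω × α → Q) {u : Ω}
    (hu : u ∈ K.C) : Sm φ (act u Z.s) (seg Z.c 0 (l * Z.n)) = Sm φ u (seg Z.c 0 (l * Z.n)) := by
  have hseg : ∀ (q : ℤ) (k : ℕ), seg Z.c (q * Z.n) k = seg Z.c 0 k := by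
    intro q k
    unfold seg
    congr 1
    funext j
    have := Z.per_mul (0 + (j : ℤ)) q
    rw [← this]
    congr 1
    ring
  have hmk : FreeGroup.mk (seg Z.c 0 Z.n) = Z.s := by
    rw [mk_seg, pre_zero, zero_add]
    simp [Cyc.s]
  have hmk2 : FreeGroup.mk (seg Z.c 0 (l * Z.n)) = Z.s ^ l := by
    rw [mk_seg, pre_zero, zero_add]
    have := Z.pre_add_mul 0 l
    rw [zero_add, pre_zero] at this
    simp only [inv_one, one_mul, mul_one] at this ⊢
    rw [zpow_natCast] at this
    rw [← this]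
    congr 1
  have e1 : seg Z.c 0 (Z.n + l * Z.n) = seg Z.c 0 Z.n ++ seg Z.c 0 (l * Z.n) := by
    rw [seg_add]
    congr 1
    have := hseg 1 (l * Z.n)
    rw [one_mul] at this
    rw [zero_add, this]
  have e2 : seg Z.c 0 (Z.n + l * Z.n) = seg Z.c 0 (l * Z.n) ++ seg Z.c 0 Z.n := by
    rw [add_comm, seg_add]
    congr 1
    have := hseg l Z.n
    rw [← this]
    congr 1
    push_cast
    ring
  have h1 := Sm_append φ u (seg Z.c 0 Z.n) (seg Z.c 0 (l * Z.n))
  have h2 := Sm_append φ u (seg Z.c 0 (l * Z.n)) (seg Z.c 0 Z.n)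
  rw [← e1, hmk] at h1
  rw [← e2, hmk2, K.fix u hu] at h2
  rw [h1, add_comm] at h2
  exact add_right_cancel h2

private theorem Sm_rot_pow {Q : Type} [AddCommGroup Q] (K : Cx Z l Ω) (φ : Ω × α → Q) {u : Ω}
    (hu : u ∈ K.C) (q : ℕ) :
    Sm φ (act u (Z.s ^ q)) (seg Z.c 0 (l * Z.n)) = Sm φ u (seg Z.c 0 (l * Z.n)) := by
  induction q with
  | zero => simp
  | succ q ih =>
    rw [pow_succ, act_mul, Sm_rot K φ (K.cell_pow hu q), ih]

private theorem mem_VC (hl : 1 ≤ l) (K : Cx Z l Ω) {u : Ω} (hu : u ∈ K.C) (k : ℤ) :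
    act u (pre Z.c k) ∈ VC K := by
  classical
  have hn : (0 : ℤ) < Z.n := by exact_mod_cast Z.pos
  obtain ⟨r, hr⟩ : ∃ r : ℕ, (r : ℤ) = k % Z.n :=
    ⟨(k % Z.n).toNat, Int.toNat_of_nonneg (Int.emod_nonneg _ hn.ne')⟩
  have hlt : (r : ℤ) < Z.n := by rw [hr]; exact Int.emod_lt_of_pos _ hn
  have e : k = (r : ℤ) + (k / Z.n) * Z.n := by
    rw [hr, mul_comm]
    exact (Int.emod_add_mul_ediv k Z.n).symm
  rw [e, act_pre_add]
  unfold VC
  rw [Finset.mem_image]
  refine ⟨(act u (Z.s ^ (k / Z.n : ℤ)), r), ?_, rfl⟩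
  rw [Finset.mem_product]
  exact ⟨K.cell_zpow hl hu _, Finset.mem_range.2 (by exact_mod_cast hlt)⟩

private theorem ends_EC (hl : 1 ≤ l) (K : Cx Z l Ω) {e : Ω × α} (he : e ∈ EC K) :
    e.1 ∈ VC K ∧ act e.1 (lt (e.2, true)) ∈ VC K ∧ e ∈ K.E := by
  classical
  unfold EC at he
  rw [Finset.mem_image] at he
  obtain ⟨⟨u, i⟩, hp, rfl⟩ := he
  rw [Finset.mem_product] at hp
  have hu : u ∈ K.C := hp.1
  refine ⟨?_, ?_, K.sub u hu i⟩
  · unfold ed
    split
    · exact mem_VC hl K hu _
    · simp only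
      rw [act_pre_succ]
      exact mem_VC hl K hu _
  · unfold ed
    split
    · rename_i h
      simp only at h ⊢
      have : ((Z.c i).1, true) = Z.c i := by rw [← h]
      rw [this, act_pre_succ]
      exact mem_VC hl K hu _
    · rename_i h
      simp only at h ⊢
      have : ((Z.c i).1, true) = bar (Z.c i) := by
        simp only [bar]
        rw [Bool.not_eq_true] at h
        rw [h]
        rfl
      rw [this, lt_bar, ← act_mul, mul_inv_cancel, act_one]
      exact mem_VC hl K hu _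

/-- Extension by zero. -/
private noncomputable def ext0 {T : Type} (s : Finset T) (f : s → ℚ) (x : T) : ℚ :=
  open scoped Classical in if h : x ∈ s then f ⟨x, h⟩ else 0

private theorem ext0_add {T : Type} (s : Finset T) (f g : s → ℚ) :
    ext0 s (f + g) = fun x => ext0 s f x + ext0 s g x := by
  funext x
  unfold ext0
  by_cases h : x ∈ s
  · simp [h]
  · simp [h]

private theorem ext0_mem {T : Type} (s : Finset T) (f : s → ℚ) (x : T) (h : x ∈ s) :
    ext0 s f x = f ⟨x, h⟩ := by
  simp [ext0, h]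

private theorem ext0_zero {T : Type} (s : Finset T) : ext0 s (0 : s → ℚ) = fun _ => 0 := by
  funext x
  unfold ext0
  by_cases h : x ∈ s
  · simp [h]
  · simp [h]

private theorem Sm_zero (v : Ω) (w : List (α × Bool)) :
    Sm (fun _ : Ω × α => (0 : ℚ)) v w = 0 := by
  induction w generalizing v with
  | nil => rfl
  | cons x w ih =>
    simp only [Sm, ih]
    split <;> simp

theorem tLIN : StLIN := by
  classical
  intro α Z l hl Ω _ K hC
  obtain ⟨u₀, hu₀⟩ := hC
  -- the coboundary
  let δ : (VC K → ℚ) →+ (EC K → ℚ) :=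
    { toFun := fun f e => ext0 (VC K) f (act e.1.1 (lt (e.1.2, true))) - ext0 (VC K) f e.1.1
      map_zero' := by
        funext e
        simp [ext0_zero]
      map_add' := by
        intro f g
        funext e
        simp only [ext0_add, Pi.add_apply]
        ring }
  let D : (VC K → ℚ) →ₗ[ℚ] (EC K → ℚ) := δ.toRatLinearMap
  -- representatives of the orbits
  let N : Finset (Finset Ω) := K.C.image fun u => orb Z l u
  have hrep : ∀ o : N, ∃ u ∈ K.C, orb Z l u = o.1 := by
    intro o
    have := o.2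
    rw [Finset.mem_image] at this
    exact this
  choose rep hrepC hrepo using hrep
  let β : (EC K → ℚ) →+ (N → ℚ) :=
    { toFun := fun φ o => Sm (ext0 (EC K) φ) (rep o) (seg Z.c 0 (l * Z.n))
      map_zero' := by
        funext o
        rw [ext0_zero, Sm_zero]
        rfl
      map_add' := by
        intro φ ψ
        funext o
        rw [ext0_add, Sm_add]
        rfl }
  let B : (EC K → ℚ) →ₗ[ℚ] (N → ℚ) := β.toRatLinearMap
  have hBD : LinearMap.ker B ≤ LinearMap.range D := by
    intro φ hφ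
    have hφ' : ∀ o, Sm (ext0 (EC K) φ) (rep o) (seg Z.c 0 (l * Z.n)) = 0 := by
      intro o
      have := LinearMap.mem_ker.1 hφ
      exact congrFun this o
    have hall : ∀ u ∈ K.C, Sm (ext0 (EC K) φ) u (seg Z.c 0 (l * Z.n)) = 0 := by
      intro u hu
      let o : N := ⟨orb Z l u, Finset.mem_image_of_mem _ hu⟩
      have h1 : u ∈ orb Z l (rep o) := by
        rw [hrepo o]
        change u ∈ orb Z l u
        unfold orb
        rw [Finset.mem_image]
        exact ⟨0, Finset.mem_range.2 (by omega), by simp⟩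
      unfold orb at h1
      rw [Finset.mem_image] at h1
      obtain ⟨q, _, hq⟩ := h1
      rw [← hq, Sm_rot_pow K _ (hrepC o) q]
      exact hφ' o
    obtain ⟨f, hf⟩ := potential K.E (ext0 (EC K) φ) (K.sc ℚ _ hall)
    refine ⟨fun x => f x.1, ?_⟩
    funext e
    obtain ⟨h1, h2, h3⟩ := ends_EC hl K e.2
    change ext0 (VC K) (fun x => f x.1) (act e.1.1 (lt (e.1.2, true))) -
      ext0 (VC K) (fun x => f x.1) e.1.1 = φ e
    rw [ext0_mem _ _ _ h1, ext0_mem _ _ _ h2]
    have h4 := hf e.1.1 e.1.2 h3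
    have h5 : ext0 (EC K) φ (e.1.1, e.1.2) = φ e := ext0_mem _ _ _ e.2
    rw [← h5, h4]
  have hone : 1 ≤ Module.finrank ℚ (LinearMap.ker D) := by
    have hmem : (fun _ => (1 : ℚ)) ∈ LinearMap.ker D := by
      rw [LinearMap.mem_ker]
      funext e
      obtain ⟨h1, h2, -⟩ := ends_EC hl K e.2
      change ext0 (VC K) (fun _ => (1 : ℚ)) (act e.1.1 (lt (e.1.2, true))) -
        ext0 (VC K) (fun _ => (1 : ℚ)) e.1.1 = 0
      rw [ext0_mem _ _ _ h1, ext0_mem _ _ _ h2, sub_self]
    have hV : act u₀ (pre Z.c 0) ∈ VC K := mem_VC hl K hu₀ 0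
    refine Module.finrank_pos_iff_exists_ne_zero.2 ⟨⟨_, hmem⟩, fun h => ?_⟩
    have h2 := congrArg Subtype.val h
    have h3 := congrFun h2 ⟨_, hV⟩
    exact one_ne_zero h3
  have h1 := LinearMap.finrank_range_add_finrank_ker B
  have h2 := LinearMap.finrank_range_add_finrank_ker D
  have h3 : Module.finrank ℚ (LinearMap.range B) ≤ Module.finrank ℚ (N → ℚ) :=
    Submodule.finrank_le _
  have h4 : Module.finrank ℚ (LinearMap.ker B) ≤ Module.finrank ℚ (LinearMap.range D) :=
    Submodule.finrank_mono hBD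
  simp only [Module.finrank_fintype_fun_eq_card, Fintype.card_coe] at h1 h2 h3
  have h5 : NC K = N.card := rfl
  rw [h5]
  omega

end Pool.Agent.Helper96.UT
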