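import Pool.Agent.Helper96.UT.StC

/-!
Project UT (MP_2c90c1_al), module PER: a cell with a single vertex has the period exactly `l`.
-/

set_option autoImplicit false

namespace Pool.Agent.Helper96.UT

/-- The sum of a `D`-periodic function over `m` periods. -/
private theorem sum_period_PER {Q : Type} [AddCommGroup Q] (f : ℕ → Q) (D : ℕ)
    (hf : ∀ t, f (D + t) = f t) (m : ℕ) :
    ∑ t ∈ Finset.range (m * D), f t = m • ∑ t ∈ Finset.range D, f t := by
  induction m with
  | zero => simp
  | succ m ih =>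
    rw [Nat.succ_mul, add_comm (m * D) D, Finset.sum_range_add, succ_nsmul, ← ih, add_comm]
    congr 1
    exact Finset.sum_congr rfl fun t _ => hf t

theorem tPER : StFREE → StPER := by
  classical
  intro hFREE α Z l hl Ω _ K u hu k hS
  -- the period `d` of `u`
  have hex : ∃ d : ℕ, 0 < d ∧ act u (Z.s ^ d) = u := ⟨l, hl, K.fix u hu⟩
  obtain ⟨hd, hdu⟩ := Nat.find_spec hex
  have hmin := fun {m : ℕ} (h : m < Nat.find hex) => Nat.find_min hex h
  generalize Nat.find hex = d at hd hdu hmin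
  have hdz : (0 : ℤ) < d := by exact_mod_cast hd
  have hmul : ∀ q : ℤ, act u (Z.s ^ ((d : ℤ) * q)) = u := by
    intro q
    rw [zpow_mul, zpow_natCast]
    induction q with
    | zero => simp
    | succ q ih => rw [zpow_add, act_mul, ih, zpow_one, hdu]
    | pred q ih =>
      rw [sub_eq_add_neg, zpow_add, act_mul, ih, zpow_neg_one]
      exact act_inv_eq hdu
  have hdvd : ∀ q : ℤ, act u (Z.s ^ q) = u → (d : ℤ) ∣ q := by
    intro q hq
    by_contra hn
    obtain ⟨r, hr⟩ : ∃ r : ℕ, (r : ℤ) = q % d := ⟨(q % d).toNat, Int.toNat_of_nonneg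
      (Int.emod_nonneg _ hdz.ne')⟩
    have hr0 : 0 < r := by
      rcases Nat.eq_zero_or_pos r with h | h
      · exfalso
        apply hn
        apply Int.dvd_of_emod_eq_zero
        rw [← hr, h]
        rfl
      · exact h
    have hrd : r < d := by
      have := Int.emod_lt_of_pos q hdz
      rw [← hr] at this
      exact_mod_cast this
    apply hmin hrd
    refine ⟨hr0, ?_⟩
    have e : q = (d : ℤ) * (q / d) + r := by rw [hr]; exact (Int.mul_ediv_add_emod q d).symm
    rw [e, zpow_add, act_mul, hmul, zpow_natCast] at hq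
    exact hq
  have hdl : d ∣ l := by
    have := hdvd (l : ℤ) (by rw [zpow_natCast]; exact K.fix u hu)
    exact_mod_cast this
  obtain ⟨m, hm⟩ := hdl
  have hnz : (0 : ℤ) < Z.n := by exact_mod_cast Z.pos
  -- the cochain
  obtain ⟨e₀, he₀⟩ : ∃ e₀ : Ω × α, e₀ = ed (act u (pre Z.c k)) (Z.c k) := ⟨_, rfl⟩
  obtain ⟨φ, hφ⟩ : ∃ φ : Ω × α → ZMod m, ∀ e, φ e = if e = e₀ then 1 else 0 := ⟨_, fun _ => rfl⟩
  have hφ0 : ∀ e, e ≠ e₀ → φ e = 0 := fun e he => by rw [hφ, if_neg he]
  have hφ1 : φ e₀ = 1 := by rw [hφ, if_pos rfl]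
  have hfree : ∀ u' ∈ K.C, ∀ k' : ℤ, ed (act u' (pre Z.c k')) (Z.c k') = e₀ →
      ∃ q : ℤ, k' = k + q * Z.n ∧ u = act u' (Z.s ^ q) := by
    intro u' hu' k' h
    exact hFREE α Z l Ω K u k hS u' hu' k' (by rw [h, he₀])
  -- the boundaries
  have hbd : ∀ u' ∈ K.C, Sm φ u' (seg Z.c 0 (l * Z.n)) = 0 := by
    intro u' hu'
    have h0 : act u' (pre Z.c 0) = u' := by rw [pre_zero, act_one]
    have hsm := Sm_seg Z.c φ u' 0 (l * Z.n)
    rw [h0] at hsm
    rw [hsm]
    by_cases horb : ∃ q : ℤ, u = act u' (Z.s ^ q)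
    · obtain ⟨q, hq⟩ := horb
      have hper : act u' (Z.s ^ (d : ℤ)) = u' := by
        have h1 : act u (Z.s ^ (d : ℤ)) = u := by rw [zpow_natCast]; exact hdu
        rw [hq, ← act_mul, ← zpow_add, add_comm, zpow_add, act_mul] at h1
        exact act_inj h1
      rw [hm, mul_comm d m, mul_assoc]
      rw [sum_period_PER (fun t : ℕ => if (Z.c (0 + (t : ℤ))).2 then
        φ (ed (act u' (pre Z.c (0 + (t : ℤ)))) (Z.c (0 + (t : ℤ))))
        else - φ (ed (act u' (pre Z.c (0 + (t : ℤ)))) (Z.c (0 + (t : ℤ))))) (d * Z.n) ?_ m]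
      · rw [nsmul_eq_mul, ZMod.natCast_self, zero_mul]
      · intro t
        have e : (0 : ℤ) + ((d * Z.n + t : ℕ) : ℤ) = (0 + (t : ℤ)) + (d : ℤ) * Z.n := by
          push_cast
          ring
        simp only [e, Z.per_mul, act_pre_add, hper]
    · apply Finset.sum_eq_zero
      intro t _
      have : φ (ed (act u' (pre Z.c (0 + (t : ℤ)))) (Z.c (0 + (t : ℤ)))) = 0 := by
        apply hφ0
        intro h
        obtain ⟨q, _, hq⟩ := hfree u' hu' _ h
        exact horb ⟨q, hq⟩
      rw [this]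
      simp
  have hcl := K.sc (ZMod m) φ hbd (act u (pre Z.c k)) (seg Z.c k (d * Z.n))
    ((InE_seg Z.c K.E u k (d * Z.n)).2 fun t _ => K.sub u hu _)
    (by
      rw [act_seg]
      have e : k + ((d * Z.n : ℕ) : ℤ) = k + (d : ℤ) * Z.n := by push_cast; ring
      rw [e, act_pre_add, zpow_natCast, hdu])
  rw [Sm_seg, Finset.sum_eq_single_of_mem 0 (Finset.mem_range.2 (Nat.mul_pos hd Z.pos))] at hcl
  · simp only [Nat.cast_zero, add_zero] at hcl
    rw [← he₀, hφ1] at hcl
    have h10 : (1 : ZMod m) = 0 := by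
      split_ifs at hcl
      · exact hcl
      · exact neg_eq_zero.1 hcl
    have hm1 : m = 1 := by
      have : ((1 : ℕ) : ZMod m) = 0 := by exact_mod_cast h10
      exact Nat.dvd_one.1 ((ZMod.natCast_eq_zero_iff 1 m).1 this)
    intro j hj
    have : l = d := by rw [hm, hm1, mul_one]
    rw [this]
    exact hdvd j hj
  · intro t ht ht0
    have : φ (ed (act u (pre Z.c (k + (t : ℤ)))) (Z.c (k + (t : ℤ)))) = 0 := by
      apply hφ0
      intro h
      obtain ⟨q, hq1, hq2⟩ := hfree u hu _ h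
      have htq : (t : ℤ) = q * Z.n := by linarith
      have htpos : (0 : ℤ) < t := by
        have := Nat.pos_of_ne_zero ht0
        exact_mod_cast this
      have hqpos : 0 < q := by
        by_contra hq
        push Not at hq
        nlinarith
      have htlt : (t : ℤ) < d * Z.n := by
        have := Finset.mem_range.1 ht
        exact_mod_cast this
      have hqd : q < d := by
        rw [htq] at htlt
        exact lt_of_mul_lt_mul_right htlt hnz.le
      have := Int.le_of_dvd hqpos (hdvd q hq2.symm)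
      linarith
    rw [this]
    simp

end Pool.Agent.Helper96.UT
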