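import Pool.Agent.Helper96.UT.StI

/-!
Project UT (MP_2c90c1_al), module PRES: the quotient of a free group by the normal closure of one
element.
-/

set_option autoImplicit false

namespace Pool.Agent.Helper96.UT

theorem tPRES : StPRES := by
  intro H _ p e U _ Ψ hsurj x k hker
  let f : FreeGroup (Fin p) →* U := Ψ.comp e.symm.toMonoidHom
  have hf : Function.Surjective f := hsurj.comp e.symm.surjective
  have hk : Subgroup.normalClosure ({(e x) ^ k} : Set (FreeGroup (Fin p))) = f.ker := by
    have h1 : f.ker = (Ψ.ker).map e.toMonoidHom := by
      ext y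
      constructor
      · intro hy
        refine ⟨e.symm y, ?_, ?_⟩
        · exact hy
        · exact e.apply_symm_apply y
      · rintro ⟨z, hz, rfl⟩
        have hz' : Ψ z = 1 := hz
        change Ψ (e.symm (e z)) = 1
        rw [e.symm_apply_apply]
        exact hz'
    rw [h1, hker, Subgroup.map_normalClosure _ _ (show Function.Surjective e.toMonoidHom from
      e.surjective), Set.image_singleton, map_pow]
    rfl
  have e1 : PresentedGroup ({(e x) ^ k} : Set (FreeGroup (Fin p))) ≃* FreeGroup (Fin p) ⧸ f.ker :=
    QuotientGroup.quotientMulEquivOfEq hk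
  exact ⟨((e1.trans (QuotientGroup.quotientKerEquivOfSurjective f hf))).symm⟩

end Pool.Agent.Helper96.UT
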