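import Pool.Agent.Helper96.UT.StI

/-!
Project UT (MP_2c90c1_al), module PSI: the map from `HU r` onto the group of units.
-/

set_option autoImplicit false

namespace Pool.Agent.Helper96.UT

private theorem ru_of_unit {α : Type} {r : FreeMonoid (α × Bool)} {y : IM r} (h : IsUnit y) :
    RU y := by
  obtain ⟨u, rfl⟩ := h
  exact ⟨((u⁻¹ : (IM r)ˣ) : IM r), u.mul_inv⟩

private theorem unit_invRev {α : Type} {r : FreeMonoid (α × Bool)}
    (a1 : ∀ w, RU (io r w) → io r w * io r (FreeGroup.invRev w) = 1) {w : List (α × Bool)}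
    (h : IsUnit (io r w)) : IsUnit (io r (FreeGroup.invRev w)) := by
  have e := a1 w (ru_of_unit h)
  obtain ⟨u, hu⟩ := h
  rw [← hu] at e
  have e2 : io r (FreeGroup.invRev w) = ((u⁻¹ : (IM r)ˣ) : IM r) := by
    rw [← u.inv_mul_cancel_left (io r (FreeGroup.invRev w)), e, mul_one]
  rw [e2]
  exact (u⁻¹).isUnit

/-- The image of a word in the one-relator group. -/
private theorem io_grp {α : Type} (r : FreeMonoid (α × Bool)) (w : List (α × Bool))
    (h : io r w = 1) : FreeGroup.mk w ∈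
      Subgroup.normalClosure ({FreeGroup.mk (FreeMonoid.toList r)} : Set (FreeGroup α)) := by
  set N := Subgroup.normalClosure ({FreeGroup.mk (FreeMonoid.toList r)} : Set (FreeGroup α))
    with hN
  let f0 : FreeMonoid (α × Bool) →* FreeGroup α :=
    { toFun := fun w => FreeGroup.mk (FreeMonoid.toList w)
      map_one' := rfl
      map_mul' := fun x y => by
        change FreeGroup.mk (FreeMonoid.toList x ++ FreeMonoid.toList y) = _
        rw [mk_append] }
  let f : FreeMonoid (α × Bool) →* FreeGroup α ⧸ N := (QuotientGroup.mk' N).comp f0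
  have hf0 : ∀ w : List (α × Bool), f0 (FreeMonoid.ofList w) = FreeGroup.mk w := fun w => rfl
  have hle : conGen (Rel r) ≤ Con.ker f := by
    refine Con.conGen_le.2 ?_
    rintro x y (⟨w, rfl, rfl⟩ | ⟨u, w, rfl, rfl⟩ | ⟨rfl, rfl⟩)
    · change f _ = f _
      rw [invRev_eq, map_mul, map_mul]
      have : f (FreeMonoid.ofList (FreeGroup.invRev (FreeMonoid.toList y))) = (f y)⁻¹ := by
        change QuotientGroup.mk' N (f0 _) = (QuotientGroup.mk' N (f0 _))⁻¹
        rw [hf0, mk_invRev, map_inv]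
        rfl
      rw [this, mul_inv_cancel, one_mul]
    · change f _ = f _
      have hi : ∀ v : FreeMonoid (α × Bool),
          f (FreeMonoid.ofList (FreeGroup.invRev (FreeMonoid.toList v))) = (f v)⁻¹ := by
        intro v
        change QuotientGroup.mk' N (f0 _) = (QuotientGroup.mk' N (f0 _))⁻¹
        rw [hf0, mk_invRev, map_inv]
        rfl
      rw [invRev_eq, invRev_eq]
      simp only [map_mul, hi, mul_inv_cancel]
    · change f _ = f _
      rw [map_one]
      change QuotientGroup.mk' N (FreeGroup.mk (FreeMonoid.toList x)) = 1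
      rw [QuotientGroup.mk'_apply, QuotientGroup.eq_one_iff]
      exact Subgroup.subset_normalClosure rfl
  have hrel : conGen (Rel r) (FreeMonoid.ofList w) (FreeMonoid.ofList []) := (Con.eq _).1 h
  have : f (FreeMonoid.ofList w) = f (FreeMonoid.ofList []) := hle hrel
  have e1 : f (FreeMonoid.ofList []) = 1 := map_one f
  rw [e1] at this
  change QuotientGroup.mk' N (FreeGroup.mk w) = 1 at this
  rwa [QuotientGroup.mk'_apply, QuotientGroup.eq_one_iff] at this

theorem tPSI (h1 : StIM1) (h2 : StIM2) : StPSI := by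
  intro α r
  obtain ⟨a1, -, a3⟩ := h1 α r
  obtain ⟨-, b2⟩ := h2 α r
  have hB : ∀ h ∈ HU r, ∃ w : List (α × Bool), FreeGroup.mk w = h ∧ IsUnit (io r w) := by
    intro h hh
    refine Subgroup.closure_induction
      (p := fun g _ => ∃ w : List (α × Bool), FreeGroup.mk w = g ∧ IsUnit (io r w))
      ?_ ?_ ?_ ?_ hh
    · rintro g ⟨j, hj, rfl⟩
      exact ⟨_, rfl, hj⟩
    · exact ⟨[], rfl, isUnit_one⟩
    · rintro x y - - ⟨w, rfl, hw⟩ ⟨w', rfl, hw'⟩
      exact ⟨w ++ w', mk_append _ _, by rw [io_append]; exact hw.mul hw'⟩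
    · rintro x - ⟨w, rfl, hw⟩
      exact ⟨FreeGroup.invRev w, mk_invRev _, unit_invRev a1 hw⟩
  have hB' : ∀ h : HU r, ∃ w : List (α × Bool), FreeGroup.mk w = (h : FreeGroup α) ∧
      IsUnit (io r w) := fun h => hB h.1 h.2
  choose f hf1 hf2 using hB'
  have key : ∀ (h : HU r) (w : List (α × Bool)), FreeGroup.mk w = (h : FreeGroup α) →
      IsUnit (io r w) → io r (f h) = io r w := by
    intro h w hw hu
    exact a3 _ _ (ru_of_unit (hf2 h)) (ru_of_unit hu) ((hf1 h).trans hw.symm)
  let Ψ : HU r →* (IM r)ˣ := MonoidHom.mk' (fun h => (hf2 h).unit) (by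
    intro g h
    apply Units.ext
    rw [Units.val_mul, IsUnit.unit_spec, IsUnit.unit_spec, IsUnit.unit_spec, ← io_append]
    refine key (g * h) _ ?_ ?_
    · rw [mk_append, hf1, hf1]
      rfl
    · rw [io_append]
      exact (hf2 g).mul (hf2 h))
  have hΨ : ∀ h, ((Ψ h : (IM r)ˣ) : IM r) = io r (f h) := fun h => IsUnit.unit_spec (hf2 h)
  refine ⟨Ψ, ?_, ?_, fun h => ⟨f h, hf1 h, hf2 h⟩, ?_⟩
  · intro y
    have hmem := b2 (y : IM r) y.isUnit
    have hex : ∃ (h : HU r) (w : List (α × Bool)), FreeGroup.mk w = (h : FreeGroup α) ∧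
        io r w = (y : IM r) ∧ IsUnit (io r w) := by
      refine Submonoid.closure_induction
        (motive := fun (z : IM r) _ => ∃ (h : HU r) (w : List (α × Bool)),
          FreeGroup.mk w = (h : FreeGroup α) ∧ io r w = z ∧ IsUnit (io r w)) ?_ ?_ ?_ hmem
      · rintro z ⟨hz, j, rfl⟩
        exact ⟨⟨_, Subgroup.subset_closure ⟨j, hz, rfl⟩⟩, _, rfl, rfl, hz⟩
      · exact ⟨1, [], rfl, rfl, isUnit_one⟩
      · rintro z z' - - ⟨h, w, hw, rfl, hu⟩ ⟨h', w', hw', rfl, hu'⟩
        refine ⟨h * h', w ++ w', ?_, io_append _ _ _, ?_⟩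
        · rw [mk_append, hw, hw']
          rfl
        · rw [io_append]
          exact hu.mul hu'
    obtain ⟨h, w, hw, hwy, hu⟩ := hex
    refine ⟨h, Units.ext ?_⟩
    rw [hΨ, key h w hw hu, hwy]
  · intro h w hw hu
    rw [hΨ, key h w hw hu]
  · intro h hh
    have e : io r (f h) = 1 := by
      rw [← hΨ, hh]
      rfl
    rw [← hf1 h]
    exact io_grp r (f h) e

end Pool.Agent.Helper96.UT
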