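import Pool.Agent.Helper96.UT.StC

set_option autoImplicit false

namespace Pool.Agent.Helper96.UT

section REM

variable {α : Type} {Z : Cyc α} {l : ℕ} {Ω : Type} [MulAction (FreeGroup α) Ω]
  {Q : Type} [AddCommGroup Q]

private theorem seg_per_REM (Z : Cyc α) (q : ℤ) (m : ℕ) :
    seg Z.c (0 + q * Z.n) m = seg Z.c 0 m := by
  unfold seg
  congr 1
  funext j
  have e : (0 : ℤ) + q * Z.n + j = (0 + j) + q * Z.n := by ring
  rw [e, Z.per_mul]

private theorem rot1_REM (K : Cx Z l Ω) (ψ : Ω × α → Q) {v : Ω} (hv : v ∈ K.C) :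
    Sm ψ (act v Z.s) (seg Z.c 0 (l * Z.n)) = Sm ψ v (seg Z.c 0 (l * Z.n)) := by
  have e1 := seg_add Z.c 0 Z.n (l * Z.n)
  have e2 := seg_add Z.c 0 (l * Z.n) Z.n
  have h1 : seg Z.c (0 + (Z.n : ℤ)) (l * Z.n) = seg Z.c 0 (l * Z.n) := by
    have := seg_per_REM Z 1 (l * Z.n)
    rwa [one_mul] at this
  have h2 : seg Z.c (0 + ((l * Z.n : ℕ) : ℤ)) Z.n = seg Z.c 0 Z.n := by
    have := seg_per_REM Z l Z.n
    rwa [Nat.cast_mul]
  rw [h1] at e1
  rw [h2] at e2
  rw [add_comm (l * Z.n) Z.n, e1] at e2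
  have h3 := congrArg (Sm ψ v) e2
  rw [Sm_append, Sm_append] at h3
  have a1 : act v (FreeGroup.mk (seg Z.c 0 Z.n)) = act v Z.s := by
    rw [mk_seg, pre_zero, inv_one, one_mul, zero_add]
    rfl
  have a2 : act v (FreeGroup.mk (seg Z.c 0 (l * Z.n))) = v := by
    rw [mk_seg, pre_zero, inv_one, one_mul, Nat.cast_mul, Z.pre_add_mul, pre_zero, mul_one,
      zpow_natCast]
    exact K.fix v hv
  rw [a1, a2, add_comm] at h3
  exact add_right_cancel h3

private theorem rot_REM (K : Cx Z l Ω) (hl : 1 ≤ l) (ψ : Ω × α → Q) {u : Ω} (hu : u ∈ K.C)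
    (q : ℤ) :
    Sm ψ (act u (Z.s ^ q)) (seg Z.c 0 (l * Z.n)) = Sm ψ u (seg Z.c 0 (l * Z.n)) := by
  induction q with
  | zero => simp
  | succ q ih =>
    rw [zpow_add_one, act_mul, rot1_REM K ψ (K.cell_zpow hl hu _), ih]
  | pred q ih =>
    rw [← ih]
    have e : Z.s ^ (-(q : ℤ)) = Z.s ^ (-(q : ℤ) - 1) * Z.s := by
      rw [← zpow_add_one]
      congr 1
      ring
    rw [e, act_mul, rot1_REM K ψ (K.cell_zpow hl hu _)]

open scoped Classical in
private theorem single_REM (K : Cx Z l Ω) (hl : 1 ≤ l) {u : Ω} (hu : u ∈ K.C) (k : ℤ)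
    (hF : ∀ k' : ℤ, ed (act u (pre Z.c k')) (Z.c k') = ed (act u (pre Z.c k)) (Z.c k) →
      ∃ q : ℤ, k' = k + q * ((l : ℤ) * Z.n)) (y : Q) :
    Sm (fun e => if e = ed (act u (pre Z.c k)) (Z.c k) then y else 0) u (seg Z.c 0 (l * Z.n)) =
      if (Z.c k).2 then y else - y := by
  have hpos : (0 : ℤ) < (l : ℤ) * Z.n := by
    have h1 : (0 : ℤ) < l := by exact_mod_cast hl
    have h2 : (0 : ℤ) < Z.n := by exact_mod_cast Z.pos
    exact mul_pos h1 h2
  have h0 := Sm_seg Z.c (fun e => if e = ed (act u (pre Z.c k)) (Z.c k) then y else 0) u 0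
    (l * Z.n)
  rw [pre_zero, act_one] at h0
  rw [h0]
  have hm0 : 0 ≤ k % ((l : ℤ) * Z.n) := Int.emod_nonneg _ hpos.ne'
  have hm1 : k % ((l : ℤ) * Z.n) < (l : ℤ) * Z.n := Int.emod_lt_of_pos _ hpos
  obtain ⟨r, hr⟩ : ∃ r : ℕ, (r : ℤ) = k % ((l : ℤ) * Z.n) := ⟨_, Int.toNat_of_nonneg hm0⟩
  have hrk : (0 : ℤ) + r = k + (-(k / ((l : ℤ) * Z.n))) * ((l : ℤ) * Z.n) := by
    rw [hr, zero_add, Int.emod_def]
    ring
  have hrlt : r < l * Z.n := by
    have : (r : ℤ) < (l * Z.n : ℕ) := by rw [hr, Nat.cast_mul]; exact hm1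
    exact_mod_cast this
  rw [Finset.sum_eq_single r]
  · have e1 : Z.c (0 + (r : ℤ)) = Z.c k := by
      rw [hrk]
      have : k + (-(k / ((l : ℤ) * Z.n))) * ((l : ℤ) * Z.n) =
        k + ((-(k / ((l : ℤ) * Z.n))) * l) * Z.n := by ring
      rw [this, Z.per_mul]
    have e2 : act u (pre Z.c (0 + (r : ℤ))) = act u (pre Z.c k) := by
      rw [hrk, K.act_pre_period hu]
    rw [e1, e2]
    simp
  · intro t ht hne
    have : ¬ ed (act u (pre Z.c (0 + (t : ℤ)))) (Z.c (0 + (t : ℤ))) =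
        ed (act u (pre Z.c k)) (Z.c k) := by
      intro he
      obtain ⟨q, hq⟩ := hF _ he
      apply hne
      have ht' : (t : ℤ) < (l : ℤ) * Z.n := by
        have := Finset.mem_range.1 ht
        exact_mod_cast this
      have h1 : (t : ℤ) = k % ((l : ℤ) * Z.n) := by
        have h2 : ((t : ℤ)) % ((l : ℤ) * Z.n) = k % ((l : ℤ) * Z.n) := by
          rw [zero_add] at hq
          rw [hq, Int.add_mul_emod_self_right]
        rw [← h2, Int.emod_eq_of_lt (by positivity) ht']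
      rw [← hr] at h1
      exact_mod_cast h1
    have hz : (if ed (act u (pre Z.c (0 + (t : ℤ)))) (Z.c (0 + (t : ℤ))) =
        ed (act u (pre Z.c k)) (Z.c k) then y else 0) = 0 := if_neg this
    simp only [hz, neg_zero, ite_self]
  · intro h
    exact absurd (Finset.mem_range.2 hrlt) h

end REM

open scoped Classical in
theorem tREM : StFREE → StPER → StREM := by
  intro hFREE hPER α Z l hl Ω _ K u hu k hS
  have hF := hFREE α Z l Ω K u k hS
  have hP := hPER α Z l hl Ω K u hu k hS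
  set e₀ := ed (act u (pre Z.c k)) (Z.c k) with he₀
  have hout : ∀ v ∈ K.C, (∀ q : ℤ, act u (Z.s ^ q) ≠ v) → ∀ k' : ℤ,
      ed (act v (pre Z.c k')) (Z.c k') ≠ e₀ := by
    intro v hv hvn k' he
    obtain ⟨q, _, hq⟩ := hF v hv k' he
    exact hvn (-q) (by rw [zpow_neg]; exact act_inv_eq hq.symm)
  have hin : ∀ k' : ℤ, ed (act u (pre Z.c k')) (Z.c k') = ed (act u (pre Z.c k)) (Z.c k) →
      ∃ q : ℤ, k' = k + q * ((l : ℤ) * Z.n) := by
    intro k' he
    obtain ⟨q, hq, hq2⟩ := hF u hu k' he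
    obtain ⟨j, rfl⟩ := hP q hq2.symm
    exact ⟨j, by rw [hq]; ring⟩
  refine ⟨⟨K.E \ {e₀}, K.C.filter (fun v => ∀ q : ℤ, act u (Z.s ^ q) ≠ v), ?_, ?_, ?_, ?_⟩, ?_, rfl⟩
  · intro v hv
    rw [Finset.mem_filter] at hv ⊢
    refine ⟨K.cyc v hv.1, fun q hq => hv.2 (q - 1) ?_⟩
    have e : Z.s ^ q = Z.s ^ (q - 1) * Z.s := by
      rw [← zpow_add_one]
      congr 1
      ring
    rw [e, act_mul] at hq
    exact act_inj hq
  · intro v hv
    exact K.fix v (Finset.mem_filter.1 hv).1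
  · intro v hv i
    have hv' := Finset.mem_filter.1 hv
    exact ⟨K.sub v hv'.1 i, hout v hv'.1 hv'.2 i⟩
  · intro Q _ φ hφ v w hw hcl
    set φ₀ : Ω × α → Q := fun e => if e = e₀ then 0 else φ e with hφ₀
    set x := Sm φ₀ u (seg Z.c 0 (l * Z.n)) with hx
    set y : Q := if (Z.c k).2 then - x else x with hy
    set φ₁ : Ω × α → Q := fun e => φ₀ e + (if e = e₀ then y else 0) with hφ₁
    have hne : ∀ e, e ≠ e₀ → φ e = φ₁ e := by
      intro e he
      simp [hφ₁, hφ₀, he]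
    have hzero : Sm φ₁ u (seg Z.c 0 (l * Z.n)) = 0 := by
      rw [hφ₁, Sm_add, single_REM K hl hu k hin, ← hx, hy]
      split <;> simp
    have hcong : ∀ (v : Ω) (w : List (α × Bool)), InE {e₀}ᶜ v w → Sm φ v w = Sm φ₁ v w := by
      intro v w hw
      apply Sm_congr
      intro e he hn
      by_cases h : e = e₀
      · subst h
        exact hn hw
      · exact he (hne e h)
    rw [hcong v w (InE_mono (fun e he => he.2) hw)]
    refine K.sc Q φ₁ ?_ v w (InE_mono Set.diff_subset hw) hcl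
    intro v hv
    by_cases h : ∀ q : ℤ, act u (Z.s ^ q) ≠ v
    · rw [← hcong]
      · exact hφ v (Finset.mem_filter.2 ⟨hv, h⟩)
      · have := (InE_seg Z.c {e₀}ᶜ v 0 (l * Z.n)).2 (fun t _ => hout v hv h _)
        rwa [pre_zero, act_one] at this
    · push_neg at h
      obtain ⟨q, rfl⟩ := h
      rw [rot_REM K hl φ₁ hu q, hzero]
  · apply Finset.card_lt_card
    refine Finset.ssubset_iff_subset_ne.2 ⟨Finset.filter_subset _ _, ?_⟩
    intro h
    have h' : K.C.filter (fun v => ∀ q : ℤ, act u (Z.s ^ q) ≠ v) = K.C := h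
    have h2 : u ∈ K.C.filter (fun v => ∀ q : ℤ, act u (Z.s ^ q) ≠ v) := by
      rw [h']
      exact hu
    exact (Finset.mem_filter.1 h2).2 0 (by simp)

end Pool.Agent.Helper96.UT
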