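import Pool.Agent.Helper96.UT.StI

/-!
Project UT (MP_2c90c1_al), module RIG: rigidity of the graph of `HU r`.
-/

set_option autoImplicit false

namespace Pool.Agent.Helper96.UT

section rig

variable {α : Type} {r : FreeMonoid (α × Bool)}

private theorem ru_mul_RIG {x y : IM r} (hx : RU x) (hy : RU y) : RU (x * y) := by
  obtain ⟨u, hu⟩ := hx
  obtain ⟨v, hv⟩ := hy
  refine ⟨v * u, ?_⟩
  rw [mul_assoc, ← mul_assoc y v u, hv, one_mul, hu]

private theorem ru_unit_RIG {y : IM r} (h : IsUnit y) : RU y := by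
  obtain ⟨u, rfl⟩ := h
  exact ⟨((u⁻¹ : (IM r)ˣ) : IM r), u.mul_inv⟩

private theorem cancel_RIG {x y s : IM r} (hs : RU s) (h : x * s = y * s) : x = y := by
  obtain ⟨z, hz⟩ := hs
  have := congrArg (fun t => t * z) h
  simp only [mul_assoc, hz, mul_one] at this
  exact this

private theorem seg_per_RIG (Z : Cyc α) (i q : ℤ) (k : ℕ) :
    seg Z.c (i + q * Z.n) k = seg Z.c i k := by
  unfold seg
  congr 1
  funext j
  have e : i + q * Z.n + (j : ℤ) = (i + j) + q * Z.n := by ring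
  rw [e, Z.per_mul]

/-- form of the vertices -/
private def Fm_RIG (H : Subgroup (FreeGroup α)) (c : ℤ → α × Bool) (g : FreeGroup α) : Prop :=
  ∃ h ∈ H, ∃ j : ℤ, g = h * pre c j

private theorem fm_of_PG_RIG {H : Subgroup (FreeGroup α)} {c : ℤ → α × Bool} {g : FreeGroup α}
    {x : α × Bool} (h : PG H c g x) : Fm_RIG H c g := by
  obtain ⟨h, hh, j, ⟨h1, -⟩ | ⟨h1, -⟩⟩ := h
  · exact ⟨h, hh, j, h1⟩
  · exact ⟨h, hh, j + 1, h1⟩

private theorem fm_path_RIG {H : Subgroup (FreeGroup α)} {c : ℤ → α × Bool} {g : FreeGroup α}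
    {w : List (α × Bool)} (h : InG H c g w) (hg : Fm_RIG H c g) :
    Fm_RIG H c (g * FreeGroup.mk w) := by
  induction w generalizing g with
  | nil => rwa [mk_nil, mul_one]
  | cons x w ih =>
    rw [mk_cons, ← mul_assoc]
    exact ih h.2 (fm_of_PG_RIG (PG_bar h.1))

private theorem norm_RIG {H : Subgroup (FreeGroup α)} {Z : Cyc α} (hs : Z.s ∈ H)
    {h : FreeGroup α} (hh : h ∈ H) (j : ℤ) :
    ∃ h' ∈ H, ∃ j' : ℕ, j' < Z.n ∧ h * pre Z.c j = h' * pre Z.c (j' : ℤ) ∧ Z.c j = Z.c (j' : ℤ) ∧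
      h * pre Z.c (j + 1) = h' * pre Z.c ((j' : ℤ) + 1) := by
  have hn : (0 : ℤ) < Z.n := by exact_mod_cast Z.pos
  refine ⟨h * Z.s ^ (j / Z.n), H.mul_mem hh (H.zpow_mem hs _), (j % Z.n).toNat, ?_, ?_, ?_, ?_⟩
  · have := Int.emod_lt_of_pos j hn
    omega
  · have e : ((j % Z.n).toNat : ℤ) = j % Z.n := Int.toNat_of_nonneg (Int.emod_nonneg _ hn.ne')
    rw [e]
    have e2 : j = j % Z.n + (j / Z.n) * Z.n := by
      rw [mul_comm]; exact (Int.emod_add_mul_ediv j Z.n).symm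
    conv_lhs => rw [e2]
    rw [Z.pre_add_mul, mul_assoc]
  · have e : ((j % Z.n).toNat : ℤ) = j % Z.n := Int.toNat_of_nonneg (Int.emod_nonneg _ hn.ne')
    rw [e]
    have e2 : j = j % Z.n + (j / Z.n) * Z.n := by
      rw [mul_comm]; exact (Int.emod_add_mul_ediv j Z.n).symm
    conv_lhs => rw [e2]
    rw [Z.per_mul]
  · have e : ((j % Z.n).toNat : ℤ) = j % Z.n := Int.toNat_of_nonneg (Int.emod_nonneg _ hn.ne')
    rw [e]
    have e2 : j + 1 = (j % Z.n + 1) + (j / Z.n) * Z.n := by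
      have : j = j % Z.n + (j / Z.n) * Z.n := by
        rw [mul_comm]; exact (Int.emod_add_mul_ediv j Z.n).symm
      linarith
    rw [e2, Z.pre_add_mul, mul_assoc]

end rig

theorem tRIG (h1 : StIM1) (hPSI : StPSI) : StRIG := by
  intro α r Z l hl hr
  obtain ⟨a1, -, a3⟩ := h1 α r
  obtain ⟨-, a2, -⟩ := h1 α r
  obtain ⟨Ψ, -, -, psi, -⟩ := hPSI α r
  have hn : (0 : ℤ) < Z.n := by exact_mod_cast Z.pos
  have hnl : Z.n ≤ l * Z.n := Nat.le_mul_of_pos_left _ hl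
  -- prefixes
  have htake : ∀ i : ℕ, i ≤ l * Z.n → (FreeMonoid.toList r).take i = seg Z.c 0 i := by
    intro i hi
    obtain ⟨k, hk⟩ := Nat.exists_eq_add_of_le hi
    rw [hr, hk, seg_add]
    rw [List.take_append_of_le_length (by simp)]
    rw [List.take_of_length_le (by simp)]
  have hRUs : ∀ i : ℕ, i ≤ l * Z.n → RU (io r (seg Z.c 0 i)) := by
    intro i hi
    obtain ⟨k, hk⟩ := Nat.exists_eq_add_of_le hi
    refine ⟨io r (seg Z.c (0 + i) k), ?_⟩
    rw [← io_append, ← seg_add, ← hk, ← hr]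
    exact io_r r
  have hpow : ∀ k : ℕ, io r (seg Z.c 0 (k * Z.n)) = io r (seg Z.c 0 Z.n) ^ k := by
    intro k
    induction k with
    | zero => simp [io_nil]
    | succ k ih =>
      rw [Nat.succ_mul, seg_add, io_append, ih, pow_succ]
      congr 2
      have : (0 + ((k * Z.n : ℕ) : ℤ)) = 0 + (k : ℤ) * Z.n := by push_cast; ring
      rw [this, seg_per_RIG]
  have hSl : io r (seg Z.c 0 Z.n) ^ l = 1 := by
    rw [← hpow, ← hr]
    exact io_r r
  have hSunit : IsUnit (io r (seg Z.c 0 Z.n)) := IsUnit.of_pow_eq_one hSl (by omega)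
  have hunitH : ∀ i : ℕ, i ≤ l * Z.n → IsUnit (io r (seg Z.c 0 i)) → pre Z.c i ∈ HU r := by
    intro i hi hu
    refine Subgroup.subset_closure ⟨i, ?_, ?_⟩
    · rw [htake i hi]; exact hu
    · rw [htake i hi, mk_seg, pre_zero, inv_one, one_mul, zero_add]
  have hs : Z.s ∈ HU r := hunitH Z.n hnl hSunit
  refine ⟨hs, ?_⟩
  have mks : ∀ k : ℕ, FreeGroup.mk (seg Z.c 0 k) = pre Z.c (k : ℤ) := by
    intro k
    rw [mk_seg, pre_zero, inv_one, one_mul, zero_add]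
  -- values
  have hval : ∀ h ∈ HU r, ∃ w : List (α × Bool), IsUnit (io r w) ∧ FreeGroup.mk w = h := by
    intro h hh
    obtain ⟨w, hw1, hw2⟩ := psi ⟨h, hh⟩
    exact ⟨w, hw2, hw1⟩
  -- steps
  have hstep : ∀ (g : FreeGroup α) (x : α × Bool) (w : List (α × Bool)), PG (HU r) Z.c g x →
      RU (io r w) → FreeGroup.mk w = g → RU (io r (w ++ [x])) := by
    intro g x w hPG hRU hmk
    obtain ⟨h, hh, j, hcase⟩ := hPG
    obtain ⟨h', hh', j', hj', e1, e2, e3⟩ := norm_RIG hs hh j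
    obtain ⟨w0, hw0, hw0m⟩ := hval h' hh'
    have hR1 : RU (io r (w0 ++ seg Z.c 0 j')) := by
      rw [io_append]
      exact ru_mul_RIG (ru_unit_RIG hw0) (hRUs j' (by omega))
    have hR2 : RU (io r (w0 ++ seg Z.c 0 (j' + 1))) := by
      rw [io_append]
      exact ru_mul_RIG (ru_unit_RIG hw0) (hRUs (j' + 1) (by omega))
    have eseg : w0 ++ seg Z.c 0 (j' + 1) = (w0 ++ seg Z.c 0 j') ++ [Z.c (j' : ℤ)] := by
      rw [seg_succ, zero_add, List.append_assoc]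
    rcases hcase with ⟨hg, hx⟩ | ⟨hg, hx⟩
    · have e : io r w = io r (w0 ++ seg Z.c 0 j') := by
        refine a3 _ _ hRU hR1 ?_
        rw [hmk, mk_append, hw0m, mks, hg, e1]
      rw [io_append, e, ← io_append, hx, e2, ← eseg]
      exact hR2
    · have e : io r w = io r (w0 ++ seg Z.c 0 (j' + 1)) := by
        refine a3 _ _ hRU hR2 ?_
        rw [hmk, mk_append, hw0m, mks, hg, e3]
        push_cast
        rfl
      have e4 : io r (w ++ [x]) = io r (w0 ++ seg Z.c 0 j') := by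
        rw [io_append, e, eseg, io_append r (w0 ++ seg Z.c 0 j'), mul_assoc, ← io_append]
        have : ([Z.c (j' : ℤ)] ++ [x]) = [Z.c (j' : ℤ)] ++ FreeGroup.invRev [Z.c (j' : ℤ)] := by
          rw [hx, e2]
          simp [FreeGroup.invRev, bar]
        rw [this]
        refine a2 _ _ ?_
        rw [← eseg]
        exact hR2
      rw [e4]
      exact hR1
  have hpath : ∀ (u : List (α × Bool)) (g : FreeGroup α) (w : List (α × Bool)),
      InG (HU r) Z.c g u → RU (io r w) → FreeGroup.mk w = g → RU (io r (w ++ u)) := by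
    intro u
    induction u with
    | nil =>
      intro g w _ hRU _
      simpa using hRU
    | cons x u ih =>
      intro g w hu hRU hmk
      have := ih (g * lt x) (w ++ [x]) hu.2 (hstep g x w hu.1 hRU hmk) (by
        rw [mk_append, hmk]; rfl)
      simpa using this
  -- values of vertices
  have hFmval : ∀ g, Fm_RIG (HU r) Z.c g → ∃ (w0 : List (α × Bool)) (j : ℕ), j < Z.n ∧
      IsUnit (io r w0) ∧ FreeGroup.mk w0 ∈ HU r ∧ RU (io r (w0 ++ seg Z.c 0 j)) ∧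
      g = FreeGroup.mk (w0 ++ seg Z.c 0 j) := by
    rintro g ⟨h, hh, j, rfl⟩
    obtain ⟨h', hh', j', hj', e1, -, -⟩ := norm_RIG hs hh j
    obtain ⟨w0, hw0, hw0m⟩ := hval h' hh'
    refine ⟨w0, j', hj', hw0, by rw [hw0m]; exact hh', ?_, ?_⟩
    · rw [io_append]
      exact ru_mul_RIG (ru_unit_RIG hw0) (hRUs j' (by omega))
    · rw [mk_append, hw0m, mks, e1]
  have hunit1 : ∀ g, Fm_RIG (HU r) Z.c g → ∀ w : List (α × Bool), FreeGroup.mk w = g →
      IsUnit (io r w) → g ∈ HU r := by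
    intro g hg w hmk hu
    obtain ⟨w0, j, hj, hw0, hw0H, hRU, hg2⟩ := hFmval g hg
    have e : io r w = io r (w0 ++ seg Z.c 0 j) := a3 _ _ (ru_unit_RIG hu) hRU (by rw [hmk, hg2])
    rw [io_append] at e
    have hu2 : IsUnit (io r (seg Z.c 0 j)) := by
      obtain ⟨u0, hu0⟩ := hw0
      obtain ⟨u1, hu1⟩ := hu
      have : io r (seg Z.c 0 j) = ((u0⁻¹ * u1 : (IM r)ˣ) : IM r) := by
        rw [Units.val_mul, hu1, e, ← hu0, Units.inv_mul_cancel_left]
      rw [this]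
      exact Units.isUnit _
    rw [hg2, mk_append, mks]
    exact (HU r).mul_mem hw0H (hunitH j (by omega) hu2)
  -- the choice of m
  let R : Fin Z.n → Fin Z.n → Prop := fun j m =>
    ∃ x : IM r, RU x ∧ io r (seg Z.c 0 j) = x * io r (seg Z.c 0 m)
  have Rtrans : ∀ i j k, R i j → R j k → R i k := by
    rintro i j k ⟨x, hx, ex⟩ ⟨y, hy, ey⟩
    exact ⟨x * y, ru_mul_RIG hx hy, by rw [ex, ey, mul_assoc]⟩
  obtain ⟨m, hmn, hm⟩ : ∃ m : ℕ, m < Z.n ∧ ∀ j : ℕ, j < Z.n →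
      (∃ x : IM r, RU x ∧ io r (seg Z.c 0 j) = x * io r (seg Z.c 0 m)) →
      ∃ x : IM r, RU x ∧ io r (seg Z.c 0 m) = x * io r (seg Z.c 0 j) := by
    have hne : Nonempty (Fin Z.n) := ⟨⟨0, Z.pos⟩⟩
    let Q : Fin Z.n → Fin Z.n → Prop := fun j m => R j m ∧ ¬ R m j
    have i1 : IsTrans (Fin Z.n) Q := ⟨fun i j k h1 h2 =>
      ⟨Rtrans _ _ _ h1.1 h2.1, fun h3 => h1.2 (Rtrans _ _ _ h2.1 h3)⟩⟩
    have i2 : Std.Irrefl Q := ⟨fun i h => h.2 h.1⟩
    have wf : WellFounded Q := Finite.wellFounded_of_trans_of_irrefl Q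
    obtain ⟨m, -, hm⟩ := wf.has_min Set.univ Set.univ_nonempty
    refine ⟨m, m.2, fun j hj hR => ?_⟩
    by_contra hc
    exact hm ⟨j, hj⟩ (Set.mem_univ _) ⟨hR, hc⟩
  have hclaim : ∀ g, Fm_RIG (HU r) Z.c g → ∀ (w : List (α × Bool)) (x : IM r),
      RU (io r w) → FreeGroup.mk w = g → RU x → io r w = x * io r (seg Z.c 0 m) → IsUnit x := by
    intro g hg w x hRU hmk hx ex
    obtain ⟨w0, j, hj, hw0, -, hRU0, hg2⟩ := hFmval g hg
    have e : io r w = io r (w0 ++ seg Z.c 0 j) := a3 _ _ hRU hRU0 (by rw [hmk, hg2])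
    rw [io_append] at e
    obtain ⟨U, hU⟩ := hw0
    have e1 : io r (seg Z.c 0 j) = ((U⁻¹ : (IM r)ˣ) : IM r) * x * io r (seg Z.c 0 m) := by
      rw [mul_assoc, ← ex, e, ← hU, Units.inv_mul_cancel_left]
    obtain ⟨x2, hx2, e2⟩ := hm j hj ⟨_, ru_mul_RIG (ru_unit_RIG (Units.isUnit _)) hx, e1⟩
    have c1 : ((U⁻¹ : (IM r)ˣ) : IM r) * x * x2 = 1 := by
      refine cancel_RIG (hRUs j (by omega)) ?_
      rw [one_mul, mul_assoc _ x2, ← e2, ← e1]
    have c2 : x2 * ((U⁻¹ : (IM r)ˣ) : IM r) * x = 1 := by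
      refine cancel_RIG (hRUs m (by omega)) ?_
      rw [one_mul, mul_assoc x2, mul_assoc x2, ← e1, ← e2]
    have c3 : x * (x2 * ((U⁻¹ : (IM r)ˣ) : IM r)) = 1 := by
      have : x * x2 = (U : IM r) := by
        have := congrArg (fun t => (U : IM r) * t) c1
        simpa [mul_assoc] using this
      rw [← mul_assoc, this, Units.mul_inv]
    exact ⟨⟨x, x2 * ((U⁻¹ : (IM r)ˣ) : IM r), c3, c2⟩, rfl⟩
  -- rigidity
  intro g i hpi
  -- representative 1 ≤ i0 ≤ n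
  obtain ⟨i0, q, hi01, hi0n, hi⟩ : ∃ (i0 : ℕ) (q : ℤ), 1 ≤ i0 ∧ i0 ≤ Z.n ∧
      i = (i0 : ℤ) + q * Z.n := by
    have h0 := Int.emod_nonneg (i - 1) hn.ne'
    have h1 := Int.emod_lt_of_pos (i - 1) hn
    refine ⟨((i - 1) % Z.n).toNat + 1, (i - 1) / Z.n, by omega, by omega, ?_⟩
    have e2 : i - 1 = (i - 1) % Z.n + ((i - 1) / Z.n) * Z.n := by
      rw [mul_comm]; exact (Int.emod_add_mul_ediv (i - 1) Z.n).symm
    push_cast
    rw [Int.toNat_of_nonneg h0]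
    linarith
  have hseg : seg Z.c i Z.n = seg Z.c (i0 : ℤ) Z.n := by rw [hi, seg_per_RIG]
  rw [hseg] at hpi
  suffices hsuff : ∃ h ∈ HU r, g = h * pre Z.c (i0 : ℤ) by
    obtain ⟨h, hh, hgh⟩ := hsuff
    refine ⟨h * Z.s ^ (-q), (HU r).mul_mem hh ((HU r).zpow_mem hs _), ?_⟩
    rw [hi, Z.pre_add_mul, hgh, mul_assoc, ← mul_assoc (Z.s ^ (-q)), ← zpow_add]
    simp
  -- the value of g
  have hFg : Fm_RIG (HU r) Z.c g := by
    obtain ⟨k, hk⟩ := Nat.exists_eq_succ_of_ne_zero Z.pos.ne'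
    rw [hk, seg_cons] at hpi
    exact fm_of_PG_RIG hpi.1
  obtain ⟨w0, j, hj, hw0, -, hRUg, hg2⟩ := hFmval g hFg
  set wg := w0 ++ seg Z.c 0 j with hwg
  obtain ⟨k, hk⟩ := Nat.exists_eq_add_of_le hi0n
  -- `k = n - i0 = t₀`
  have hsplit : seg Z.c (i0 : ℤ) Z.n = seg Z.c (i0 : ℤ) k ++ seg Z.c 0 i0 := by
    have e : Z.n = k + i0 := by omega
    have e3 : seg Z.c (i0 : ℤ) (k + i0) = seg Z.c (i0 : ℤ) k ++ seg Z.c ((i0 : ℤ) + k) i0 :=
      seg_add _ _ _ _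
    have e4 : ((i0 : ℤ) + k) = 0 + 1 * Z.n := by
      rw [hk]; push_cast; ring
    have e5 : seg Z.c ((i0 : ℤ) + k) i0 = seg Z.c 0 i0 := by rw [e4, seg_per_RIG]
    rw [← e5, ← e3, ← e]
  rw [hsplit] at hpi
  have hfin : IsUnit (io r (wg ++ seg Z.c (i0 : ℤ) k)) → ∃ h ∈ HU r, g = h * pre Z.c (i0 : ℤ) := by
    intro hu
    have hp := ((InG_append _ _ _).1 hpi).1
    have hF := fm_path_RIG hp hFg
    have hmem := hunit1 _ hF (wg ++ seg Z.c (i0 : ℤ) k) (by rw [mk_append, hg2]) hu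
    refine ⟨g * FreeGroup.mk (seg Z.c (i0 : ℤ) k) * Z.s⁻¹,
      (HU r).mul_mem hmem ((HU r).inv_mem hs), ?_⟩
    have e : pre Z.c ((i0 : ℤ) + k) = Z.s := by
      rw [Cyc.s]; congr 1; rw [hk]; push_cast; ring
    rw [mk_seg, e]
    simp [mul_assoc]
  refine hfin ?_
  by_cases hmi : m ≤ i0
  · -- case A
    obtain ⟨k2, hk2⟩ := Nat.exists_eq_add_of_le hmi
    have hpi2 : InG (HU r) Z.c g (seg Z.c (i0 : ℤ) k ++ seg Z.c 0 m) := by
      have e : seg Z.c 0 i0 = seg Z.c 0 m ++ seg Z.c (0 + (m : ℤ)) k2 := by rw [hk2, seg_add]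
      rw [e, ← List.append_assoc] at hpi
      exact ((InG_append _ _ _).1 hpi).1
    have hp1 := ((InG_append _ _ _).1 hpi2).1
    refine hclaim _ (fm_path_RIG hpi2 hFg) (wg ++ (seg Z.c (i0 : ℤ) k ++ seg Z.c 0 m))
      (io r (wg ++ seg Z.c (i0 : ℤ) k)) ?_ ?_ ?_ ?_
    · exact hpath _ _ _ hpi2 hRUg hg2.symm
    · rw [mk_append, hg2]
    · exact hpath _ _ _ hp1 hRUg hg2.symm
    · rw [← List.append_assoc, io_append]
  · -- case B
    have hmi := not_le.1 hmi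
    have hm2 : m < Z.n := hmn
    obtain ⟨k2, hk2⟩ := Nat.exists_eq_add_of_lt hmi
    -- `m = i0 + k2 + 1`, `tm = k2 + 1`
    obtain ⟨k3, hk3⟩ := Nat.exists_eq_add_of_lt hm2
    -- `n = m + k3 + 1`
    have ek : k = (k2 + 1) + (k3 + 1) := by omega
    have esplit2 : seg Z.c (i0 : ℤ) k =
        seg Z.c (i0 : ℤ) (k2 + 1) ++ seg Z.c (m : ℤ) (k3 + 1) := by
      rw [ek, seg_add]
      congr 2
      rw [hk2]; push_cast; ring
    have eSn : seg Z.c 0 Z.n = seg Z.c 0 m ++ seg Z.c (m : ℤ) (k3 + 1) := by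
      rw [hk3, add_assoc, seg_add, zero_add]
    have hp1 := ((InG_append _ _ _).1 hpi).1
    have hp2 : InG (HU r) Z.c g (seg Z.c (i0 : ℤ) (k2 + 1)) := by
      rw [esplit2] at hp1
      exact ((InG_append _ _ _).1 hp1).1
    have hRk : RU (io r (wg ++ seg Z.c (i0 : ℤ) k)) := hpath _ _ _ hp1 hRUg hg2.symm
    have hRt : RU (io r (wg ++ seg Z.c (i0 : ℤ) (k2 + 1))) := hpath _ _ _ hp2 hRUg hg2.symm
    obtain ⟨S, hS⟩ := hSunit
    have hSinv : io r (FreeGroup.invRev (seg Z.c 0 Z.n)) = ((S⁻¹ : (IM r)ˣ) : IM r) := by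
      have := a1 _ (hRUs Z.n hnl)
      rw [← hS] at this
      have h2 := congrArg (fun t => ((S⁻¹ : (IM r)ˣ) : IM r) * t) this
      simpa using h2
    set x' : IM r := io r (wg ++ seg Z.c (i0 : ℤ) k) * io r (FreeGroup.invRev (seg Z.c 0 Z.n))
      with hx'
    have hx'R : RU x' := by
      rw [hx', hSinv]
      exact ru_mul_RIG hRk (ru_unit_RIG (Units.isUnit _))
    have e1 : x' * io r (seg Z.c 0 m) = io r ((wg ++ seg Z.c (i0 : ℤ) k) ++
        FreeGroup.invRev (seg Z.c 0 Z.n) ++ seg Z.c 0 m) := by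
      rw [io_append, io_append]
    have e2 : io r (wg ++ seg Z.c (i0 : ℤ) (k2 + 1)) = x' * io r (seg Z.c 0 m) := by
      rw [e1]
      refine a3 _ _ hRt ?_ ?_
      · rw [← e1]
        exact ru_mul_RIG hx'R (hRUs m (by omega))
      · rw [eSn, esplit2, invRev_append]
        simp only [mk_append, mk_invRev]
        generalize FreeGroup.mk wg = A
        generalize FreeGroup.mk (seg Z.c (i0 : ℤ) (k2 + 1)) = B
        generalize FreeGroup.mk (seg Z.c (m : ℤ) (k3 + 1)) = C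
        generalize FreeGroup.mk (seg Z.c 0 m) = D
        group
    have hux : IsUnit x' := by
      refine hclaim _ (fm_path_RIG hp2 hFg) (wg ++ seg Z.c (i0 : ℤ) (k2 + 1)) x' hRt ?_ hx'R e2
      rw [mk_append, hg2]
    have e3 : io r (wg ++ seg Z.c (i0 : ℤ) k) = x' * (S : IM r) := by
      rw [hx', hSinv, mul_assoc, Units.inv_mul, mul_one]
    rw [e3]
    exact hux.mul (Units.isUnit _)

end Pool.Agent.Helper96.UT

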