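import Pool.Agent.Helper96.UT.StC

/-! Project UT (MP_2c90c1_al), module STEP. -/

set_option autoImplicit false

namespace Pool.Agent.Helper96.UT

theorem tSTEP : StFREE → StPER → StREM → StFWD → StSTEP := by
  intro hFREE hPER hREM hFWD α Z l hl H hs hrig Ω _ K ih g v w hG hS u hu k hk hint i hi hvi hwi
  have hl1 : 1 ≤ l := by omega
  have hk0 : Sing K u k := by simpa using hk 0 (Nat.zero_le _)
  obtain ⟨w₁, w₂, hw, hw₁, hE₁, hE₂⟩ := hFWD α Z l hl Ω K v w hS u hu k hk hint i hi hvi hwi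
  obtain ⟨K', hK', hKE⟩ := hREM α Z l hl1 Ω K u hu k hk0
  set e₀ := ed (act u (pre Z.c k)) (Z.c k) with he₀
  set x := seg Z.c k ((l - 1) * Z.n) with hx
  set y := seg Z.c (k - Z.n) Z.n with hy
  have hxend : act v (FreeGroup.mk (w₁ ++ x)) = act u (pre Z.c (k - Z.n)) := by
    rw [mk_append, act_mul, hw₁, hx, act_seg]
    have e : k + (((l - 1) * Z.n : ℕ) : ℤ) = (k - Z.n) + 1 * ((l : ℤ) * Z.n) := by
      rw [Nat.cast_mul, Nat.cast_sub hl1]
      push_cast
      ring
    rw [e, K.act_pre_period hu]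
  have hyact : act (act u (pre Z.c (k - Z.n))) (FreeGroup.mk y) = act u (pre Z.c k) := by
    rw [hy, act_seg]
    congr 2
    ring
  have hyinv : act v (FreeGroup.mk (w₁ ++ FreeGroup.invRev y)) = act u (pre Z.c (k - Z.n)) := by
    rw [mk_append, act_mul, hw₁, mk_invRev, ← hyact]
    rw [← act_mul, mul_inv_cancel, act_one]
  -- closed path in `K'`
  have hyE : InE K'.E (act u (pre Z.c (k - Z.n))) y := by
    rw [hy, InE_seg]
    intro t ht
    rw [hKE]
    refine ⟨K.sub u hu _, fun heq => ?_⟩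
    obtain ⟨q, hq1, hq2⟩ := hFREE α Z l Ω K u k hk0 u hu _ heq
    have hn : (0 : ℤ) < Z.n := by exact_mod_cast Z.pos
    have ht' : (t : ℤ) < Z.n := by exact_mod_cast ht
    have ht0 : (0 : ℤ) ≤ t := by positivity
    have hq : q = -1 := by
      have h1 : (q : ℤ) * Z.n = t - Z.n := by linarith
      have h2 : q < 0 := by
        by_contra hcon
        push Not at hcon
        have := mul_nonneg hcon hn.le
        linarith
      have h3 : -2 < q := by
        by_contra hcon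
        push Not at hcon
        have : q * Z.n ≤ (-2) * Z.n := mul_le_mul_of_nonneg_right hcon hn.le
        linarith
      omega
    rw [hq] at hq2
    have := hPER α Z l hl1 Ω K u hu k hk0 (-1) hq2.symm
    rw [Int.dvd_neg] at this
    have h4 := Int.le_of_dvd (by norm_num) this
    omega
  have hclosed : act v (FreeGroup.mk (w₁ ++ FreeGroup.invRev y ++ w₂)) = v := by
    have h1 := hS.closed
    rw [hw, mk_append, act_mul, hxend] at h1
    rw [mk_append, act_mul, hyinv]
    exact h1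
  have hE' : InE K'.E v (w₁ ++ FreeGroup.invRev y ++ w₂) := by
    rw [InE_append, InE_append]
    refine ⟨⟨by rw [hKE]; exact hE₁, ?_⟩, ?_⟩
    · rw [hw₁, ← hyact]
      exact InE_invRev hyE
    · rw [hyinv, ← hxend, hKE]
      exact hE₂
  -- path in `Γ`
  rw [hw, InG_append, InG_append] at hG
  obtain ⟨⟨hG1, hGx⟩, hG2⟩ := hG
  have hprefix : InG H Z.c (g * FreeGroup.mk w₁) (seg Z.c k Z.n) := by
    have e : (l - 1) * Z.n = Z.n + (l - 2) * Z.n := by
      have : l - 1 = (l - 2) + 1 := by omega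
      rw [this]; ring
    rw [hx, e, seg_add, InG_append] at hGx
    exact hGx.1
  obtain ⟨h, hh, hgh⟩ := hrig _ k hprefix
  have hyG : InG H Z.c (g * FreeGroup.mk w₁) (FreeGroup.invRev y) := by
    have h1 : InG H Z.c (h * pre Z.c (k - Z.n)) y := InG_seg hh _ _
    have h2 := InG_invRev h1
    have e : h * pre Z.c (k - Z.n) * FreeGroup.mk y = g * FreeGroup.mk w₁ := by
      rw [hgh, hy, mk_seg, mul_assoc, mul_inv_cancel_left]
      congr 2
      ring
    rwa [e] at h2
  have hpk : pre Z.c k = Z.s * pre Z.c (k - Z.n) := by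
    have := Z.pre_add (k - Z.n)
    rwa [sub_add_cancel] at this
  have hpx : pre Z.c (k + (((l - 1) * Z.n : ℕ) : ℤ)) = Z.s ^ (l - 1) * pre Z.c k := by
    rw [Nat.cast_mul, Z.pre_add_mul, zpow_natCast]
  have hmx : FreeGroup.mk x = (pre Z.c k)⁻¹ * (Z.s ^ (l - 1) * pre Z.c k) := by
    rw [hx, mk_seg, hpx]
  have hmy : FreeGroup.mk y = (pre Z.c (k - Z.n))⁻¹ * pre Z.c k := by
    rw [hy, mk_seg]
    congr 2
    ring
  have hsl : Z.s ^ l = Z.s ^ (l - 1) * Z.s := by
    rw [← pow_succ]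
    congr 1
    omega
  have hG2' : InG H Z.c (g * FreeGroup.mk (w₁ ++ FreeGroup.invRev y)) w₂ := by
    have h1 : g * FreeGroup.mk (w₁ ++ x) =
        (h * Z.s ^ l * h⁻¹) * (g * FreeGroup.mk (w₁ ++ FreeGroup.invRev y)) := by
      have hg1 : FreeGroup.mk w₁ = g⁻¹ * (h * pre Z.c k) := by
        rw [← hgh, inv_mul_cancel_left]
      simp only [mk_append]
      rw [hg1, mk_invRev, hmx, hmy, hsl, hpk]
      group
    rw [h1] at hG2
    exact (InG_mul (H.mul_mem (H.mul_mem hh (H.pow_mem hs l)) (H.inv_mem hh))).1 hG2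
  have hGw' : InG H Z.c g (w₁ ++ FreeGroup.invRev y ++ w₂) := by
    rw [InG_append, InG_append]
    exact ⟨⟨hG1, hyG⟩, hG2'⟩
  have hfin := ih K' hK' g v _ hGw' hE' hclosed
  have hN : h * Z.s ^ l * h⁻¹ ∈ NH H Z l := Subgroup.subset_closure ⟨h, hh, rfl⟩
  have heq : g * FreeGroup.mk w * g⁻¹ =
      (h * Z.s ^ l * h⁻¹) * (g * FreeGroup.mk (w₁ ++ FreeGroup.invRev y ++ w₂) * g⁻¹) := by
    have hg1 : FreeGroup.mk w₁ = g⁻¹ * (h * pre Z.c k) := by
      rw [← hgh, inv_mul_cancel_left]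
    rw [hw]
    simp only [mk_append]
    rw [hg1, mk_invRev, hmx, hmy, hsl, hpk]
    group
  rw [heq]
  exact (NH H Z l).mul_mem hN hfin

end Pool.Agent.Helper96.UT
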