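import Pool.Agent.Helper96.UT.StC

/-!
Project UT (MP_2c90c1_al), module STK: every cyclic word which is not a proper power has a stacking.
-/

set_option autoImplicit false

namespace Pool.Agent.Helper96.UT

namespace STKaux

variable {α : Type}

/-- the increment of the step `i` -/
def inc (Z : Cyc α) {ι : Type} (v : ℤ → ι) (θ : ι × α → ℤ) (i : ℤ) : ℤ :=
  if (Z.c i).2 then θ (edv Z v i) else - θ (edv Z v i)

theorem per_gen {β : Type} (f : ℤ → β) (n : ℕ) (h : ∀ i, f (i + n) = f i) (i q : ℤ) :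
    f (i + q * n) = f i := by
  have hp : Function.Periodic f (n : ℤ) := h
  have := hp.int_mul q i
  simpa using this

theorem per_mod {β : Type} (f : ℤ → β) (n : ℕ) (h : ∀ i, f (i + n) = f i) (i : ℤ) :
    f i = f (i % n) := by
  have h1 := per_gen f n h (i % n) (i / n)
  rw [← h1]
  congr 1
  rw [mul_comm]
  exact (Int.emod_add_mul_ediv i n).symm

theorem inc_per (Z : Cyc α) {ι : Type} (v : ℤ → ι) (hv : ∀ i, v (i + Z.n) = v i)
    (θ : ι × α → ℤ) (i : ℤ) : inc Z v θ (i + Z.n) = inc Z v θ i := by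
  have e : i + (Z.n : ℤ) + 1 = (i + 1) + Z.n := by ring
  unfold inc edv
  rw [Z.per, hv, e, hv]

/-- the height function of a cochain with period sum `0` -/
def hh (Z : Cyc α) {ι : Type} (v : ℤ → ι) (θ : ι × α → ℤ) (i : ℤ) : ℤ :=
  ∑ j ∈ Finset.range (i % Z.n).toNat, inc Z v θ j

theorem hh_per (Z : Cyc α) {ι : Type} (v : ℤ → ι) (θ : ι × α → ℤ) (i : ℤ) :
    hh Z v θ (i + Z.n) = hh Z v θ i := by
  unfold hh
  rw [Int.add_emod_right]

theorem hh_succ (Z : Cyc α) {ι : Type} (v : ℤ → ι) (hv : ∀ i, v (i + Z.n) = v i)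
    (θ : ι × α → ℤ) (h0 : ∑ j ∈ Finset.range Z.n, inc Z v θ j = 0) (i : ℤ) :
    hh Z v θ (i + 1) = hh Z v θ i + inc Z v θ i := by
  have hn : (0 : ℤ) < Z.n := by exact_mod_cast Z.pos
  have hr0 := Int.emod_nonneg i hn.ne'
  have hr1 := Int.emod_lt_of_pos i hn
  obtain ⟨r, hr⟩ : ∃ r : ℕ, (r : ℤ) = i % Z.n := ⟨(i % Z.n).toNat, Int.toNat_of_nonneg hr0⟩
  have hi : inc Z v θ i = inc Z v θ (r : ℤ) := by
    rw [hr]
    exact per_mod (inc Z v θ) Z.n (inc_per Z v hv θ) i
  have hrn : r < Z.n := by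
    have : (r : ℤ) < Z.n := by rw [hr]; exact hr1
    exact_mod_cast this
  have h1 : (i + 1) % (Z.n : ℤ) = ((r : ℤ) + 1) % Z.n := by
    rw [hr, Int.emod_add_emod]
  unfold hh
  rw [← hr, h1, hi, Int.toNat_natCast]
  rcases Nat.lt_or_ge (r + 1) Z.n with h2 | h2
  · have : ((r : ℤ) + 1) % Z.n = ((r + 1 : ℕ) : ℤ) := by
      rw [Int.emod_eq_of_lt (by positivity) (by exact_mod_cast h2)]
      push_cast
      rfl
    rw [this, Int.toNat_natCast, Finset.sum_range_succ]
  · have h3 : r + 1 = Z.n := by omega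
    have : ((r : ℤ) + 1) % Z.n = 0 := by
      rw [← h3]
      push_cast
      exact Int.emod_self
    rw [this]
    rw [← h3, Finset.sum_range_succ] at h0
    simp only [Int.toNat_zero, Finset.range_zero, Finset.sum_empty]
    linarith

theorem inc_c1 (Z : Cyc α) {ι : Type} {v : ℤ → ι} (hv : Cpt Z v) (θ : ι × α → ℤ) {i j : ℤ}
    (hc : Z.c i = Z.c j) (he : v i = v j) : inc Z v θ i = inc Z v θ j := by
  unfold inc edv
  rw [hc, he, hv.c1 i j hc he]

theorem inc_c2 (Z : Cyc α) {ι : Type} {v : ℤ → ι} (hv : Cpt Z v) (θ : ι × α → ℤ) {i j : ℤ}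
    (hc : Z.c i = bar (Z.c j)) (he : v i = v (j + 1)) : inc Z v θ i = - inc Z v θ j := by
  have h2 := hv.c2 i j hc he
  have e1 : (Z.c i).1 = (Z.c j).1 := by rw [hc]; rfl
  have e2 : (Z.c i).2 = !(Z.c j).2 := by rw [hc]; rfl
  unfold inc edv
  rw [e1, e2, he, h2]
  cases (Z.c j).2 <;> simp

/-- heights for a labelling -/
structure HT (Z : Cyc α) {ι : Type} (v : ℤ → ι) (η : ℤ → ℤ) : Prop where
  per : ∀ i, η (i + Z.n) = η i
  inj : ∀ i j, v i = v j → η i = η j → (Z.n : ℤ) ∣ i - j
  mono : ∀ i j, v i = v j → Z.c i = Z.c j → (η i < η j ↔ η (i + 1) < η (j + 1))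
  monobar : ∀ i j, v i = v (j + 1) → Z.c i = bar (Z.c j) → (η i < η (j + 1) ↔ η (i + 1) < η j)

theorem ht_inj (Z : Cyc α) {ι : Type} (v : ℤ → ι) (h : ∀ i j, v i = v j → (Z.n : ℤ) ∣ i - j) :
    HT Z v (fun _ => 0) := by
  refine ⟨fun _ => rfl, fun i j he _ => h i j he, fun i j _ _ => by simp, fun i j he hc => ?_⟩
  simp

open scoped Classical in
theorem card_step (Z : Cyc α) {ι : Type} {v : ℤ → ι} (hv : Cpt Z v) (θ : ι × α → ℤ)
    (h0 : ∑ j ∈ Finset.range Z.n, inc Z v θ j = 0)
    (hn : ¬ ∃ f : ι → ℚ, ∀ i : ℤ, ((inc Z v θ i : ℤ) : ℚ) = f (v (i + 1)) - f (v i)) :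
    ((Finset.range Z.n).image fun i : ℕ => v i).card + 1 ≤
      ((Finset.range Z.n).image fun i : ℕ => (v i, hh Z v θ i)).card := by
  have himg : ((Finset.range Z.n).image fun i : ℕ => v i) =
      ((Finset.range Z.n).image fun i : ℕ => (v i, hh Z v θ i)).image Prod.fst := by
    rw [Finset.image_image]
    rfl
  by_contra hlt
  have hle : ((Finset.range Z.n).image fun i : ℕ => v i).card ≤
      ((Finset.range Z.n).image fun i : ℕ => (v i, hh Z v θ i)).card := by
    rw [himg]
    exact Finset.card_image_le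
  have heq : (((Finset.range Z.n).image fun i : ℕ => (v i, hh Z v θ i)).image Prod.fst).card =
      ((Finset.range Z.n).image fun i : ℕ => (v i, hh Z v θ i)).card := by
    rw [← himg]
    omega
  rw [Finset.card_image_iff] at heq
  have hmem : ∀ i : ℤ, (v i, hh Z v θ i) ∈
      ((Finset.range Z.n).image fun i : ℕ => (v i, hh Z v θ i)) := by
    intro i
    have hnp : (0 : ℤ) < Z.n := by exact_mod_cast Z.pos
    have hr0 := Int.emod_nonneg i hnp.ne'
    have hr1 := Int.emod_lt_of_pos i hnp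
    obtain ⟨r, hr⟩ : ∃ r : ℕ, (r : ℤ) = i % Z.n := ⟨(i % Z.n).toNat, Int.toNat_of_nonneg hr0⟩
    refine Finset.mem_image.2 ⟨r, Finset.mem_range.2 ?_, ?_⟩
    · have : (r : ℤ) < Z.n := by rw [hr]; exact hr1
      exact_mod_cast this
    · rw [hr]
      have h1 := per_mod v Z.n hv.per i
      have h2 := per_mod (hh Z v θ) Z.n (hh_per Z v θ) i
      rw [← h1, ← h2]
  have hdet : ∀ i j : ℤ, v i = v j → hh Z v θ i = hh Z v θ j := by
    intro i j hij
    have := heq (hmem i) (hmem j) hij
    exact congrArg Prod.snd this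
  apply hn
  refine ⟨fun x => if hx : ∃ i, v i = x then ((hh Z v θ hx.choose : ℤ) : ℚ) else 0, ?_⟩
  have hf : ∀ i : ℤ, (if hx : ∃ k, v k = v i then ((hh Z v θ hx.choose : ℤ) : ℚ) else 0) =
      ((hh Z v θ i : ℤ) : ℚ) := by
    intro i
    have hx : ∃ k, v k = v i := ⟨i, rfl⟩
    rw [dif_pos hx]
    rw [hdet _ _ hx.choose_spec]
  intro i
  simp only
  rw [hf, hf, hh_succ Z v hv.per θ h0]
  push_cast
  ring

theorem image_inst {β : Type} {i1 i2 : DecidableEq β} (s : Finset ℕ) (f : ℕ → β) :
    @Finset.image _ _ i1 f s = @Finset.image _ _ i2 f s := by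
  have h : i1 = i2 := Subsingleton.elim _ _
  subst h
  rfl

open scoped Classical in
theorem stkAux (hS : StSTK2) (Z : Cyc α) : ∀ (m : ℕ) (ι : Type) (v : ℤ → ι), Cpt Z v →
    Z.n ≤ m + ((Finset.range Z.n).image fun i : ℕ => v i).card → ∃ η : ℤ → ℤ, HT Z v η := by
  intro m
  induction m with
  | zero =>
    intro ι v hv hm
    by_cases hinj : ∀ i j, v i = v j → (Z.n : ℤ) ∣ i - j
    · exact ⟨_, ht_inj Z v hinj⟩
    · exfalso
      obtain ⟨θ, h0, hn⟩ := hS α Z ι v hv hinj
      have h1 := card_step Z hv θ h0 hn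
      have h2 : ((Finset.range Z.n).image fun i : ℕ => (v i, hh Z v θ i)).card ≤ Z.n := by
        refine Finset.card_image_le.trans ?_
        rw [Finset.card_range]
      omega
  | succ m ih =>
    intro ι v hv hm
    by_cases hinj : ∀ i j, v i = v j → (Z.n : ℤ) ∣ i - j
    · exact ⟨_, ht_inj Z v hinj⟩
    · obtain ⟨θ, h0, hn⟩ := hS α Z ι v hv hinj
      have h1 := card_step Z hv θ h0 hn
      have hs := hh_succ Z v hv.per θ h0
      have hv' : Cpt Z (fun i : ℤ => (v i, hh Z v θ i)) := by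
        refine ⟨fun i => ?_, fun i j hc he => ?_, fun i j hc he => ?_, fun i j hc he => ?_⟩
        · beta_reduce
          rw [hv.per, hh_per]
        · simp only [Prod.mk.injEq] at he ⊢
          exact ⟨hv.c1 i j hc he.1, by rw [hs, hs, he.2, inc_c1 Z hv θ hc he.1]⟩
        · simp only [Prod.mk.injEq] at he ⊢
          refine ⟨hv.c2 i j hc he.1, ?_⟩
          have h3 := inc_c2 Z hv θ hc he.1
          have h4 := he.2
          rw [hs j] at h4
          rw [hs i]
          linarith
        · simp only [Prod.mk.injEq] at he ⊢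
          have h5 := hv.c3 i j hc he.1
          refine ⟨h5, ?_⟩
          have h3 := inc_c1 Z hv θ hc h5
          have h4 := he.2
          rw [hs i, hs j] at h4
          linarith
      obtain ⟨η', hη⟩ := ih (ι × ℤ) (fun i : ℤ => (v i, hh Z v θ i)) hv' (by
        have h2 : Z.n ≤ m +
            ((Finset.range Z.n).image fun i : ℕ => (v i, hh Z v θ i)).card := by omega
        rw [image_inst (Finset.range Z.n) (fun i : ℕ => (v i, hh Z v θ i))]
        exact h2)
      obtain ⟨M, hM⟩ : ∃ M : ℤ, ∀ i, |η' i| < M := by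
        refine ⟨∑ j ∈ Finset.range Z.n, |η' j| + 1, fun i => ?_⟩
        have hnp : (0 : ℤ) < Z.n := by exact_mod_cast Z.pos
        have hr0 := Int.emod_nonneg i hnp.ne'
        have hr1 := Int.emod_lt_of_pos i hnp
        obtain ⟨r, hr⟩ : ∃ r : ℕ, (r : ℤ) = i % Z.n := ⟨(i % Z.n).toNat, Int.toNat_of_nonneg hr0⟩
        have hrn : r < Z.n := by
          have : (r : ℤ) < Z.n := by rw [hr]; exact hr1
          exact_mod_cast this
        rw [per_mod η' Z.n hη.per i, ← hr]
        have := Finset.single_le_sum (f := fun j : ℕ => |η' (j : ℤ)|)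
          (fun j _ => abs_nonneg _) (Finset.mem_range.2 hrn)
        beta_reduce at this
        linarith
      set h := hh Z v θ with hhdef
      have hlt : ∀ i j, h i < h j → 2 * M * h i + η' i < 2 * M * h j + η' j := by
        intro i j hij
        have a1 := hM i
        have a2 := hM j
        rw [abs_lt] at a1 a2
        have hMpos : 0 < M := lt_of_le_of_lt (abs_nonneg _) (hM i)
        nlinarith
      have heq : ∀ i j, h i = h j → (2 * M * h i + η' i < 2 * M * h j + η' j ↔ η' i < η' j) := by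
        intro i j hij
        rw [hij]
        exact add_lt_add_iff_left _
      refine ⟨fun i => 2 * M * h i + η' i, ⟨fun i => ?_, fun i j he hη1 => ?_,
        fun i j he hc => ?_, fun i j he hc => ?_⟩⟩
      · beta_reduce
        rw [hη.per, hhdef, hh_per]
      · beta_reduce at hη1
        have hij : h i = h j := by
          rcases lt_trichotomy (h i) (h j) with h3 | h3 | h3
          · exact absurd hη1 (hlt i j h3).ne
          · exact h3
          · exact absurd hη1 (hlt j i h3).ne'
        refine hη.inj i j (by simp only [he, hij]) ?_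
        rw [hij] at hη1
        exact add_left_cancel hη1
      · beta_reduce
        have h3 : h (i + 1) - h (j + 1) = h i - h j := by
          rw [hs i, hs j, inc_c1 Z hv θ hc he]
          ring
        rcases lt_trichotomy (h i) (h j) with h4 | h4 | h4
        · exact iff_of_true (hlt _ _ h4) (hlt _ _ (by linarith))
        · rw [heq i j h4, heq (i + 1) (j + 1) (by linarith)]
          exact hη.mono i j (by simp only [he, h4]) hc
        · exact iff_of_false (hlt _ _ h4).not_gt (hlt (j + 1) (i + 1) (by linarith)).not_gt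
      · beta_reduce
        have h3 : h (i + 1) - h j = h i - h (j + 1) := by
          rw [hs i, hs j, inc_c2 Z hv θ hc he]
          ring
        rcases lt_trichotomy (h i) (h (j + 1)) with h4 | h4 | h4
        · exact iff_of_true (hlt _ _ h4) (hlt _ _ (by linarith))
        · rw [heq i (j + 1) h4, heq (i + 1) j (by linarith)]
          exact hη.monobar i j (by simp only [he, h4]) hc
        · exact iff_of_false (hlt _ _ h4).not_gt (hlt j (i + 1) (by linarith)).not_gt

end STKaux

open STKaux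

theorem tSTK : StSTK2 → StSTK := by
  intro hS α Z
  have hv : Cpt Z (fun _ : ℤ => ()) :=
    ⟨fun _ => rfl, fun _ _ _ _ => rfl, fun _ _ _ _ => rfl, fun _ _ _ _ => rfl⟩
  obtain ⟨η, hη⟩ := stkAux hS Z Z.n Unit (fun _ => ()) hv (Nat.le_add_right _ _)
  exact ⟨{ η := η
           per := hη.per
           inj := fun i j h => hη.inj i j rfl h
           mono := fun i j h => hη.mono i j rfl h
           monobar := fun i j h => hη.monobar i j rfl h }⟩

end Pool.Agent.Helper96.UT
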