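import Pool.Agent.Helper96.UT.StC

set_option autoImplicit false

namespace Pool.Agent.Helper96.UT

private theorem per_STK2 {α : Type} {Z : Cyc α} {ι : Type} {v : ℤ → ι} (hv : Cpt Z v) (i q : ℤ) :
    v (i + q * Z.n) = v i := by
  induction q with
  | zero => simp
  | succ q ih =>
    rw [← ih, ← hv.per (i + q * Z.n)]
    congr 1
    ring
  | pred q ih =>
    rw [← ih, ← hv.per (i + (-q - 1) * Z.n)]
    congr 1
    ring

/-- Every integer is a natural number below `n` modulo the period. -/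
private theorem red_STK2 {α : Type} (Z : Cyc α) (i : ℤ) :
    ∃ m : ℕ, m < Z.n ∧ ∃ q : ℤ, i = (m : ℤ) + q * Z.n := by
  have hn : (0 : ℤ) < Z.n := by exact_mod_cast Z.pos
  refine ⟨(i % Z.n).toNat, ?_, i / Z.n, ?_⟩
  · have h1 := Int.emod_nonneg i hn.ne'
    have h2 := Int.emod_lt_of_pos i hn
    omega
  · have h1 := Int.emod_nonneg i hn.ne'
    have h3 := Int.emod_add_mul_ediv i Z.n
    rw [Int.toNat_of_nonneg h1]
    linarith [mul_comm (i / (Z.n : ℤ)) (Z.n : ℤ)]

/-- The linear algebra: more edges than vertices give a cochain which vanishes on a given chain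
and is not a coboundary. -/
private theorem lin_STK2 {E V : Type} [Fintype E] [Fintype V] [Nonempty V]
    (hc : Fintype.card V + 1 ≤ Fintype.card E) (L : (E → ℚ) →ₗ[ℚ] ℚ) (hd tl : E → V) :
    ∃ θ : E → ℚ, L θ = 0 ∧ ¬ ∃ g : V → ℚ, ∀ e, θ e = g (hd e) - g (tl e) := by
  classical
  let D : (V → ℚ) →ₗ[ℚ] (E → ℚ) :=
    { toFun := fun g e => g (hd e) - g (tl e)
      map_add' := by intro g h; funext e; simp; ring
      map_smul' := by intro r g; funext e; simp; ring }
  by_contra hno
  push Not at hno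
  have hle : LinearMap.ker L ≤ LinearMap.range D := by
    intro θ hθ
    obtain ⟨g, hg⟩ := hno θ (LinearMap.mem_ker.mp hθ)
    exact ⟨g, by funext e; exact (hg e).symm⟩
  have h1 : Module.finrank ℚ (LinearMap.ker L) ≤ Module.finrank ℚ (LinearMap.range D) :=
    Submodule.finrank_mono hle
  have h2 := LinearMap.finrank_range_add_finrank_ker L
  have h3 := LinearMap.finrank_range_add_finrank_ker D
  have h4 : Module.finrank ℚ (LinearMap.range L) ≤ 1 := by
    have := Submodule.finrank_le (LinearMap.range L)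
    simpa using this
  have h5 : 1 ≤ Module.finrank ℚ (LinearMap.ker D) := by
    rw [Submodule.one_le_finrank_iff]
    intro hbot
    have hm : (fun _ : V => (1 : ℚ)) ∈ LinearMap.ker D := by
      rw [LinearMap.mem_ker]
      funext e
      change (1 : ℚ) - 1 = 0
      ring
    rw [hbot, Submodule.mem_bot] at hm
    obtain ⟨x⟩ := (inferInstance : Nonempty V)
    have := congrFun hm x
    simp at this
  rw [Module.finrank_fintype_fun_eq_card] at h2 h3
  omega

theorem tSTK2 : StSTK1 → StSTK2 := by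
  classical
  intro h1 α Z ι v hv hni
  have hcard := (h1 α Z ι v hv).resolve_left hni
  have hn : 0 < Z.n := Z.pos
  -- the two finite sets
  obtain ⟨V, hV⟩ : ∃ V : Finset ι, V = (Finset.range Z.n).image fun i : ℕ => v i := ⟨_, rfl⟩
  obtain ⟨E, hE⟩ : ∃ E : Finset (ι × α), E = (Finset.range Z.n).image fun i : ℕ => edv Z v i :=
    ⟨_, rfl⟩
  have hcard' : V.card + 1 ≤ E.card := by
    rw [hV, hE]
    exact hcard
  have mV : ∀ i : ℤ, v i ∈ V := by
    intro i
    obtain ⟨m, hm, q, hq⟩ := red_STK2 Z i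
    rw [hV, Finset.mem_image]
    exact ⟨m, Finset.mem_range.mpr hm, by rw [hq, per_STK2 hv]⟩
  have mE : ∀ i : ℕ, i ∈ Finset.range Z.n → edv Z v i ∈ E := by
    intro i hi
    rw [hE, Finset.mem_image]
    exact ⟨i, hi, rfl⟩
  have hrep0 : ∀ p ∈ E, ∃ i : ℕ, edv Z v i = p := by
    intro p hp
    rw [hE, Finset.mem_image] at hp
    obtain ⟨i, _, hi⟩ := hp
    exact ⟨i, hi⟩
  have hrep : ∀ e : E, ∃ i : ℕ, edv Z v i = e.1 := fun e => hrep0 e.1 e.2
  choose rep hrep using hrep
  let hd : E → V := fun e => if (Z.c (rep e)).2 then ⟨v (rep e + 1), mV _⟩ else ⟨v (rep e), mV _⟩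
  let tl : E → V := fun e => if (Z.c (rep e)).2 then ⟨v (rep e), mV _⟩ else ⟨v (rep e + 1), mV _⟩
  let ex : (E → ℚ) → ι × α → ℚ := fun θ p => if h : p ∈ E then θ ⟨p, h⟩ else 0
  have exadd : ∀ θ θ' p, ex (θ + θ') p = ex θ p + ex θ' p := by
    intro θ θ' p
    by_cases h : p ∈ E <;> simp [ex, h]
  have exsmul : ∀ (r : ℚ) θ p, ex (r • θ) p = r * ex θ p := by
    intro r θ p
    by_cases h : p ∈ E <;> simp [ex, h]
  let L : (E → ℚ) →ₗ[ℚ] ℚ :=
    { toFun := fun θ => ∑ i ∈ Finset.range Z.n,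
        (if (Z.c i).2 then ex θ (edv Z v i) else - ex θ (edv Z v i))
      map_add' := by
        intro θ θ'
        rw [← Finset.sum_add_distrib]
        refine Finset.sum_congr rfl fun i _ => ?_
        rw [exadd]
        split_ifs <;> ring
      map_smul' := by
        intro r θ
        rw [RingHom.id_apply, smul_eq_mul, Finset.mul_sum]
        refine Finset.sum_congr rfl fun i _ => ?_
        rw [exsmul]
        split_ifs <;> ring }
  haveI : Nonempty V := ⟨⟨v 0, mV 0⟩⟩
  obtain ⟨θ, hL, hθ⟩ := lin_STK2 (E := E) (V := V) (by simpa using hcard') L hd tl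
  -- clear the denominators
  obtain ⟨N, hN, hz⟩ : ∃ N : ℚ, N ≠ 0 ∧ ∀ e : E, ∃ z : ℤ, (z : ℚ) = N * θ e := by
    refine ⟨((∏ e : E, (θ e).den : ℕ) : ℚ), ?_, ?_⟩
    · rw [Nat.cast_ne_zero]
      exact Finset.prod_ne_zero_iff.mpr fun e _ => (θ e).den_ne_zero
    · intro e
      obtain ⟨k, hk⟩ := Finset.dvd_prod_of_mem (fun e : E => (θ e).den) (Finset.mem_univ e)
      refine ⟨k * (θ e).num, ?_⟩
      rw [hk]
      have h2 : ((θ e).den : ℚ) * θ e = (θ e).num := by
        rw [mul_comm]
        exact Rat.mul_den_eq_num (θ e)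
      push_cast
      rw [← h2]
      ring
  choose z hz using hz
  let θ' : ι × α → ℤ := fun p => if h : p ∈ E then z ⟨p, h⟩ else 0
  have hθ' : ∀ p, (θ' p : ℚ) = N * ex θ p := by
    intro p
    by_cases h : p ∈ E
    · simp [θ', ex, h, hz]
    · simp [θ', ex, h]
  refine ⟨θ', ?_, ?_⟩
  · have hc : ((∑ i ∈ Finset.range Z.n,
        (if (Z.c i).2 then θ' (edv Z v i) else - θ' (edv Z v i)) : ℤ) : ℚ) = N * L θ := by
      change _ = N * (∑ i ∈ Finset.range Z.n,
        (if (Z.c i).2 then ex θ (edv Z v i) else - ex θ (edv Z v i)))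
      rw [Int.cast_sum, Finset.mul_sum]
      refine Finset.sum_congr rfl fun i _ => ?_
      split_ifs
      · exact hθ' _
      · push_cast
        rw [hθ']
        ring
    rw [hL, mul_zero] at hc
    exact_mod_cast hc
  · rintro ⟨f, hf⟩
    apply hθ
    refine ⟨fun x => f x.1 / N, ?_⟩
    intro e
    have h2 := hf (rep e)
    have h3 : ex θ e.1 = θ e := by
      have : e.1 ∈ E := e.2
      simp [ex]
    have h4 := hθ' e.1
    rw [h3] at h4
    rw [hrep e] at h2
    have h5 : θ e = (θ' e.1 : ℚ) / N := by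
      rw [h4]
      field_simp
    by_cases hb : (Z.c (rep e)).2 = true
    · rw [if_pos hb] at h2
      simp only [hd, tl, if_pos hb]
      rw [h5, h2]
      ring
    · rw [if_neg hb] at h2
      simp only [hd, tl, if_neg hb]
      push_cast at h2
      rw [h5]
      have : (θ' e.1 : ℚ) = f (v (rep e)) - f (v (rep e + 1)) := by linarith
      rw [this]
      ring

end Pool.Agent.Helper96.UT
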