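import Pool.Agent.Helper96.UT.StI

/-!
Project UT, module ROOT: the primitive root of a power.
-/

set_option autoImplicit false

namespace Pool.Agent.Helper96.UT

/-- A word repeated periodically. -/
def per_ROOT {α : Type} (u : List (α × Bool)) (x0 : α × Bool) (i : ℤ) : α × Bool :=
  u.getD (i % u.length).toNat x0

theorem per_add_ROOT {α : Type} (u : List (α × Bool)) (x0 : α × Bool) (i q : ℤ) :
    per_ROOT u x0 (i + q * u.length) = per_ROOT u x0 i := by
  simp [per_ROOT]

theorem per_nat_ROOT {α : Type} (u : List (α × Bool)) (x0 : α × Bool) (m : ℕ)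
    (h : m < u.length) : per_ROOT u x0 m = u[m] := by
  have : ((m : ℤ) % u.length).toNat = m := by
    rw [Int.emod_eq_of_lt (by positivity) (by exact_mod_cast h)]
    simp
  rw [per_ROOT, this, List.getD_eq_getElem _ _ h]

theorem seg_u_ROOT {α : Type} (u : List (α × Bool)) (x0 : α × Bool) (q : ℤ) :
    seg (per_ROOT u x0) (q * u.length) u.length = u := by
  refine List.ext_getElem (by simp) fun m h1 h2 => ?_
  simp only [seg, List.getElem_map, List.getElem_range]
  rw [add_comm, per_add_ROOT, per_nat_ROOT u x0 m h2]

theorem seg_rep_ROOT {α : Type} (u : List (α × Bool)) (x0 : α × Bool) (k : ℕ) :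
    seg (per_ROOT u x0) 0 (k * u.length) = (List.replicate k u).flatten := by
  induction k with
  | zero => simp
  | succ k ih =>
    rw [Nat.succ_mul, seg_add, ih, List.replicate_succ', List.flatten_append]
    congr 1
    have := seg_u_ROOT u x0 (k : ℤ)
    simp only [zero_add, List.flatten_cons, List.flatten_nil, List.append_nil]
    push_cast
    exact this

theorem tROOT : StROOT := by
  intro α u k hk hu hzip _
  obtain ⟨x0, u', rfl⟩ : ∃ x0 u', u = x0 :: u' := List.exists_cons_of_ne_nil hu
  set u := x0 :: u' with hudef
  have hlen : 0 < u.length := by simp [hudef]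
  set c := per_ROOT u x0 with hc
  have hseg := seg_rep_ROOT u x0 k
  rw [← hc] at hseg
  -- the letters of the power
  have hL : ∀ (m : ℕ) (h : m < ((List.replicate k u).flatten).length),
      ((List.replicate k u).flatten)[m] = c m := by
    intro m h
    have h' : m < (seg c 0 (k * u.length)).length := by rw [hseg]; exact h
    have : ((List.replicate k u).flatten)[m] = (seg c 0 (k * u.length))[m] := by
      congr 1
      exact hseg.symm
    rw [this]
    simp [seg]
  have hLlen : ((List.replicate k u).flatten).length = k * u.length := by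
    rw [← hseg, seg_length]
  -- the periods
  let P : AddSubgroup ℤ :=
    { carrier := {d | ∀ i, c (i + d) = c i}
      zero_mem' := fun i => by simp
      add_mem' := fun {a b} ha hb i => by
        have := hb (i + a)
        rw [← add_assoc, this, ha]
      neg_mem' := fun {a} ha i => by
        have := ha (i + -a)
        rw [neg_add_cancel_right] at this
        exact this.symm }
  have hPmem : ∀ d : ℤ, d ∈ P ↔ ∀ i, c (i + d) = c i := fun d => Iff.rfl
  obtain ⟨a, ha⟩ := Int.subgroup_cyclic P
  have hdvd : ∀ d : ℤ, d ∈ P ↔ a ∣ d := by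
    intro d
    rw [ha, ← AddSubgroup.zmultiples_eq_closure, Int.mem_zmultiples_iff]
  have huP : (u.length : ℤ) ∈ P := by
    rw [hPmem]
    intro i
    have := per_add_ROOT u x0 i 1
    rwa [one_mul] at this
  have hau : a ∣ (u.length : ℤ) := (hdvd _).1 huP
  have ha0 : a ≠ 0 := by
    rintro rfl
    have := zero_dvd_iff.1 hau
    have : u.length = 0 := by exact_mod_cast this
    omega
  have hnat : (a.natAbs : ℤ) ∣ (u.length : ℤ) := Int.natAbs_dvd.2 hau
  have hnat' : a.natAbs ∣ u.length := by exact_mod_cast hnat
  obtain ⟨j, hj⟩ := hnat'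
  have hred : ∀ i, c (i + 1) ≠ bar (c i) := by
    intro i h
    have hpos : (0 : ℤ) < u.length := by exact_mod_cast hlen
    obtain ⟨m, hm⟩ : ∃ m : ℕ, (m : ℤ) = i % u.length :=
      ⟨(i % u.length).toNat, Int.toNat_of_nonneg (Int.emod_nonneg _ hpos.ne')⟩
    have hmlt : m < u.length := by
      have := Int.emod_lt_of_pos i hpos
      rw [← hm] at this
      exact_mod_cast this
    have hi : i = m + (i / u.length) * u.length := by
      rw [hm, mul_comm]
      exact (Int.emod_add_mul_ediv i u.length).symm
    have e1 : c i = c m := by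
      rw [hi]; exact per_add_ROOT u x0 m _
    have e2 : c (i + 1) = c ((m : ℤ) + 1) := by
      have : i + 1 = ((m : ℤ) + 1) + (i / u.length) * u.length := by
        nth_rewrite 1 [hi]; ring
      rw [this]; exact per_add_ROOT u x0 _ _
    rw [e1, e2] at h
    have hm1 : m + 1 < ((List.replicate k u).flatten).length := by
      rw [hLlen]
      have : 2 * u.length ≤ k * u.length := Nat.mul_le_mul_right _ hk
      omega
    have hm0 : m < ((List.replicate k u).flatten).length := by omega
    have hmem : (((List.replicate k u).flatten)[m], ((List.replicate k u).flatten)[m + 1]) ∈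
        ((List.replicate k u).flatten).zip ((List.replicate k u).flatten).tail := by
      rw [List.mem_iff_getElem]
      refine ⟨m, ?_, ?_⟩
      · rw [List.length_zip, List.length_tail]
        omega
      · rw [List.getElem_zip, List.getElem_tail]
    have := hzip _ hmem
    apply this
    rw [hL m hm0, hL (m + 1) hm1]
    push_cast
    rw [h]
    refine ⟨rfl, ?_⟩
    simp [bar]
  have hj1 : 1 ≤ j := by
    rcases j with _ | j
    · rw [mul_zero] at hj; omega
    · omega
  have hper : ∀ i, c (i + (a.natAbs : ℤ)) = c i := by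
    have : (a.natAbs : ℤ) ∈ P := (hdvd _).2 (Int.dvd_natAbs.2 dvd_rfl)
    exact (hPmem _).1 this
  have hprim : ∀ d : ℤ, (∀ i, c (i + d) = c i) → ((a.natAbs : ℕ) : ℤ) ∣ d := by
    intro d hd
    exact Int.natAbs_dvd.2 ((hdvd d).1 ((hPmem d).2 hd))
  let Z : Cyc α := ⟨c, a.natAbs, Int.natAbs_pos.2 ha0, hper, hred, hprim⟩
  refine ⟨Z, j, hj1, ?_, ?_⟩
  · have : j * k * Z.n = k * u.length := by
      change j * k * a.natAbs = k * u.length
      rw [hj]; ring
    rw [this]
    exact hseg.symm
  · have h1 : u = seg c 0 u.length := by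
      have := seg_u_ROOT u x0 0
      rw [zero_mul] at this
      exact this.symm
    have h2 : FreeGroup.mk u = pre Z.c (0 + (j : ℤ) * Z.n) := by
      rw [h1, mk_seg, pre_zero, inv_one, one_mul]
      congr 1
      change (0 : ℤ) + u.length = 0 + (j : ℤ) * (a.natAbs : ℕ)
      rw [hj]
      push_cast
      ring
    rw [h2, Z.pre_add_mul, pre_zero, mul_one, zpow_natCast]

end Pool.Agent.Helper96.UT
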