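import Pool.Agent.Helper96.UT.Defs

/-!
Project UT (MP_2c90c1_al), statements of part C (complexes), with proofs in the docstrings.

Notation of the docstrings: `c, n, s` = `Z.c, Z.n, Z.s`; `v ⋆ g` = `act v g`; `pre i` = `pre Z.c i`;
the vertex `(u, k)` of the cell `u` is `u ⋆ pre k` (`k : ℤ`), its step `(u, k)` goes from the vertex
`(u, k)` to the vertex `(u, k + 1)` with the letter `c k` and has the edge `e(u,k) := ed (u ⋆ pre k) (c k)`.
By `Cyc.pre_add_mul`, `(u, k + q n)` is the vertex `(u ⋆ s ^ q, k)`; in particular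
`(u, k + q l n) = (u, k)` for `u ∈ C` (`fix`), and `u ⋆ s ^ q ∈ C` for all `q : ℤ` (`cyc`, and
`s⁻¹ = s ^ (l-1)` on `C`; `l ≥ 1`).  A STRAND at a vertex `x` is a pair `(u, i)`, `u ∈ C`, `0 ≤ i < n`
(or `i : ℤ` modulo `(u, i + n) ~ (u ⋆ s, i)`) with `u ⋆ pre i = x`.  At a given vertex the phase
`i mod n` determines the strand.
-/

set_option autoImplicit false

namespace Pool.Agent.Helper96.UT

variable {α : Type} {Z : Cyc α} {l : ℕ} {Ω : Type} [MulAction (FreeGroup α) Ω]

open scoped Classical in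
/-- The orbit of a cell under `s` (the cells with the same boundary). -/
noncomputable def orb (Z : Cyc α) (l : ℕ) (u : Ω) : Finset Ω :=
  (Finset.range l).image fun q : ℕ => act u (Z.s ^ q)

open scoped Classical in
/-- The vertices on cells. -/
noncomputable def VC (K : Cx Z l Ω) : Finset Ω :=
  (K.C ×ˢ Finset.range Z.n).image fun p => act p.1 (pre Z.c (p.2 : ℤ))

open scoped Classical in
/-- The edges on cells. -/
noncomputable def EC (K : Cx Z l Ω) : Finset (Ω × α) :=
  (K.C ×ˢ Finset.range Z.n).image fun p => ed (act p.1 (pre Z.c (p.2 : ℤ))) (Z.c (p.2 : ℤ))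

open scoped Classical in
/-- The number of cells up to `s`. -/
noncomputable def NC (K : Cx Z l Ω) : ℕ := (K.C.image fun u => orb Z l u).card

/-- The vertex strand `(u, k)` is the highest one at its vertex. -/
def TopV (K : Cx Z l Ω) (η : ℤ → ℤ) (u : Ω) (k : ℤ) : Prop :=
  ∀ u' ∈ K.C, ∀ k' : ℤ, act u' (pre Z.c k') = act u (pre Z.c k) → η k' ≤ η k

/-- The height of a step at the tail of its (oriented) edge. -/
def tht (Z : Cyc α) (η : ℤ → ℤ) (k : ℤ) : ℤ := if (Z.c k).2 then η k else η (k + 1)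

/-- The step `(u, k)` is the highest one on its edge. -/
def TopE (K : Cx Z l Ω) (η : ℤ → ℤ) (u : Ω) (k : ℤ) : Prop :=
  ∀ u' ∈ K.C, ∀ k' : ℤ, ed (act u' (pre Z.c k')) (Z.c k') = ed (act u (pre Z.c k)) (Z.c k) →
    tht Z η k' ≤ tht Z η k

open scoped Classical in
/-- The beginnings of the top arcs. -/
noncomputable def Bd (K : Cx Z l Ω) (η : ℤ → ℤ) : Finset (Ω × ℕ) :=
  (K.C ×ˢ Finset.range Z.n).filter fun p => TopE K η p.1 p.2 ∧ ¬ TopV K η p.1 p.2

/-! ### Stackings -/

/-- A labelling of the positions by vertices of a graph in which the cyclic word is a closed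
path. -/
structure Cpt (Z : Cyc α) {ι : Type} (v : ℤ → ι) : Prop where
  per : ∀ i, v (i + Z.n) = v i
  c1 : ∀ i j, Z.c i = Z.c j → v i = v j → v (i + 1) = v (j + 1)
  c2 : ∀ i j, Z.c i = bar (Z.c j) → v i = v (j + 1) → v (i + 1) = v j
  c3 : ∀ i j, Z.c i = Z.c j → v (i + 1) = v (j + 1) → v i = v j

/-- The unoriented edge of the step `i`. -/
def edv (Z : Cyc α) {ι : Type} (v : ℤ → ι) (i : ℤ) : ι × α :=
  if (Z.c i).2 then (v i, (Z.c i).1) else (v (i + 1), (Z.c i).1)

open scoped Classical in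
/-- STK1 (no dependence).  In a labelling which is not injective there are more edges than
vertices.

PROOF.  Two steps `i, j` have the same edge iff (a) `c i = c j` and `v i = v j` (use `c3`), or
(b) `c i = bar (c j)` and `v i = v (j+1)` (then `v (i+1) = v j` by `c2`); so `v i` and the letter
`c i` determine the edge.  Let `V, E` be the images of `v`, `edv` on `{0..n-1}`.  An END at the
vertex `x` is a letter `y` such that some position `i` with `v i = x` has `y = c i` (outgoing) or
`y = bar (c (i-1))` (incoming).  The ends at `x` correspond to the edges at `x`: let `P` be the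
set of the pairs `(v i, c i)` and `(v (i+1), bar (c i))`, `0 ≤ i < n`.  The map `P → E`,
`(v i, c i) ↦ edv i`, `(v (i+1), bar (c i)) ↦ edv i`, is exactly two to one, so `|P| = 2 |E|`
(each edge `(x, a)` has the two preimages: the pair with the letter `(a, true)` at `x` and the pair
with the letter `(a, false)` at the other end; formally `P` splits into the pairs with letter
`(·, true)` and those with letter `(·, false)`, the maps `E → P`: edge of `i` ↦ forward pair,
backward pair are injective with images these two parts).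
Every `x ∈ V`, `x = v i`, has the two ends `c i` and `bar (c (i-1))`, which are different by `red`.
Suppose `|E| ≤ |V|`.  Then `2|V| ≤ |P| = 2|E| ≤ 2|V|`, so every vertex has exactly two ends: (*) if
`v i = v j` then `{c i, bar (c (i-1))} = {c j, bar (c (j-1))}`.  Let `v i = v j`.  We show `n ∣ i - j`.
Case 1: `c i = c j`.  Then `v (i+1) = v (j+1)` by `c1`, and by (*) at `i+1, j+1`: both contain
`bar (c i) = bar (c j)` and the other elements agree: `c (i+1) = c (j+1)` (both differ from
`bar (c i)` by `red`).  By induction `c (i+k) = c (j+k)` for all `k ≥ 0`, and by periodicity for all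
`k : ℤ` (add a multiple of `n`); so `c (k + (j-i)) = c k` for all `k` and `n ∣ j - i` by `prim`.
Case 2: `c i ≠ c j`, so `c i = bar (c (j-1))`.  Claim: `c (i+k) = bar (c (j-1-k))` and
`v (i+k) = v (j-k)` for all `k ≥ 0`.  Step: `v (i+k+1) = v (j-k-1)` by `c2`; by (*) at these
positions: the ends are `c (i+k+1), bar (c (i+k)) = c (j-1-k)` and `c (j-k-1), bar (c (j-k-2))`; they
agree as sets, the element `c (j-1-k)` is common, the others give
`c (i+k+1) = bar (c (j-k-2))`.  Adding a multiple of `n` to `j` we may assume `j - 1 - i ≥ 0`.  If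
`j - 1 - i = 2k` then `c (i+k) = bar (c (i+k))`, impossible (`bar_ne`).  If `j - 2 - i = 2k`, `k ≥ 0`
(or `k = -1`, excluded by choosing `j` large) then `c (i+k) = bar (c (i+k+1))`, against `red`. -/
def StSTK1 : Prop := ∀ (α : Type) (Z : Cyc α) (ι : Type) (v : ℤ → ι), Cpt Z v →
  (∀ i j, v i = v j → (Z.n : ℤ) ∣ i - j) ∨
    ((Finset.range Z.n).image fun i : ℕ => v i).card + 1 ≤
      ((Finset.range Z.n).image fun i : ℕ => edv Z v i).card

/-- STK2 (to prove: `theorem tSTK2 : StSTK1 → StSTK2`).  A cochain which vanishes on the closed path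
and is not a coboundary.

PROOF.  Let `V, E` be the two images in STK1, `|E| ≥ |V| + 1`.  In the rational vector space `E → ℚ`
consider the subspace `A` of the `θ` with `Σ_{i<n} ± θ(edv i) = 0` (sign `+` if `(c i).2`), of
dimension `≥ |E| - 1`, and the image `B` of the linear map `δ : (V → ℚ) → (E → ℚ)`,
`(δ f)(edv i) = ± (f (v (i+1)) - f (v i))` (for the edge `(x, a)`: `f(head) - f(tail)`; the head is
well defined by `c1, c2`; one can choose for every edge an index `i < n` representing it).  `δ`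
kills the constants, so `dim B ≤ |V| - 1 < |E| - 1 ≤ dim A`.  So there is `θ ∈ A`, `θ ∉ B`.
Multiply by a common denominator to get integral values; extend by `0`.  If `f : ι → ℚ` satisfied
the equations then the restriction of `f` to `V` would show `θ ∈ B`. -/
def StSTK2 : Prop := ∀ (α : Type) (Z : Cyc α) (ι : Type) (v : ℤ → ι), Cpt Z v →
  ¬ (∀ i j, v i = v j → (Z.n : ℤ) ∣ i - j) →
  ∃ θ : ι × α → ℤ,
    ∑ i ∈ Finset.range Z.n, (if (Z.c i).2 then θ (edv Z v i) else - θ (edv Z v i)) = 0 ∧
    ¬ ∃ f : ι → ℚ, ∀ i : ℤ, (((if (Z.c i).2 then θ (edv Z v i) else - θ (edv Z v i)) : ℤ) : ℚ) =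
      f (v (i + 1)) - f (v i)

/-- STK (to prove: `theorem tSTK : StSTK2 → StSTK`).  Every cyclic word which is not a proper power
has a stacking.

PROOF.  Claim: for every `v` with `Cpt Z v` there is `η : ℤ → ℤ`, periodic, such that
(inj) `v i = v j`, `η i = η j` imply `n ∣ i - j`; (m) `v i = v j`, `c i = c j` imply
`η i < η j ↔ η (i+1) < η (j+1)`; (m') `v i = v (j+1)`, `c i = bar (c j)` imply
`η i < η (j+1) ↔ η (i+1) < η j`.  For a constant `v` this is `Stk Z`.  Induction on
`n - |image of v|`.  If `v` is injective mod `n`, take `η = 0`: in (m) `i ≡ j` and both sides are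
false; in (m') `i ≡ j+1`, then `c (j+1) = c i = bar (c j)` contradicts `red`.  Otherwise take `θ`
from STK2, let `h : ℤ → ℤ` be the function with `h 0 = 0`, `h (i+1) = h i ± θ(edv i)`; it is periodic
because the sum over a period is `0`.  `v' i := (v i, h i)` satisfies `Cpt` (equal edges give equal
increments, opposite traversals opposite increments).  The image of `v'` is larger: the projection
of the image of `v'` to that of `v` is onto; if the cardinalities were equal it would be injective,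
so `h i = f (v i)` for some `f : ι → ℚ`, and `± θ(edv i) = f (v (i+1)) - f (v i)`, against STK2.  Let
`η'` be the heights for `v'` (induction) and `M` with `|η' i| < M` for all `i` (periodic).  Put
`η i := 2 M h i + η' i`; so `h i < h j` implies `η i < η j`.
(inj): `η i = η j` gives `h i = h j`, `η' i = η' j`, so `v' i = v' j`.  (m): `v i = v j`, `c i = c j`:
`h (i+1) - h i = h (j+1) - h j`; if `h i ≠ h j` both comparisons are decided by `h` in the same
way; if `h i = h j` both are decided by `η'`, use (m) for `v'`.  (m') in the same way: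
`h (i+1) - h i = h j - h (j+1)`. -/
def StSTK : Prop := ∀ (α : Type) (Z : Cyc α), Nonempty (Stk Z)

/-! ### Counting -/

/-- LIN (no dependence).  The Euler characteristic inequality.

PROOF.  Let `X` be the rational vector space `EC K → ℚ`, `A ≤ X` the subspace of the `φ` such that
the sum along the boundary `s ^ l` of every cell is `0` (extend `φ` by `0` to `φ' : Ω × α → ℚ`; the
condition is `Sm φ' u (seg c 0 (l n)) = 0`, `u ∈ C`).  The condition for `u ⋆ s` is the same as for
`u` (the boundary paths are cyclic rotations: `seg c 0 (l n + n) = seg c 0 n ++ seg c n (l n)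
= seg c 0 (l n) ++ seg c (l n) n`, periodicity of `c`, and `u ⋆ s ^ l = u`), so it depends only on
`orb u` and `A` is the kernel of a linear map to a space of dimension `NC K`: `dim A ≥ |EC| - NC`.
By `sc` every `φ ∈ A` satisfies `Sm φ' v w = 0` for all closed paths with edges in `E`.  Then there
is `f : Ω → ℚ` with `φ'(e) = f(head) - f(tail)` for all `e ∈ E`, i.e.
`(if x.2 then φ' (ed v x) else - φ' (ed v x)) = f (v ⋆ lt x) - f v` whenever `ed v x ∈ E`: choose in
every class of the equivalence relation joined by a path in `E` a base point and let `f v` be the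
sum along a path from the base point to `v` (independent of the path: two such paths form a closed
path, `Sm_append`, `Sm_invRev`, `InE_invRev`).  So `A` is contained in the image of the linear map
`δ : (VC → ℚ) → X` (both ends of an edge of `EC` are in `VC`, and `EC ⊆ E`), which kills the constants;
`VC` is not empty, so `dim (im δ) ≤ |VC| - 1`.  Hence `|EC| - NC ≤ |VC| - 1`. -/
def StLIN : Prop := ∀ (α : Type) (Z : Cyc α) (l : ℕ), 1 ≤ l → ∀ (Ω : Type)
  [MulAction (FreeGroup α) Ω] (K : Cx Z l Ω), K.C.Nonempty →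
  (EC K).card + 1 ≤ (VC K).card + NC K

/-- TOP (no dependence).  The number of the beginnings of the top arcs.

PROOF.  `S := C ×ˢ range n`.  Every strand `(u, k)`, `k : ℤ`, is equivalent to exactly one element of
`S` (`k = i + q n`, `(u, k) ~ (u ⋆ s^q, i)`), with the same vertex, edge and heights (`η` periodic).
(1) `{p ∈ S | TopV p}` is in bijection with `VC` by `p ↦` vertex: at a vertex of `VC` there are
finitely many strands in `S`, at least one, choose the one with the largest `η`; it is unique,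
because `η i = η j` for `i, j < n` gives `i = j` (`inj`) and then `u` is determined
(`u ⋆ pre i = u' ⋆ pre i`).
(2) `{p ∈ S | TopE p}` is in bijection with `EC` by `p ↦` edge: two steps `(u,i)`, `(u',j)` in `S` of
the same edge with the same `tht` are equal: by `ed_eq` either they have the same direction
(`c i = c j`, the same vertex, `tht` equal means `η i = η j` or `η (i+1) = η (j+1)`, so
`i ≡ j`), or the opposite direction, `c j = bar (c i)`, and then `tht` equal means `η i = η (j+1)` or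
`η (i+1) = η j`, so `i ≡ j+1` or `j ≡ i+1`, impossible by `red` (`c (j+1) = bar (c j)`).
(3) `TopV u k` implies `TopE u k`: let `(u',k')` be a step of the same edge.  By `ed_eq` either it
has the same vertex and letter: `η k' ≤ η k` by `TopV`; if `(c k).2` this is the claim, otherwise
the claim is `η (k'+1) ≤ η (k+1)`, equivalent by `mono`.  Or `(u', k'+1)` has the vertex of `(u,k)`
(that is `u ⋆ pre k = (u' ⋆ pre k') ⋆ lt (c k')`) and `c k = bar (c k')`: `η (k'+1) ≤ η k` by `TopV`.
If `(c k).2`, then `tht k = η k`, `(c k').2` is false, `tht k' = η (k'+1)`, fine.  If not,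
`tht k = η (k+1)`, `tht k' = η k'`, and `η k' ≤ η (k+1)` is equivalent by `monobar` (for `k, k'`:
`η k < η (k'+1) ↔ η (k+1) < η k'`).
So `|EC| = |{TopE}| = |{TopE, not TopV}| + |{TopV}| = |Bd| + |VC|`. -/
def StTOP : Prop := ∀ (α : Type) (Z : Cyc α) (η : Stk Z) (l : ℕ), 1 ≤ l → ∀ (Ω : Type)
  [MulAction (FreeGroup α) Ω] (K : Cx Z l Ω),
  (Bd K η.η).card + (VC K).card = (EC K).card

open scoped Classical in
/-- ARC (no dependence).  A cell with at most one top arc.

PROOF.  Fix `u ∈ C`, `d := |orb u|`.  `orb u` is the orbit of `u` under `s` and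
`u ⋆ s^q = u ↔ d ∣ q` (cyclic orbit of order dividing `l`; e.g. `d` is the least positive period,
then `orb u = {u ⋆ s^q | q < d}`, all distinct).  `T k := TopV K η u k`, `B k := TopE K η u k ∧ ¬ T k`.
Facts: (i) `T k → TopE u k` (see TOP (3)); (ii) `T (k+1) → TopE u k`: let `(u',k')` be a step of the
edge of `(u,k)`; same direction: the vertex `(u',k'+1)` is the vertex `(u,k+1)`, so
`η (k'+1) ≤ η (k+1)`, and `tht k' ≤ tht k` directly or by `mono`; opposite direction: the vertex
`(u',k')` is the vertex `(u,k+1)`, `η k' ≤ η (k+1)`, and the claim follows directly or by `monobar`.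
(iii) all is periodic with period `d n` in `k`, and
`#{k mod d n | B k} = #(Bd filtered by orb u)` (the residues `k mod d n` correspond to the pairs
`(u', i)`, `u' ∈ orb u`, `i < n`: `k = i + q n`, `u' = u ⋆ s^q`).  (iv) if `η k₀` is the maximum of
`η`, then `T (k₀ + q n)` for all `q`.
Counting the steps `k mod d n` with `TopE`: their number minus the number of `k` with `T k` is the
number of `B k` by (i) and also the number of `B' k := TopE u k ∧ ¬ T (k+1)` by (ii).  So
`#B' = #B` (mod `d n`).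
If this number is `0`: `T k → TopE u k → T (k+1)`, so `T k` for all `k ≥ k₀`, by periodicity for
all `k`.
If it is `1`: let `k*` be an index with `B' k*`; every index with `B'` is `≡ k* mod d n`.  Let `q` be
such that `k₀ + q n ≤ k* < k₀ + (q+1) n`.  Start at `k₀ + (q+1) n =: k₁`, `T k₁` by (iv); for
`k₁ ≤ k < k₁ + (d-1) n = k₀ + (q + d) n` we have `k* < k < k* + d n`, so not `B' k`, so
`T k → T (k+1)`.  So `T (k₁ + t)` for all `0 ≤ t ≤ (d-1) n`. -/
def StARC : Prop := ∀ (α : Type) (Z : Cyc α) (η : Stk Z) (l : ℕ), 1 ≤ l → ∀ (Ω : Type)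
  [MulAction (FreeGroup α) Ω] (K : Cx Z l Ω), ∀ u ∈ K.C,
  (((Bd K η.η).filter fun p => p.1 ∈ orb Z l u).card = 0 → ∀ k, TopV K η.η u k) ∧
  (((Bd K η.η).filter fun p => p.1 ∈ orb Z l u).card = 1 → ∃ k₀ : ℤ, ∀ t : ℕ,
    t ≤ ((orb Z l u).card - 1) * Z.n → TopV K η.η u (k₀ + t))

/-- GOOD (to prove: `theorem tGOOD : StSTK → StLIN → StTOP → StARC → StGOOD`).  There is an isolated
cell, or there are two cells with long arcs of vertices which lie on no other cell.

PROOF.  Let `η` be a stacking and `η⁻ := -η` (also a stacking: `mono` with `i, j` exchanged;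
`monobar`: `η i ≠ η (j+1)` and `η (i+1) ≠ η j` when `c i = bar (c j)`, by `inj` and `red`).
If `TopV η u k` and `TopV (-η) u k`, then `Sing K u k`: a strand `(u',k')` at the vertex has
`η k' ≤ η k` and `-η k' ≤ -η k`, so `η k' = η k`, `k' = k + q n` by `inj`, and
`u' ⋆ pre (k + q n) = (u' ⋆ s^q) ⋆ pre k` gives `u = u' ⋆ s^q`.
Let `t(O)`, `b(O)` for an orbit `O = orb u` be the numbers of elements of `Bd η`, `Bd (-η)` over
`O`.  The orbits partition `C`, so `Σ_O t(O) = |Bd η| = |EC| - |VC| ≤ N - 1` (`N = NC K`) by TOP and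
LIN, and the same for `b`.  So `Σ_O (t(O) + b(O)) ≤ 2 N - 2`.  If some `t(O) + b(O) = 0`, ARC gives
`TopV (±η) u k` for all `k`: first alternative.  Otherwise at least two orbits have
`t(O) + b(O) = 1`; ARC: for such an orbit one of the two is top for all `k` and the other one on an
arc `k₀ + t`, `t ≤ (d-1) n`: `Sing` there. -/
def StGOOD : Prop := ∀ (α : Type) (Z : Cyc α) (l : ℕ), 1 ≤ l → ∀ (Ω : Type)
  [MulAction (FreeGroup α) Ω] (K : Cx Z l Ω), K.C.Nonempty →
  (∃ u ∈ K.C, ∀ k, Sing K u k) ∨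
  ∃ u₁ ∈ K.C, ∃ u₂ ∈ K.C, (∀ q : ℤ, act u₁ (Z.s ^ q) ≠ u₂) ∧
    (∃ k₁ : ℤ, ∀ t : ℕ, t ≤ ((orb Z l u₁).card - 1) * Z.n → Sing K u₁ (k₁ + t)) ∧
    (∃ k₂ : ℤ, ∀ t : ℕ, t ≤ ((orb Z l u₂).card - 1) * Z.n → Sing K u₂ (k₂ + t))

/-- FREE (no dependence).  The edge of a step which starts at a single vertex is traversed by no
other step.

PROOF.  By `ed_eq` (from the step `(u,k)` to the step `(u',k')`): either the vertices `(u',k')`,
`(u,k)` agree, then `Sing` gives the claim; or `u' ⋆ pre k' = (u ⋆ pre k) ⋆ lt (c k)` and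
`c k' = bar (c k)`.  In this case
`u' ⋆ pre (k'+1) = (u' ⋆ pre k') ⋆ lt (c k') = u ⋆ pre k`, so `Sing` gives `k' + 1 = k + q n`, hence
`c k = c (k'+1)` (`per_mul`), and `c k' = bar (c k)` gives `c (k'+1) = bar (c k')`, against `red`. -/
def StFREE : Prop := ∀ (α : Type) (Z : Cyc α) (l : ℕ) (Ω : Type)
  [MulAction (FreeGroup α) Ω] (K : Cx Z l Ω) (u : Ω) (k : ℤ), Sing K u k → ∀ u' ∈ K.C, ∀ k' : ℤ,
  ed (act u' (pre Z.c k')) (Z.c k') = ed (act u (pre Z.c k)) (Z.c k) →
  ∃ q : ℤ, k' = k + q * Z.n ∧ u = act u' (Z.s ^ q)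

/-- PER (to prove: `theorem tPER : StFREE → StPER`).  A cell with a single vertex has the period
exactly `l`.

PROOF.  The set of `j : ℤ` with `u ⋆ s^j = u` is a subgroup `d ℤ` (`d ≥ 1`) containing `l`; `l = d m`.  Let
`Q := ZMod m` and `φ := Pi.single e₀ 1` (or `fun e => if e = e₀ then 1 else 0`), `e₀` the edge of the
step `(u,k)`.  The boundary path of a cell `u'` consists of the steps `(u', k')`, `0 ≤ k' < l n`.  By
FREE such a step has the edge `e₀` iff `k' = k + q n`, `u = u' ⋆ s^q` for some `q`, and then its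
letter is `c k`.  If `u'` is not in the orbit of `u`, there is none.  If `u' = u ⋆ s^j`: `q ≡ -j mod d`,
`0 ≤ k + q n < l n`: there are `l / d = m` such `q`.  So `Sm φ u' (seg c 0 (l n)) = ± m = 0` in `ZMod m`
and `sc` applies: closed paths in `E` have sum `0`.  The path `seg c k (d n)` from the vertex
`(u,k)` is closed (`u ⋆ pre (k + d n) = (u ⋆ s^d) ⋆ pre k`) and contains the edge `e₀` exactly once
(the step `k`; another one would be `k' = k + q n`, `0 < q < d`, `u = u ⋆ s^q`), so `± 1 = 0` in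
`ZMod m`, `m = 1`, `d = l`. -/
def StPER : Prop := ∀ (α : Type) (Z : Cyc α) (l : ℕ), 1 ≤ l → ∀ (Ω : Type)
  [MulAction (FreeGroup α) Ω] (K : Cx Z l Ω), ∀ u ∈ K.C, ∀ k : ℤ, Sing K u k →
  ∀ j : ℤ, act u (Z.s ^ j) = u → (l : ℤ) ∣ j

/-- CNT (to prove: `theorem tCNT : StGOOD → StPER → StCNT`).  A long arc of single vertices whose
interior avoids a given vertex `v`.

PROOF.  GOOD.  First alternative, `u` with `Sing K u k` for all `k`: if `v = u ⋆ pre k` for some `k`,
take this `k`: the vertices `u ⋆ pre (k + t)`, `0 < t < (l-1) n` are different from `v`: otherwise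
`Sing K u k` with `u' = u`, `k' = k + t` gives `t = q n`, `u = u ⋆ s^q`, `0 < q < l - 1`, against PER.
If `v` is not of this form, take `k = 0`.
Second alternative: `|orb u_i| = l` by PER (`Sing K u_i k_i` with `t = 0`; the elements
`u_i ⋆ s^q`, `q < l`, are distinct).  If `v` were an interior vertex of both arcs,
`v = u₁ ⋆ pre (k₁ + t) = u₂ ⋆ pre (k₂ + t')`, then `Sing` gives `u₁ = u₂ ⋆ s^q`, i.e. `u₂ = u₁ ⋆ s^(-q)`,
excluded. -/
def StCNT : Prop := ∀ (α : Type) (Z : Cyc α) (l : ℕ), 1 ≤ l → ∀ (Ω : Type)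
  [MulAction (FreeGroup α) Ω] (K : Cx Z l Ω), K.C.Nonempty → ∀ v : Ω,
  ∃ u ∈ K.C, ∃ k : ℤ, (∀ t : ℕ, t ≤ (l - 1) * Z.n → Sing K u (k + t)) ∧
    ∀ t : ℕ, 0 < t → t < (l - 1) * Z.n → act u (pre Z.c (k + t)) ≠ v

/-! ### Induction over complexes -/

/-- REM (to prove: `theorem tREM : StFREE → StPER → StREM`).  Removal of a cell and of a free edge.

PROOF.  `e₀` = edge of the step `(u,k)`.  `K'.C := K.C` without the orbit `{u ⋆ s^q}`, `K'.E := K.E \ {e₀}`.
`cyc`, `fix` clear (the orbit is closed under `s` and `s⁻¹`).  `sub`: by FREE no step of a cell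
outside the orbit has the edge `e₀`.  `sc`: let `φ` vanish on the boundaries of the cells of `K'`.
Let `φ₀` be `φ` with the value at `e₀` replaced by `0`, `x := Sm φ₀ u (seg c 0 (l n))`, and `φ₁` be `φ`
with the value at `e₀` replaced by `- x` if `(c k).2`, by `x` otherwise.  The boundary path of `u`
contains the edge `e₀` exactly once, in the step with letter `c k` (FREE and PER: the steps
`k' = k + q n`, `0 ≤ k' < l n`, with `u = u ⋆ s^q`, i.e. `l ∣ q`: exactly one).  So
`Sm φ₁ u (seg c 0 (l n)) = x - x = 0` (`Sm_add` with `φ₁ = φ₀ + (value at e₀)`), and the same for the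
cells `u ⋆ s^q` (rotated boundary, see LIN).  The other cells do not contain `e₀`, `Sm φ₁ = Sm φ = 0`.
So `φ₁` satisfies the hypothesis of `K.sc`; for a closed path in `K.E \ {e₀}`:
`Sm φ = Sm φ₁ = 0` (`Sm_congr`).  Cardinality: `u` is removed. -/
def StREM : Prop := ∀ (α : Type) (Z : Cyc α) (l : ℕ), 1 ≤ l → ∀ (Ω : Type)
  [MulAction (FreeGroup α) Ω] (K : Cx Z l Ω), ∀ u ∈ K.C, ∀ k : ℤ, Sing K u k →
  ∃ K' : Cx Z l Ω, K'.C.card < K.C.card ∧
    K'.E = K.E \ {ed (act u (pre Z.c k)) (Z.c k)}

/-- The word has no factor `x, bar x`. -/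
def Rd (w : List (α × Bool)) : Prop := ∀ (i : ℕ) (h : i + 1 < w.length), w[i + 1] ≠ bar w[i]

/-- The path `w` from `v` is a reduced closed path in `E` without repeated vertices. -/
structure Simple (E : Set (Ω × α)) (v : Ω) (w : List (α × Bool)) : Prop where
  inE : InE E v w
  closed : act v (FreeGroup.mk w) = v
  rd : Rd w
  inj : ∀ i j : ℕ, i < j → j < w.length → vt v w i ≠ vt v w j

/-- COV (no dependence).  The edges of a simple closed path lie on cells.

PROOF.  The edge of the step `i` of `w` is `e_i := ed (vt v w i) w[i]`.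
(1) `e_i = e_j` with `i < j < w.length` is impossible: by `ed_eq` either
`vt j = vt i`, excluded by `inj`, or `vt j = vt (i+1)` and `w[j] = bar w[i]` (note
`vt (i+1) = vt i ⋆ lt w[i]`).  Then `j = i+1` by `inj` (both `< w.length`), against `rd`.
(2) Suppose that no cell contains `e_i`.  Let `φ : Ω × α → ℤ` be `1` at `e_i`, `0` elsewhere.  Then
`Sm φ` is `0` on the boundaries of the cells, so `Sm φ v w = 0` by `sc`; but by (1) it is
`± 1` (exactly one step has this edge). -/
def StCOV : Prop := ∀ (α : Type) (Z : Cyc α) (l : ℕ) (Ω : Type)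
  [MulAction (FreeGroup α) Ω] (K : Cx Z l Ω) (v : Ω) (w : List (α × Bool)), Simple K.E v w →
  ∀ (i : ℕ) (h : i < w.length), ∃ u ∈ K.C, ∃ k : ℤ,
    ed (act u (pre Z.c k)) (Z.c k) = ed (vt v w i) w[i]

/-- FWD (to prove: `theorem tFWD : StCOV → StFWD`).  A simple closed path which enters a long arc
of single vertices runs through it.

PROOF.  Let `e₀` be the edge of the step `(u,k)`, `i` the given index, `m := (l-1) n`.
(1) For `t < m`: `i + t < w.length`, `vt (i+t) = u ⋆ pre (k+t)`, `w[i+t] = c (k+t)`.  Induction on `t`;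
`t = 0` is the hypothesis.  Step, `t + 1 < m`: `vt (i+t+1) = vt (i+t) ⋆ lt w[i+t] = u ⋆ pre (k+t+1)`.  It is
not `v` (interior), so `i + t + 1 ≠ w.length` (the last vertex is `v` by `closed`), hence
`i+t+1 < w.length`.  By COV there are `u' ∈ C`, `k'` with `ed (u' ⋆ pre k') (c k') = ed (vt (i+t+1)) w[i+t+1]`.
`ed_eq`: either `vt (i+t+1) = u' ⋆ pre k'`, `w[i+t+1] = c k'`; then `Sing K u (k+t+1)` gives
`k' = k+t+1 + q n`, so `w[i+t+1] = c (k+t+1)`.  Or `vt (i+t+1) = (u' ⋆ pre k') ⋆ lt (c k') = u' ⋆ pre (k'+1)` and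
`w[i+t+1] = bar (c k')`; then `Sing` gives `k'+1 = k+t+1+q n`, `c k' = c (k+t) = w[i+t]`, and
`w[i+t+1] = bar w[i+t]` contradicts `rd`.
(2) So `w = w.take i ++ seg c k m ++ w.drop (i+m)`.  The steps of `w` other than the step `i` do not
have the edge `e₀` (see COV (1)), so `w.take i` and `w.drop (i+m)` are paths in `E \ {e₀}`
(here `m ≥ 1`, because `l ≥ 2`, `n ≥ 1`). -/
def StFWD : Prop := ∀ (α : Type) (Z : Cyc α) (l : ℕ), 2 ≤ l → ∀ (Ω : Type)
  [MulAction (FreeGroup α) Ω] (K : Cx Z l Ω) (v : Ω) (w : List (α × Bool)), Simple K.E v w →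
  ∀ u ∈ K.C, ∀ k : ℤ, (∀ t : ℕ, t ≤ (l - 1) * Z.n → Sing K u (k + t)) →
  (∀ t : ℕ, 0 < t → t < (l - 1) * Z.n → act u (pre Z.c (k + t)) ≠ v) →
  ∀ (i : ℕ) (h : i < w.length), vt v w i = act u (pre Z.c k) → w[i] = Z.c k →
  ∃ w₁ w₂ : List (α × Bool), w = w₁ ++ seg Z.c k ((l - 1) * Z.n) ++ w₂ ∧
    act v (FreeGroup.mk w₁) = act u (pre Z.c k) ∧
    InE (K.E \ {ed (act u (pre Z.c k)) (Z.c k)}) v w₁ ∧
    InE (K.E \ {ed (act u (pre Z.c k)) (Z.c k)})
      (act v (FreeGroup.mk (w₁ ++ seg Z.c k ((l - 1) * Z.n)))) w₂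

/-- STEP (to prove: `theorem tSTEP : StFREE → StPER → StREM → StFWD → StSTEP`).  The induction step
for a path which runs through the arc in the forward direction.

PROOF.  Let `w = w₁ ++ x ++ w₂`, `x = seg c k ((l-1) n)` from FWD, `e₀` the edge of the step `(u,k)`,
`y := FreeGroup.invRev (seg c k n)`, `w' := w₁ ++ y' ++ w₂` with `y' := invRev (seg c (k - n) n)`
(as `c` is periodic `seg c (k-n) n = seg c k n`).
(1) `w'` is a closed path in `E \ {e₀}` from `v`: `y'` runs from the vertex `(u,k)` backwards over the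
steps `k-1, …, k-n` to the vertex `(u, k-n)`, which is the vertex `(u, k + (l-1) n)` (`u ⋆ s^l = u`), the
end of `x`.  These steps do not have the edge `e₀`: by FREE, `k - t = k + q n` and `u = u ⋆ s^q` for
`1 ≤ t ≤ n` give `q = -1`, and PER gives `l ∣ 1`, impossible.
(`InE_invRev` for the path `seg c (k-n) n` from the vertex `(u, k-n)`.)
(2) `w'` is a path in `Γ` from `g`: let `g' := g * mk w₁`.  `x` is a path in `Γ` from `g'`, and
`(l-1) n ≥ n`, so `seg c k n` (a prefix of `x`) is, and by `Rig`: `g' = h * pre k`, `h ∈ H`.  So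
`seg c (k-n) n` from `h * pre (k-n)` is a path in `Γ` (`InG_seg`), and its inverse from
`h * pre k = g'` ends at `h * pre (k-n) = h * s⁻¹ * pre k`.  The path `w₂` is in `Γ` from
`g' * mk x = h * pre (k + (l-1) n) = h * s^(l-1) * pre k`, which differs from `h * s⁻¹ * pre k` by the
left factor `h s^l h⁻¹ ∈ H` (`InG_mul`).
(3) By REM there is `K'` with fewer cells and `K'.E = K.E \ {e₀}`; the hypothesis `ih` gives
`g * mk w' * g⁻¹ ∈ NH`.  And `g * mk w * g⁻¹ = (g' * mk x * (mk y')⁻¹ * g'⁻¹) * (g * mk w' * g⁻¹)`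
with `g' * mk x * (mk y')⁻¹ * g'⁻¹ = h * pre k * (pre k)⁻¹ s^(l-1) (pre k) * (pre k)⁻¹ * s * pre k * (pre k)⁻¹ h⁻¹
= h * s^l * h⁻¹ ∈ NH` (`mk_seg`, `Cyc.pre_add_mul`). -/
def StSTEP : Prop := ∀ (α : Type) (Z : Cyc α) (l : ℕ), 2 ≤ l → ∀ H : Subgroup (FreeGroup α),
  Z.s ∈ H → Rig H Z → ∀ (Ω : Type) [MulAction (FreeGroup α) Ω] (K : Cx Z l Ω),
  (∀ K' : Cx Z l Ω, K'.C.card < K.C.card → ∀ (g : FreeGroup α) (v : Ω) (w : List (α × Bool)),
    InG H Z.c g w → InE K'.E v w → act v (FreeGroup.mk w) = v →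
      g * FreeGroup.mk w * g⁻¹ ∈ NH H Z l) →
  ∀ (g : FreeGroup α) (v : Ω) (w : List (α × Bool)), InG H Z.c g w → Simple K.E v w →
  ∀ u ∈ K.C, ∀ k : ℤ, (∀ t : ℕ, t ≤ (l - 1) * Z.n → Sing K u (k + t)) →
  (∀ t : ℕ, 0 < t → t < (l - 1) * Z.n → act u (pre Z.c (k + t)) ≠ v) →
  ∀ (i : ℕ) (h : i < w.length), vt v w i = act u (pre Z.c k) → w[i] = Z.c k →
  g * FreeGroup.mk w * g⁻¹ ∈ NH H Z l

/-- IND (to prove: `theorem tIND : StCNT → StREM → StCOV → StSTEP → StIND`).  Paths in `Γ` which are
closed in a complex.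

PROOF.  Strong induction on `K.C.card`, then on `w.length`.  `w = []`: trivial.
(a) If `w` is not `Rd`: `w = w₁ ++ [x, bar x] ++ w₂`; `w₁ ++ w₂` is shorter, a path in `Γ` from `g`
and in `E` from `v`, with the same product.
(b) If two vertices agree, `vt i = vt j`, `i < j < w.length`: `w = w₁ ++ w₂ ++ w₃` with
`w₁ = w.take i`, `w₁ ++ w₂ = w.take j`.  `w₂` is closed at `vt i`, `0 < |w₂| < |w|`, a path in `Γ` from
`g₁ = g * mk w₁`; so `g₁ * mk w₂ * g₁⁻¹ ∈ NH`.  `w₁ ++ w₃` is shorter and closed at `v`; it is a path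
in `Γ`: `w₃` is in `Γ` from `g₁ * mk w₂ = (g₁ * mk w₂ * g₁⁻¹) * g₁` and the first factor is in
`NH ≤ H`, so `w₃` is in `Γ` from `g₁` (`InG_mul`).  So `g * mk w₁ * mk w₃ * g⁻¹ ∈ NH`.  The product of
the two elements is `g * mk w * g⁻¹`.
(c) Otherwise `Simple K.E v w` and `w ≠ []`.  By COV (for `i = 0`) `K.C` is not empty.  CNT for `v`
gives `u, k`; `e₀` := edge of the step `(u,k)`.
If no step of `w` has the edge `e₀` then `w` is a path in `E \ {e₀}`; use REM and the induction
hypothesis for `K'`.  Otherwise `ed (vt i) w[i] = e₀` for some `i`; `ed_eq`: either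
`vt i = u ⋆ pre k`, `w[i] = c k`: STEP.  Or `vt i = (u ⋆ pre k) ⋆ lt (c k)`, `w[i] = bar (c k)`.  Then let
`w' := invRev w`, `g' := g * mk w`: `w'` is a closed path from `v` in `E`, in `Γ` from `g'`
(`InG_invRev`), simple (`vt v w' j = vt v w (|w| - j)`, `w'[j] = bar w[|w| - 1 - j]`; for `j = 0` note
`vt |w| = v = vt 0`), and its step `|w| - 1 - i` starts at `vt (i+1) = u ⋆ pre k` with the letter `c k`.
STEP gives `g' * (mk w)⁻¹ * g'⁻¹ ∈ NH`, which is `g * (mk w)⁻¹ * g⁻¹`, the inverse of the claim. -/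
def StIND : Prop := ∀ (α : Type) (Z : Cyc α) (l : ℕ), 2 ≤ l → ∀ H : Subgroup (FreeGroup α),
  Z.s ∈ H → Rig H Z → ∀ (Ω : Type) [MulAction (FreeGroup α) Ω] (K : Cx Z l Ω)
  (g : FreeGroup α) (v : Ω) (w : List (α × Bool)),
    InG H Z.c g w → InE K.E v w → act v (FreeGroup.mk w) = v →
      g * FreeGroup.mk w * g⁻¹ ∈ NH H Z l

/-- EXZ (no dependence).  Every element of the normal closure is closed in a complex.

PROOF.  `x` is a product of finitely many elements `g_i s^l g_i⁻¹` and their inverses (`x` is in the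
subgroup closure of the conjugates; it lies in the closure of a finite subset).  Let `L` be the
subgroup generated by the `g_i s^l g_i⁻¹`, `i` in a finite set.  `Ω := FreeGroup α ⧸ L` with the left
action, `v := 1·L`; `v ⋆ g = g⁻¹ L`.  `E := univ`, `C := {(s^q)⁻¹ g_i⁻¹ L : i, 0 ≤ q < l}` (the points
`v ⋆ (g_i s^q)`).  `cyc`: `v ⋆ (g_i s^l) = (s^l)⁻¹ g_i⁻¹ L = g_i⁻¹ (g_i s^l g_i⁻¹)⁻¹ L = g_i⁻¹ L = v ⋆ g_i`.
`fix`: the same (`s^q` commutes with `s^l`).  `sc`: let `φ` vanish on the boundaries of the cells.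
For a word `w` the sum `Sm φ y w` depends only on `y` and `mk w` (it is invariant under insertion of
`x, bar x`; e.g. define `Φ y : FreeGroup α → Q` by `Sm φ y (reduced word)` or use `FreeGroup.Red`).
`F := {g | v ⋆ g = v ∧ Sm φ v w = 0 for every (one) word w with mk w = g}` is a subgroup and contains
the generators `g_i s^l g_i⁻¹` of `L` (the sum along `g_i` cancels, the cell gives `0`), so it is `L`.
A closed path `w` at `y = v ⋆ g` gives the closed path `g w g⁻¹` at `v`, so `g * mk w * g⁻¹ ∈ L` and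
`Sm φ y w = 0`.  (If `α` has no decidable equality use `classical`.)  `act v x = v` as `x ∈ L`. -/
def StEXZ : Prop := ∀ (α : Type) (Z : Cyc α) (l : ℕ), 1 ≤ l →
  ∀ x ∈ Subgroup.normalClosure ({Z.s ^ l} : Set (FreeGroup α)),
  ∃ (Ω : Type) (_ : MulAction (FreeGroup α) Ω) (K : Cx Z l Ω) (v : Ω),
    K.E = Set.univ ∧ act v x = v

end Pool.Agent.Helper96.UT
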