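import Mathlib

/-!
Project UT (MP_2c90c1_al): the group of units of `Inv⟨A | u^k = 1⟩`, `k ≥ 2`, `u^k` cyclically
reduced, is a one-relator group.  Definitions and elementary lemmas (all proved).

Conventions.  Words are lists of letters `x : α × Bool` (`(a, true)` is `a`, `(a, false)` is
`a⁻¹`), `bar x` is the inverse letter, `lt x` the letter as an element of the free group.
A right action of the free group on `Ω` is written `act v g := g⁻¹ • v`, so
`act v (g * h) = act (act v g) h`.  The step from `v` with the letter `x` goes from `v` to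
`act v (lt x)`; the underlying unoriented edge is `ed v x : Ω × α`.
-/

set_option autoImplicit false

namespace Pool.Agent.Helper96.UT

variable {α : Type}

/-- The inverse letter. -/
def bar (x : α × Bool) : α × Bool := (x.1, !x.2)

/-- The letter as an element of the free group. -/
def lt (x : α × Bool) : FreeGroup α := FreeGroup.mk [x]

@[simp] theorem bar_bar (x : α × Bool) : bar (bar x) = x := by
  simp [bar]

theorem bar_ne (x : α × Bool) : bar x ≠ x := by
  rcases x with ⟨a, b⟩
  cases b <;> simp [bar]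

theorem bar_inj {x y : α × Bool} (h : bar x = bar y) : x = y := by
  rw [← bar_bar x, h, bar_bar]

@[simp] theorem lt_bar (x : α × Bool) : lt (bar x) = (lt x)⁻¹ := by
  simp [bar, lt, FreeGroup.invRev]

theorem mk_nil : (FreeGroup.mk ([] : List (α × Bool))) = 1 := rfl

theorem mk_cons (x : α × Bool) (w : List (α × Bool)) :
    FreeGroup.mk (x :: w) = lt x * FreeGroup.mk w := by
  simp [lt]

theorem mk_append (w w' : List (α × Bool)) :
    FreeGroup.mk (w ++ w') = FreeGroup.mk w * FreeGroup.mk w' := by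
  simp

theorem mk_invRev (w : List (α × Bool)) :
    FreeGroup.mk (FreeGroup.invRev w) = (FreeGroup.mk w)⁻¹ := by
  simp

theorem invRev_cons (x : α × Bool) (w : List (α × Bool)) :
    FreeGroup.invRev (x :: w) = FreeGroup.invRev w ++ [bar x] := by
  simp [FreeGroup.invRev, bar]

theorem invRev_append (w w' : List (α × Bool)) :
    FreeGroup.invRev (w ++ w') = FreeGroup.invRev w' ++ FreeGroup.invRev w := by
  simp [FreeGroup.invRev]

/-- `pre c i` is the product of the letters `c 0, …, c (i-1)` of the bi-infinite word `c`, extended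
to negative `i`: `pre c 0 = 1`, `pre c (i + 1) = pre c i * lt (c i)`. -/
def pre (c : ℤ → α × Bool) : ℤ → FreeGroup α
  | Int.ofNat k => ((List.range k).map fun j : ℕ => lt (c (j : ℤ))).prod
  | Int.negSucc k => (((List.range (k + 1)).map fun j : ℕ => lt (c (Int.negSucc k + (j : ℤ)))).prod)⁻¹

theorem pre_zero (c : ℤ → α × Bool) : pre c 0 = 1 := rfl

theorem pre_succ (c : ℤ → α × Bool) (i : ℤ) : pre c (i + 1) = pre c i * lt (c i) := by
  rcases i with k | k
  · change pre c (Int.ofNat (k + 1)) = _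
    simp only [pre]
    rw [List.range_succ, List.map_append, List.prod_append]
    simp
  · rcases k with _ | k
    · change pre c 0 = _
      simp [pre]
    · have e : (Int.negSucc (k + 1) + 1 : ℤ) = Int.negSucc k := rfl
      rw [e]
      simp only [pre]
      rw [List.range_succ_eq_map (n := k + 1), List.map_cons, List.prod_cons, List.map_map]
      have e2 : ((fun j : ℕ => lt (c (Int.negSucc (k + 1) + (j : ℤ)))) ∘ Nat.succ) =
          fun j : ℕ => lt (c (Int.negSucc k + (j : ℤ))) := by
        funext j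
        have : (Int.negSucc (k + 1) + ((Nat.succ j : ℕ) : ℤ)) = Int.negSucc k + (j : ℤ) := by
          push_cast
          rw [← e]
          ring
        simp only [Function.comp_apply, this]
      rw [e2]
      simp

/-- The factor of length `k` of `c` which starts at `i`. -/
def seg (c : ℤ → α × Bool) (i : ℤ) (k : ℕ) : List (α × Bool) :=
  (List.range k).map fun j : ℕ => c (i + (j : ℤ))

@[simp] theorem seg_zero (c : ℤ → α × Bool) (i : ℤ) : seg c i 0 = [] := rfl

theorem seg_succ (c : ℤ → α × Bool) (i : ℤ) (k : ℕ) :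
    seg c i (k + 1) = seg c i k ++ [c (i + k)] := by
  simp [seg, List.range_succ]

theorem seg_cons (c : ℤ → α × Bool) (i : ℤ) (k : ℕ) :
    seg c i (k + 1) = c i :: seg c (i + 1) k := by
  rw [seg, List.range_succ_eq_map, List.map_cons, List.map_map]
  congr 1
  · simp
  · unfold seg
    congr 1
    funext j
    simp only [Function.comp_apply]
    congr 1
    push_cast
    ring

theorem seg_add (c : ℤ → α × Bool) (i : ℤ) (k k' : ℕ) :
    seg c i (k + k') = seg c i k ++ seg c (i + k) k' := by
  induction k' with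
  | zero => simp
  | succ k' ih =>
    rw [← add_assoc, seg_succ, ih, seg_succ, List.append_assoc]
    congr 3
    push_cast
    rw [add_assoc]

@[simp] theorem seg_length (c : ℤ → α × Bool) (i : ℤ) (k : ℕ) : (seg c i k).length = k := by
  simp [seg]

theorem mk_seg (c : ℤ → α × Bool) (i : ℤ) (k : ℕ) :
    FreeGroup.mk (seg c i k) = (pre c i)⁻¹ * pre c (i + k) := by
  induction k with
  | zero => simp [mk_nil]
  | succ k ih =>
    rw [seg_succ, mk_append, ih]
    have : (i + ((k + 1 : ℕ) : ℤ)) = (i + k) + 1 := by push_cast; ring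
    rw [this, pre_succ, mul_assoc]
    rfl

/-- A cyclic word of length `n`, given as a bi-infinite periodic word: cyclically reduced and not
a proper power. -/
structure Cyc (α : Type) where
  /-- the letters -/
  c : ℤ → α × Bool
  /-- the length -/
  n : ℕ
  pos : 0 < n
  per : ∀ i, c (i + n) = c i
  red : ∀ i, c (i + 1) ≠ bar (c i)
  prim : ∀ d : ℤ, (∀ i, c (i + d) = c i) → (n : ℤ) ∣ d

/-- The word `s` as an element of the free group. -/
def Cyc.s (Z : Cyc α) : FreeGroup α := pre Z.c Z.n

theorem Cyc.per_mul (Z : Cyc α) (i q : ℤ) : Z.c (i + q * Z.n) = Z.c i := by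
  induction q with
  | zero => simp
  | succ q ih =>
    rw [← ih, ← Z.per (i + q * Z.n)]
    congr 1
    ring
  | pred q ih =>
    rw [← ih, ← Z.per (i + (-q - 1) * Z.n)]
    congr 1
    ring

theorem Cyc.pre_add (Z : Cyc α) (i : ℤ) : pre Z.c (i + Z.n) = Z.s * pre Z.c i := by
  induction i with
  | zero => simp [pre_zero, Cyc.s]
  | succ i ih =>
    have e : ((i : ℤ) + 1 + Z.n) = (i + Z.n) + 1 := by ring
    rw [e, pre_succ, ih, Z.per, pre_succ, mul_assoc]
  | pred i ih =>
    have e : (-(i : ℤ) + Z.n) = (-i - 1 + Z.n) + 1 := by ring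
    have e2 : (-(i : ℤ)) = (-i - 1) + 1 := by ring
    rw [e, pre_succ, Z.per] at ih
    nth_rewrite 3 [e2] at ih
    rw [pre_succ, ← mul_assoc] at ih
    exact mul_right_cancel ih

theorem Cyc.pre_add_mul (Z : Cyc α) (i q : ℤ) :
    pre Z.c (i + q * Z.n) = Z.s ^ q * pre Z.c i := by
  induction q with
  | zero => simp
  | succ q ih =>
    have e : (i + ((q : ℤ) + 1) * Z.n) = (i + q * Z.n) + Z.n := by ring
    rw [e, Z.pre_add, ih, ← mul_assoc, ← zpow_one_add, add_comm]
  | pred q ih =>
    have e : (i + (-(q : ℤ)) * Z.n) = (i + (-q - 1) * Z.n) + Z.n := by ring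
    rw [e, Z.pre_add] at ih
    have e2 : Z.s ^ (-(q : ℤ)) = Z.s * Z.s ^ (-(q : ℤ) - 1) := by
      rw [← zpow_one_add]
      congr 1
      ring
    rw [e2, mul_assoc] at ih
    exact mul_left_cancel ih

section act

variable {Ω : Type} [MulAction (FreeGroup α) Ω]

/-- The right action. -/
def act (v : Ω) (g : FreeGroup α) : Ω := g⁻¹ • v

@[simp] theorem act_one (v : Ω) : act v (1 : FreeGroup α) = v := by simp [act]

theorem act_mul (v : Ω) (g h : FreeGroup α) : act v (g * h) = act (act v g) h := by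
  simp [act, mul_smul]

theorem act_inj {v v' : Ω} {g : FreeGroup α} (h : act v g = act v' g) : v = v' :=
  smul_left_cancel _ h

theorem act_inv_eq {v v' : Ω} {g : FreeGroup α} (h : act v g = v') : act v' g⁻¹ = v := by
  rw [← h, ← act_mul, mul_inv_cancel, act_one]

/-- The unoriented edge of a step. -/
def ed (v : Ω) (x : α × Bool) : Ω × α := if x.2 then (v, x.1) else (act v (lt x), x.1)

theorem ed_bar (v : Ω) (x : α × Bool) : ed (act v (lt x)) (bar x) = ed v x := by
  rcases x with ⟨a, b⟩
  cases b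
  · simp [ed, bar]
  · have : act (act v (lt (a, true))) (lt (a, false)) = v := by
      have : (a, false) = bar (a, true) := rfl
      rw [this, lt_bar, ← act_mul, mul_inv_cancel, act_one]
    simp [ed, bar, this]

theorem ed_eq {v v' : Ω} {x x' : α × Bool} (h : ed v x = ed v' x') :
    (v' = v ∧ x' = x) ∨ (v' = act v (lt x) ∧ x' = bar x) := by
  rcases x with ⟨a, b⟩
  rcases x' with ⟨a', b'⟩
  cases b <;> cases b' <;> simp only [ed, if_true, Bool.false_eq_true, if_false, Prod.mk.injEq] at h
  · obtain ⟨h1, rfl⟩ := h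
    exact Or.inl ⟨(act_inj h1).symm, rfl⟩
  · obtain ⟨h1, rfl⟩ := h
    exact Or.inr ⟨h1.symm, rfl⟩
  · obtain ⟨h1, rfl⟩ := h
    refine Or.inr ⟨?_, rfl⟩
    have := act_inv_eq h1.symm
    rw [← this]
    congr 1
  · obtain ⟨h1, rfl⟩ := h
    exact Or.inl ⟨h1.symm, rfl⟩

/-- The path `w` from `v` uses only edges of `E`. -/
def InE (E : Set (Ω × α)) : Ω → List (α × Bool) → Prop
  | _, [] => True
  | v, x :: w => ed v x ∈ E ∧ InE E (act v (lt x)) w

theorem InE_append (E : Set (Ω × α)) (v : Ω) (w w' : List (α × Bool)) :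
    InE E v (w ++ w') ↔ InE E v w ∧ InE E (act v (FreeGroup.mk w)) w' := by
  induction w generalizing v with
  | nil => simp [InE, mk_nil]
  | cons x w ih =>
    simp only [List.cons_append, InE, ih, mk_cons, act_mul, and_assoc]

theorem InE_invRev {E : Set (Ω × α)} {v : Ω} {w : List (α × Bool)} (h : InE E v w) :
    InE E (act v (FreeGroup.mk w)) (FreeGroup.invRev w) := by
  induction w generalizing v with
  | nil => simp [InE, FreeGroup.invRev]
  | cons x w ih =>
    rw [invRev_cons, InE_append, mk_cons, act_mul]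
    refine ⟨ih h.2, ?_⟩
    rw [← act_mul, mk_invRev, mul_inv_cancel, act_one]
    exact ⟨by rw [ed_bar]; exact h.1, trivial⟩

theorem InE_mono {E E' : Set (Ω × α)} (hE : E ⊆ E') {v : Ω} {w : List (α × Bool)}
    (h : InE E v w) : InE E' v w := by
  induction w generalizing v with
  | nil => trivial
  | cons x w ih => exact ⟨hE h.1, ih h.2⟩

theorem InE_univ (v : Ω) (w : List (α × Bool)) : InE (Set.univ : Set (Ω × α)) v w := by
  induction w generalizing v with
  | nil => trivial
  | cons x w ih => exact ⟨trivial, ih _⟩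

variable {Q : Type} [AddCommGroup Q]

/-- The sum of `φ` along the path `w` from `v` (with sign `-` for backward steps). -/
def Sm (φ : Ω × α → Q) : Ω → List (α × Bool) → Q
  | _, [] => 0
  | v, x :: w => (if x.2 then φ (ed v x) else - φ (ed v x)) + Sm φ (act v (lt x)) w

theorem Sm_append (φ : Ω × α → Q) (v : Ω) (w w' : List (α × Bool)) :
    Sm φ v (w ++ w') = Sm φ v w + Sm φ (act v (FreeGroup.mk w)) w' := by
  induction w generalizing v with
  | nil => simp [Sm, mk_nil]
  | cons x w ih =>
    simp only [List.cons_append, Sm, ih, mk_cons, act_mul, add_assoc]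

theorem Sm_invRev (φ : Ω × α → Q) (v : Ω) (w : List (α × Bool)) :
    Sm φ (act v (FreeGroup.mk w)) (FreeGroup.invRev w) = - Sm φ v w := by
  induction w generalizing v with
  | nil => simp [Sm, FreeGroup.invRev]
  | cons x w ih =>
    rw [invRev_cons, Sm_append, mk_cons, act_mul, ih, ← act_mul, mk_invRev, mul_inv_cancel,
      act_one]
    simp only [Sm, ed_bar, add_zero]
    rcases x with ⟨a, b⟩
    cases b <;> simp [bar]

theorem Sm_add (φ ψ : Ω × α → Q) (v : Ω) (w : List (α × Bool)) :
    Sm (fun e => φ e + ψ e) v w = Sm φ v w + Sm ψ v w := by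
  induction w generalizing v with
  | nil => simp [Sm]
  | cons x w ih =>
    simp only [Sm, ih]
    split <;> abel

theorem act_seg (c : ℤ → α × Bool) (u : Ω) (i : ℤ) (k : ℕ) :
    act (act u (pre c i)) (FreeGroup.mk (seg c i k)) = act u (pre c (i + k)) := by
  rw [← act_mul, mk_seg, mul_inv_cancel_left]

theorem act_pre_succ (c : ℤ → α × Bool) (u : Ω) (i : ℤ) :
    act (act u (pre c i)) (lt (c i)) = act u (pre c (i + 1)) := by
  rw [← act_mul, pre_succ]

theorem act_pre_add (Z : Cyc α) (u : Ω) (k q : ℤ) :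
    act u (pre Z.c (k + q * Z.n)) = act (act u (Z.s ^ q)) (pre Z.c k) := by
  rw [Z.pre_add_mul, act_mul]

/-- The sum along a piece of the boundary path of `u`. -/
theorem Sm_seg (c : ℤ → α × Bool) (φ : Ω × α → Q) (u : Ω) (i : ℤ) (k : ℕ) :
    Sm φ (act u (pre c i)) (seg c i k) = ∑ t ∈ Finset.range k,
      (if (c (i + t)).2 then φ (ed (act u (pre c (i + t))) (c (i + t)))
        else - φ (ed (act u (pre c (i + t))) (c (i + t)))) := by
  induction k with
  | zero => simp [Sm]
  | succ k ih =>
    rw [seg_succ, Sm_append, ih, Finset.sum_range_succ, act_seg]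
    simp [Sm]

theorem InE_seg (c : ℤ → α × Bool) (E : Set (Ω × α)) (u : Ω) (i : ℤ) (k : ℕ) :
    InE E (act u (pre c i)) (seg c i k) ↔
      ∀ t : ℕ, t < k → ed (act u (pre c (i + t))) (c (i + t)) ∈ E := by
  induction k with
  | zero => simp [InE]
  | succ k ih =>
    rw [seg_succ, InE_append, ih, act_seg]
    simp only [InE, and_true]
    constructor
    · rintro ⟨h1, h2⟩ t ht
      rcases Nat.lt_succ_iff_lt_or_eq.1 ht with h | rfl
      · exact h1 t h
      · exact h2
    · intro h
      exact ⟨fun t ht => h t (by omega), h k (by omega)⟩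

/-- The `i`-th vertex of the path `w` from `v`. -/
def vt (v : Ω) (w : List (α × Bool)) (i : ℕ) : Ω := act v (FreeGroup.mk (w.take i))

@[simp] theorem vt_zero (v : Ω) (w : List (α × Bool)) : vt v w 0 = v := by
  simp [vt, mk_nil]

theorem vt_length (v : Ω) (w : List (α × Bool)) : vt v w w.length = act v (FreeGroup.mk w) := by
  simp [vt]

theorem vt_cons_succ (v : Ω) (x : α × Bool) (w : List (α × Bool)) (i : ℕ) :
    vt v (x :: w) (i + 1) = vt (act v (lt x)) w i := by
  simp only [vt, List.take_succ_cons, mk_cons, act_mul]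

theorem vt_succ (v : Ω) (w : List (α × Bool)) (i : ℕ) (h : i < w.length) :
    vt v w (i + 1) = act (vt v w i) (lt w[i]) := by
  have : w.take (i + 1) = w.take i ++ [w[i]] := (List.take_append_getElem h).symm
  rw [vt, this, mk_append, act_mul]
  rfl

theorem InE_iff (E : Set (Ω × α)) (v : Ω) (w : List (α × Bool)) :
    InE E v w ↔ ∀ (i : ℕ) (h : i < w.length), ed (vt v w i) w[i] ∈ E := by
  induction w generalizing v with
  | nil => simp [InE]
  | cons x w ih =>
    simp only [InE, ih]
    constructor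
    · rintro ⟨h1, h2⟩ i hi
      rcases i with _ | i
      · simpa using h1
      · rw [vt_cons_succ]
        simpa using h2 i (by simpa using hi)
    · intro h
      refine ⟨?_, fun i hi => ?_⟩
      · have := h 0 (by simp)
        rw [vt_zero] at this
        exact this
      · have := h (i + 1) (by simpa using hi)
        rw [vt_cons_succ] at this
        simpa using this

theorem Sm_eq_sum (φ : Ω × α → Q) (v : Ω) (w : List (α × Bool)) :
    Sm φ v w = ∑ i : Fin w.length,
      (if w[i].2 then φ (ed (vt v w i) w[i]) else - φ (ed (vt v w i) w[i])) := by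
  induction w generalizing v with
  | nil => simp [Sm]
  | cons x w ih =>
    rw [Sm, ih]
    simp only [List.length_cons]
    rw [Fin.sum_univ_succ]
    congr 1
    · simp
    · refine Finset.sum_congr rfl fun i _ => ?_
      simp [vt_cons_succ]

theorem Sm_congr {φ ψ : Ω × α → Q} {v : Ω} {w : List (α × Bool)}
    (h : ∀ e, φ e ≠ ψ e → ¬ InE {e}ᶜ v w → False) : Sm φ v w = Sm ψ v w := by
  classical
  induction w generalizing v with
  | nil => rfl
  | cons x w ih =>
    simp only [Sm]
    have h1 : φ (ed v x) = ψ (ed v x) := by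
      by_contra hne
      exact h _ hne fun hin => hin.1 rfl
    rw [h1, ih]
    intro e he hn
    exact h e he fun hin => hn hin.2

end act

/-- The step with the letter `x` from `g` is a step of the graph `Γ` of the subgroup `H` (the
`s`-loop at the base point, folded). -/
def PG (H : Subgroup (FreeGroup α)) (c : ℤ → α × Bool) (g : FreeGroup α) (x : α × Bool) : Prop :=
  ∃ h ∈ H, ∃ j : ℤ, (g = h * pre c j ∧ x = c j) ∨ (g = h * pre c (j + 1) ∧ x = bar (c j))

/-- The path `w` from `g` is a path in `Γ`. -/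
def InG (H : Subgroup (FreeGroup α)) (c : ℤ → α × Bool) : FreeGroup α → List (α × Bool) → Prop
  | _, [] => True
  | g, x :: w => PG H c g x ∧ InG H c (g * lt x) w

section G

variable {H : Subgroup (FreeGroup α)} {c : ℤ → α × Bool}

theorem PG_bar {g : FreeGroup α} {x : α × Bool} (h : PG H c g x) : PG H c (g * lt x) (bar x) := by
  obtain ⟨h, hh, j, ⟨rfl, rfl⟩ | ⟨rfl, rfl⟩⟩ := h
  · exact ⟨h, hh, j, Or.inr ⟨by rw [pre_succ, mul_assoc], rfl⟩⟩
  · refine ⟨h, hh, j, Or.inl ⟨?_, by rw [bar_bar]⟩⟩
    rw [pre_succ, lt_bar, mul_assoc, mul_assoc, mul_inv_cancel, mul_one]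

theorem PG_mul {g k : FreeGroup α} {x : α × Bool} (hk : k ∈ H) : PG H c (k * g) x ↔ PG H c g x := by
  constructor
  · rintro ⟨h, hh, j, ⟨h1, rfl⟩ | ⟨h1, rfl⟩⟩
    · exact ⟨k⁻¹ * h, H.mul_mem (H.inv_mem hk) hh, j, Or.inl ⟨by
        rw [mul_assoc, ← h1, inv_mul_cancel_left], rfl⟩⟩
    · exact ⟨k⁻¹ * h, H.mul_mem (H.inv_mem hk) hh, j, Or.inr ⟨by
        rw [mul_assoc, ← h1, inv_mul_cancel_left], rfl⟩⟩
  · rintro ⟨h, hh, j, ⟨rfl, rfl⟩ | ⟨rfl, rfl⟩⟩
    · exact ⟨k * h, H.mul_mem hk hh, j, Or.inl ⟨by rw [mul_assoc], rfl⟩⟩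
    · exact ⟨k * h, H.mul_mem hk hh, j, Or.inr ⟨by rw [mul_assoc], rfl⟩⟩

theorem InG_append (g : FreeGroup α) (w w' : List (α × Bool)) :
    InG H c g (w ++ w') ↔ InG H c g w ∧ InG H c (g * FreeGroup.mk w) w' := by
  induction w generalizing g with
  | nil => simp [InG, mk_nil]
  | cons x w ih =>
    simp only [List.cons_append, InG, ih, mk_cons, ← mul_assoc, and_assoc]

theorem InG_invRev {g : FreeGroup α} {w : List (α × Bool)} (h : InG H c g w) :
    InG H c (g * FreeGroup.mk w) (FreeGroup.invRev w) := by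
  induction w generalizing g with
  | nil => simp [InG, FreeGroup.invRev]
  | cons x w ih =>
    rw [invRev_cons, InG_append, mk_cons, ← mul_assoc]
    refine ⟨ih h.2, ?_⟩
    rw [mk_invRev, mul_inv_cancel_right]
    exact ⟨PG_bar h.1, trivial⟩

theorem InG_mul {g k : FreeGroup α} {w : List (α × Bool)} (hk : k ∈ H) :
    InG H c (k * g) w ↔ InG H c g w := by
  induction w generalizing g with
  | nil => simp [InG]
  | cons x w ih =>
    simp only [InG, PG_mul hk]
    rw [mul_assoc, ih]

/-- Pieces of the periodic word are paths in `Γ`. -/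
theorem InG_seg {h : FreeGroup α} (hh : h ∈ H) (i : ℤ) (k : ℕ) :
    InG H c (h * pre c i) (seg c i k) := by
  induction k generalizing i with
  | zero => trivial
  | succ k ih =>
    rw [seg_cons]
    refine ⟨⟨h, hh, i, Or.inl ⟨rfl, rfl⟩⟩, ?_⟩
    rw [mul_assoc, ← pre_succ]
    exact ih (i + 1)

end G

/-- Rigidity: a path in `Γ` which reads `n` consecutive letters of the periodic word, from the
phase `i` on, lies on the loop of the base point. -/
def Rig (H : Subgroup (FreeGroup α)) (Z : Cyc α) : Prop :=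
  ∀ (g : FreeGroup α) (i : ℤ), InG H Z.c g (seg Z.c i Z.n) → ∃ h ∈ H, g = h * pre Z.c i

/-- The normal closure of `s ^ l` in `H`, as a subgroup of the free group. -/
def NH (H : Subgroup (FreeGroup α)) (Z : Cyc α) (l : ℕ) : Subgroup (FreeGroup α) :=
  Subgroup.closure {x | ∃ g ∈ H, x = g * Z.s ^ l * g⁻¹}

/-- A stacking of the cyclic word: heights of the positions, compatible with the letters. -/
structure Stk (Z : Cyc α) where
  /-- the heights -/
  η : ℤ → ℤ
  per : ∀ i, η (i + Z.n) = η i
  inj : ∀ i j, η i = η j → (Z.n : ℤ) ∣ i - j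
  mono : ∀ i j, Z.c i = Z.c j → (η i < η j ↔ η (i + 1) < η (j + 1))
  monobar : ∀ i j, Z.c i = bar (Z.c j) → (η i < η (j + 1) ↔ η (i + 1) < η j)

/-- A finite set `C` of cells (closed paths `s ^ l`, given by their base points) in a graph with
the edge set `E`, such that every closed path is homologically trivial. -/
structure Cx (Z : Cyc α) (l : ℕ) (Ω : Type) [MulAction (FreeGroup α) Ω] where
  /-- edges -/
  E : Set (Ω × α)
  /-- cells -/
  C : Finset Ω
  cyc : ∀ u ∈ C, act u Z.s ∈ C
  fix : ∀ u ∈ C, act u (Z.s ^ l) = u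
  sub : ∀ u ∈ C, ∀ i : ℤ, ed (act u (pre Z.c i)) (Z.c i) ∈ E
  sc : ∀ (Q : Type) [AddCommGroup Q] (φ : Ω × α → Q),
    (∀ u ∈ C, Sm φ u (seg Z.c 0 (l * Z.n)) = 0) →
    ∀ (v : Ω) (w : List (α × Bool)), InE E v w → act v (FreeGroup.mk w) = v → Sm φ v w = 0

section Cx

variable {Z : Cyc α} {l : ℕ} {Ω : Type} [MulAction (FreeGroup α) Ω]

/-- The vertex `act u (pre k)` of the cell `u` lies on no other cell and the cell passes it only
once. -/
def Sing (K : Cx Z l Ω) (u : Ω) (k : ℤ) : Prop :=
  ∀ u' ∈ K.C, ∀ k' : ℤ, act u' (pre Z.c k') = act u (pre Z.c k) →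
    ∃ q : ℤ, k' = k + q * Z.n ∧ u = act u' (Z.s ^ q)

theorem Cx.cell_pow (K : Cx Z l Ω) {u : Ω} (hu : u ∈ K.C) (q : ℕ) : act u (Z.s ^ q) ∈ K.C := by
  induction q with
  | zero => simpa using hu
  | succ q ih => rw [pow_succ, act_mul]; exact K.cyc _ ih

theorem Cx.fix_zpow (K : Cx Z l Ω) {u : Ω} (hu : u ∈ K.C) (q : ℤ) :
    act u (Z.s ^ ((l : ℤ) * q)) = u := by
  have h := K.fix u hu
  rw [zpow_mul, zpow_natCast]
  induction q with
  | zero => simp
  | succ q ih => rw [zpow_add, act_mul, ih, zpow_one, h]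
  | pred q ih =>
    rw [sub_eq_add_neg, zpow_add, act_mul, ih, zpow_neg_one]
    exact act_inv_eq h

theorem Cx.cell_zpow (K : Cx Z l Ω) (hl : 1 ≤ l) {u : Ω} (hu : u ∈ K.C) (q : ℤ) :
    act u (Z.s ^ q) ∈ K.C := by
  have hl' : (0 : ℤ) < l := by exact_mod_cast hl
  obtain ⟨r, hr⟩ : ∃ r : ℕ, (r : ℤ) = q % l := ⟨(q % l).toNat, Int.toNat_of_nonneg
    (Int.emod_nonneg _ hl'.ne')⟩
  have e : q = (l : ℤ) * (q / l) + r := by rw [hr]; exact (Int.mul_ediv_add_emod q l).symm
  rw [e, zpow_add, act_mul, K.fix_zpow hu, zpow_natCast]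
  exact K.cell_pow hu r

theorem Cx.act_pre_period (K : Cx Z l Ω) {u : Ω} (hu : u ∈ K.C) (k q : ℤ) :
    act u (pre Z.c (k + q * ((l : ℤ) * Z.n))) = act u (pre Z.c k) := by
  have e : k + q * ((l : ℤ) * Z.n) = k + ((l : ℤ) * q) * Z.n := by ring
  rw [e, act_pre_add, K.fix_zpow hu]

end Cx

end Pool.Agent.Helper96.UT
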