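import Pool.Agent.Helper96.UT.StC

/-!
Project UT (MP_2c90c1_al), module FWD: a simple closed path which enters a long arc of single
vertices runs through it.
-/

set_option autoImplicit false

namespace Pool.Agent.Helper96.UT

variable {α : Type} {Ω : Type} [MulAction (FreeGroup α) Ω]

/-- Steps of a simple path have different edges. -/
private theorem ed_ne_FWD {E : Set (Ω × α)} {v : Ω} {w : List (α × Bool)} (hw : Simple E v w)
    {i j : ℕ} (hij : i < j) (hj : j < w.length) :
    ed (vt v w i) (w[i]'(lt_trans hij hj)) ≠ ed (vt v w j) w[j] := by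
  intro he
  have hi : i < w.length := lt_trans hij hj
  rcases ed_eq he with ⟨h1, _⟩ | ⟨h1, h2⟩
  · exact hw.inj i j hij hj h1.symm
  · rw [← vt_succ v w i hi] at h1
    rcases Nat.lt_or_ge (i + 1) j with h | h
    · exact hw.inj (i + 1) j h hj h1.symm
    · have e : j = i + 1 := by omega
      subst e
      exact hw.rd i hj h2

/-- A part of a simple path which does not contain the step `i` avoids its edge. -/
private theorem drop_FWD {E : Set (Ω × α)} {v : Ω} {w : List (α × Bool)} (hw : Simple E v w)
    {i : ℕ} (hi : i < w.length) {j : ℕ} (hij : i < j) :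
    InE (E \ {ed (vt v w i) w[i]}) (vt v w j) (w.drop j) := by
  rw [InE_iff]
  intro a ha
  have ha' : j + a < w.length := by
    rw [List.length_drop] at ha
    omega
  have e1 : (w.drop j)[a] = w[j + a] := by simp
  have e2 : vt (vt v w j) (w.drop j) a = vt v w (j + a) := by
    unfold vt
    rw [← act_mul, ← mk_append, List.take_add]
  rw [e1, e2]
  refine ⟨(InE_iff E v w).1 hw.inE (j + a) ha', ?_⟩
  intro h
  exact ed_ne_FWD hw (show i < j + a by omega) ha' h.symm

private theorem take_FWD {E : Set (Ω × α)} {v : Ω} {w : List (α × Bool)} (hw : Simple E v w)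
    {i : ℕ} (hi : i < w.length) :
    InE (E \ {ed (vt v w i) w[i]}) v (w.take i) := by
  rw [InE_iff]
  intro a ha
  have ha' : a < i := by
    rw [List.length_take] at ha
    omega
  have hal : a < w.length := lt_trans ha' hi
  have e1 : (w.take i)[a] = w[a] := by simp
  have e2 : vt v (w.take i) a = vt v w a := by
    unfold vt
    rw [List.take_take, min_eq_left ha'.le]
  rw [e1, e2]
  refine ⟨(InE_iff E v w).1 hw.inE a hal, ?_⟩
  intro h
  exact ed_ne_FWD hw ha' hi h

theorem tFWD : StCOV → StFWD := by
  intro hCOV α Z l hl Ω _ K v w hw u hu k hS hv i hi hvi hwi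
  have hm1 : 1 ≤ (l - 1) * Z.n := Nat.mul_pos (by omega) Z.pos
  obtain ⟨m, hm⟩ : ∃ m, m = (l - 1) * Z.n := ⟨_, rfl⟩
  rw [← hm] at hS hv hm1 ⊢
  have key : ∀ t : ℕ, t < m → ∃ h : i + t < w.length,
      vt v w (i + t) = act u (pre Z.c (k + t)) ∧ w[i + t] = Z.c (k + t) := by
    intro t
    induction t with
    | zero =>
      intro _
      exact ⟨by simpa using hi, by simpa using hvi, by simpa using hwi⟩
    | succ t ih =>
      intro ht
      obtain ⟨hlt, h1, h2⟩ := ih (by omega)
      have e3 : (k + ((t + 1 : ℕ) : ℤ)) = k + t + 1 := by push_cast; ring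
      have h3 : vt v w (i + t + 1) = act u (pre Z.c (k + ((t + 1 : ℕ) : ℤ))) := by
        rw [vt_succ v w (i + t) hlt, h1, h2, act_pre_succ, e3]
      have hlt' : i + (t + 1) < w.length := by
        by_contra hcon
        have e : i + t + 1 = w.length := by omega
        rw [e, vt_length, hw.closed] at h3
        exact hv (t + 1) (by omega) ht h3.symm
      refine ⟨hlt', h3, ?_⟩
      obtain ⟨u', hu', k', he⟩ := hCOV α Z l Ω K v w hw (i + (t + 1)) hlt'
      have hSing := hS (t + 1) ht.le
      rcases ed_eq he with ⟨g1, g2⟩ | ⟨g1, g2⟩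
      · have g3 : act u' (pre Z.c k') = act u (pre Z.c (k + ((t + 1 : ℕ) : ℤ))) := by
          rw [← g1]; exact h3
        obtain ⟨q, hq, _⟩ := hSing u' hu' k' g3
        rw [g2, hq, Z.per_mul]
      · rw [act_pre_succ] at g1
        have g3 : act u' (pre Z.c (k' + 1)) = act u (pre Z.c (k + ((t + 1 : ℕ) : ℤ))) := by
          rw [← g1]; exact h3
        obtain ⟨q, hq, _⟩ := hSing u' hu' (k' + 1) g3
        exfalso
        have hk' : k' = k + t + q * Z.n := by
          rw [e3] at hq
          linarith
        have g4 : Z.c k' = w[i + t] := by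
          rw [h2, hk', Z.per_mul]
        refine hw.rd (i + t) hlt' ?_
        have : w[i + t + 1] = w[i + (t + 1)] := rfl
        rw [this, g2, g4]
  have hmlt : i + m ≤ w.length := by
    obtain ⟨h, _, _⟩ := key (m - 1) (by omega)
    omega
  have hseg : (w.drop i).take m = seg Z.c k m := by
    apply List.ext_getElem
    · rw [List.length_take, List.length_drop, seg_length]
      omega
    · intro a ha1 ha2
      rw [seg_length] at ha2
      obtain ⟨h, _, h2⟩ := key a ha2
      simp only [List.getElem_take, List.getElem_drop, h2, seg, List.getElem_map,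
        List.getElem_range]
  have hwd : w.take i ++ seg Z.c k m = w.take (i + m) := by
    rw [List.take_add, hseg]
  refine ⟨w.take i, w.drop (i + m), ?_, hvi, ?_, ?_⟩
  · rw [hwd, List.take_append_drop]
  · have := take_FWD hw hi
    rw [hvi, hwi] at this
    exact this
  · have := drop_FWD hw hi (show i < i + m by omega)
    rw [hvi, hwi] at this
    rw [hwd]
    exact this

end Pool.Agent.Helper96.UT
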