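import Pool.Agent.Helper96.UT.StC

/-!
# Project UT, module STK1: a labelling which is not injective has more edges than vertices
-/

set_option autoImplicit false

namespace Pool.Agent.Helper96.UT

variable {α : Type} {ι : Type}

/-- The tail of the (oriented) edge of the step. -/
def tl_STK1 (Z : Cyc α) (v : ℤ → ι) (i : ℤ) : ι := if (Z.c i).2 then v i else v (i + 1)

/-- The head of the (oriented) edge of the step. -/
def hd_STK1 (Z : Cyc α) (v : ℤ → ι) (i : ℤ) : ι := if (Z.c i).2 then v (i + 1) else v i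

theorem edv_eq_STK1 (Z : Cyc α) (v : ℤ → ι) (i : ℤ) :
    edv Z v i = (tl_STK1 Z v i, (Z.c i).1) := by
  unfold edv tl_STK1
  split <;> rfl

theorem hd_eq_STK1 (Z : Cyc α) (v : ℤ → ι)
    (c1 : ∀ i j, Z.c i = Z.c j → v i = v j → v (i + 1) = v (j + 1))
    (c2 : ∀ i j, Z.c i = bar (Z.c j) → v i = v (j + 1) → v (i + 1) = v j)
    (c3 : ∀ i j, Z.c i = Z.c j → v (i + 1) = v (j + 1) → v i = v j)
    {i j : ℤ} (h : edv Z v i = edv Z v j) : hd_STK1 Z v i = hd_STK1 Z v j := by
  rw [edv_eq_STK1, edv_eq_STK1, Prod.mk.injEq] at h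
  obtain ⟨h1, h2⟩ := h
  unfold tl_STK1 at h1
  unfold hd_STK1
  rcases hi : (Z.c i).2 with _ | _ <;> rcases hj : (Z.c j).2 with _ | _ <;>
    simp only [hi, hj, Bool.false_eq_true, if_true, if_false] at h1 ⊢
  · exact c3 i j (Prod.ext h2 (by rw [hi, hj])) h1
  · refine (c2 j i ?_ h1.symm).symm
    exact Prod.ext h2.symm (by simp [bar, hi, hj])
  · refine c2 i j ?_ h1
    exact Prod.ext h2 (by simp [bar, hi, hj])
  · exact c1 i j (Prod.ext h2 (by rw [hi, hj])) h1

theorem core_STK1 (Z : Cyc α) (v : ℤ → ι)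
    (per : ∀ i, v (i + Z.n) = v i)
    (c1 : ∀ i j, Z.c i = Z.c j → v i = v j → v (i + 1) = v (j + 1))
    (c2 : ∀ i j, Z.c i = bar (Z.c j) → v i = v (j + 1) → v (i + 1) = v j)
    (c3 : ∀ i j, Z.c i = Z.c j → v (i + 1) = v (j + 1) → v i = v j) :
    (∀ i j, v i = v j → (Z.n : ℤ) ∣ i - j) ∨
      (open scoped Classical in ((Finset.range Z.n).image fun i : ℕ => v i).card + 1 ≤
        ((Finset.range Z.n).image fun i : ℕ => edv Z v i).card) := by
  classical
  by_cases hE : ((Finset.range Z.n).image fun i : ℕ => v i).card + 1 ≤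
        ((Finset.range Z.n).image fun i : ℕ => edv Z v i).card
  · right
    convert hE
  left
  have hn : (0 : ℤ) < Z.n := by exact_mod_cast Z.pos
  -- periodicity
  have perm : ∀ (i q : ℤ), v (i + q * Z.n) = v i := by
    intro i q
    induction q with
    | zero => simp
    | succ q ih =>
      rw [← ih, ← per (i + q * Z.n)]
      congr 1
      ring
    | pred q ih =>
      rw [← ih, ← per (i + (-q - 1) * Z.n)]
      congr 1
      ring
  have redn : ∀ i : ℤ, ∃ r : ℕ, r < Z.n ∧ ∃ q : ℤ, i = (r : ℤ) + q * Z.n := by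
    intro i
    refine ⟨(i % Z.n).toNat, ?_, i / Z.n, ?_⟩
    · have h1 := Int.emod_nonneg i hn.ne'
      have h2 := Int.emod_lt_of_pos i hn
      omega
    · rw [Int.toNat_of_nonneg (Int.emod_nonneg i hn.ne')]
      rw [mul_comm]
      exact (Int.emod_add_mul_ediv i Z.n).symm
  set V := (Finset.range Z.n).image fun i : ℕ => v i with hV
  set E := (Finset.range Z.n).image fun i : ℕ => edv Z v i with hEd
  have hle : E.card ≤ V.card := by omega
  let P : Finset (ι × (α × Bool)) := ((Finset.range Z.n).image fun i : ℕ => (v i, Z.c i)) ∪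
    ((Finset.range Z.n).image fun i : ℕ => (v (i + 1), bar (Z.c i)))
  have mem1 : ∀ i : ℤ, (v i, Z.c i) ∈ P := by
    intro i
    obtain ⟨r, hr, q, rfl⟩ := redn i
    rw [perm, Z.per_mul]
    exact Finset.mem_union_left _ (Finset.mem_image.2 ⟨r, Finset.mem_range.2 hr, rfl⟩)
  have mem2 : ∀ i : ℤ, (v (i + 1), bar (Z.c i)) ∈ P := by
    intro i
    obtain ⟨r, hr, q, rfl⟩ := redn i
    have e : (r : ℤ) + q * Z.n + 1 = (r + 1) + q * Z.n := by ring
    rw [e, perm, Z.per_mul]
    exact Finset.mem_union_right _ (Finset.mem_image.2 ⟨r, Finset.mem_range.2 hr, rfl⟩)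
  have memV : ∀ i : ℤ, v i ∈ V := by
    intro i
    obtain ⟨r, hr, q, rfl⟩ := redn i
    rw [perm]
    exact Finset.mem_image.2 ⟨r, Finset.mem_range.2 hr, rfl⟩
  have memE : ∀ i : ℕ, i < Z.n → edv Z v i ∈ E := fun i hi =>
    Finset.mem_image.2 ⟨i, Finset.mem_range.2 hi, rfl⟩
  -- representation of the elements of `P`
  have repT : ∀ p ∈ P, p.2.2 = true → ∃ i : ℕ, i < Z.n ∧
      p = (tl_STK1 Z v i, ((Z.c i).1, true)) := by
    intro p hp ht
    rcases Finset.mem_union.1 hp with hp | hp
    · obtain ⟨i, hi, rfl⟩ := Finset.mem_image.1 hp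
      refine ⟨i, Finset.mem_range.1 hi, ?_⟩
      have ht' : (Z.c i).2 = true := ht
      unfold tl_STK1
      rw [if_pos ht']
      exact Prod.ext rfl (Prod.ext rfl ht')
    · obtain ⟨i, hi, rfl⟩ := Finset.mem_image.1 hp
      refine ⟨i, Finset.mem_range.1 hi, ?_⟩
      have ht' : (!(Z.c i).2) = true := ht
      have ht2 : ¬ ((Z.c i).2 = true) := by simpa using ht'
      unfold tl_STK1
      rw [if_neg ht2]
      exact Prod.ext rfl (Prod.ext rfl ht')
  have repF : ∀ p ∈ P, p.2.2 = false → ∃ i : ℕ, i < Z.n ∧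
      p = (hd_STK1 Z v i, ((Z.c i).1, false)) := by
    intro p hp ht
    rcases Finset.mem_union.1 hp with hp | hp
    · obtain ⟨i, hi, rfl⟩ := Finset.mem_image.1 hp
      refine ⟨i, Finset.mem_range.1 hi, ?_⟩
      have ht' : (Z.c i).2 = false := ht
      unfold hd_STK1
      rw [if_neg (by rw [ht']; simp)]
      exact Prod.ext rfl (Prod.ext rfl ht')
    · obtain ⟨i, hi, rfl⟩ := Finset.mem_image.1 hp
      refine ⟨i, Finset.mem_range.1 hi, ?_⟩
      have ht' : (!(Z.c i).2) = false := ht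
      have ht2 : (Z.c i).2 = true := by simpa using ht'
      unfold hd_STK1
      rw [if_pos ht2]
      exact Prod.ext rfl (Prod.ext rfl ht')
  have cT : (P.filter fun p => p.2.2 = true).card ≤ E.card := by
    have hch : ∀ p : ι × (α × Bool), ∃ i : ℕ, p ∈ P.filter (fun p => p.2.2 = true) →
        i < Z.n ∧ p = (tl_STK1 Z v i, ((Z.c i).1, true)) := by
      intro p
      by_cases hp : p ∈ P.filter (fun p => p.2.2 = true)
      · obtain ⟨i, h1, h2⟩ := repT p (Finset.mem_filter.1 hp).1 (Finset.mem_filter.1 hp).2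
        exact ⟨i, fun _ => ⟨h1, h2⟩⟩
      · exact ⟨0, fun h => absurd h hp⟩
    choose g hg using hch
    refine Finset.card_le_card_of_injOn (fun p => edv Z v (g p)) ?_ ?_
    · intro p hp
      exact memE _ (hg p hp).1
    · intro p hp p' hp' h
      have h' : edv Z v (g p) = edv Z v (g p') := h
      rw [edv_eq_STK1, edv_eq_STK1, Prod.mk.injEq] at h'
      rw [(hg p hp).2, (hg p' hp').2, h'.1, h'.2]
  have cF : (P.filter fun p => p.2.2 = false).card ≤ E.card := by
    have hch : ∀ p : ι × (α × Bool), ∃ i : ℕ, p ∈ P.filter (fun p => p.2.2 = false) →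
        i < Z.n ∧ p = (hd_STK1 Z v i, ((Z.c i).1, false)) := by
      intro p
      by_cases hp : p ∈ P.filter (fun p => p.2.2 = false)
      · obtain ⟨i, h1, h2⟩ := repF p (Finset.mem_filter.1 hp).1 (Finset.mem_filter.1 hp).2
        exact ⟨i, fun _ => ⟨h1, h2⟩⟩
      · exact ⟨0, fun h => absurd h hp⟩
    choose g hg using hch
    refine Finset.card_le_card_of_injOn (fun p => edv Z v (g p)) ?_ ?_
    · intro p hp
      exact memE _ (hg p hp).1
    · intro p hp p' hp' h
      have h' : edv Z v (g p) = edv Z v (g p') := h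
      have h3 := hd_eq_STK1 Z v c1 c2 c3 h'
      rw [edv_eq_STK1, edv_eq_STK1, Prod.mk.injEq] at h'
      rw [(hg p hp).2, (hg p' hp').2, h3, h'.2]
  have cP : P.card ≤ 2 * V.card := by
    have h1 := Finset.card_filter_add_card_filter_not (s := P) (fun p => p.2.2 = true)
    have h2 : (P.filter fun p => ¬ p.2.2 = true) = P.filter fun p => p.2.2 = false := by
      refine Finset.filter_congr fun p _ => ?_
      simp
    rw [h2] at h1
    omega
  -- fibres
  have fib : ∀ i : ℤ, ({(v i, Z.c i), (v i, bar (Z.c (i - 1)))} : Finset (ι × (α × Bool))) ⊆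
      P.filter fun p => p.1 = v i := by
    intro i p hp
    rw [Finset.mem_insert, Finset.mem_singleton] at hp
    rcases hp with rfl | rfl
    · exact Finset.mem_filter.2 ⟨mem1 i, rfl⟩
    · have := mem2 (i - 1)
      rw [sub_add_cancel] at this
      exact Finset.mem_filter.2 ⟨this, rfl⟩
  have two : ∀ i : ℤ, ({(v i, Z.c i), (v i, bar (Z.c (i - 1)))} :
      Finset (ι × (α × Bool))).card = 2 := by
    intro i
    refine Finset.card_pair fun h => ?_
    have h2 : Z.c i = bar (Z.c (i - 1)) := congrArg Prod.snd h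
    have := Z.red (i - 1)
    rw [sub_add_cancel] at this
    exact this h2
  have ge2 : ∀ x ∈ V, 2 ≤ (P.filter fun p => p.1 = x).card := by
    intro x hx
    obtain ⟨i, _, rfl⟩ := Finset.mem_image.1 hx
    rw [← two i]
    exact Finset.card_le_card (fib i)
  have hsum : P.card = ∑ x ∈ V, (P.filter fun p => p.1 = x).card := by
    refine Finset.card_eq_sum_card_fiberwise fun p hp => ?_
    rcases Finset.mem_union.1 hp with hp | hp
    · obtain ⟨i, _, rfl⟩ := Finset.mem_image.1 hp
      exact memV i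
    · obtain ⟨i, _, rfl⟩ := Finset.mem_image.1 hp
      exact memV (i + 1)
  have eq2 : ∀ x ∈ V, (P.filter fun p => p.1 = x).card = 2 := by
    have h1 : ∑ x ∈ V, 2 ≤ ∑ x ∈ V, (P.filter fun p => p.1 = x).card := Finset.sum_le_sum ge2
    have h2 : ∑ x ∈ V, (P.filter fun p => p.1 = x).card ≤ ∑ x ∈ V, 2 := by
      rw [← hsum, Finset.sum_const, smul_eq_mul, mul_comm]
      exact cP
    have h3 := (Finset.sum_eq_sum_iff_of_le ge2).1 (le_antisymm h1 h2)
    intro x hx
    exact (h3 x hx).symm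
  have fibeq : ∀ i : ℤ, ({(v i, Z.c i), (v i, bar (Z.c (i - 1)))} : Finset (ι × (α × Bool))) =
      P.filter fun p => p.1 = v i := fun i =>
    Finset.eq_of_subset_of_card_le (fib i) (by rw [eq2 _ (memV i), two i])
  have star : ∀ i j : ℤ, v i = v j → (Z.c j = Z.c i ∧ Z.c (j - 1) = Z.c (i - 1)) ∨
      (Z.c j = bar (Z.c (i - 1)) ∧ bar (Z.c (j - 1)) = Z.c i) := by
    intro i j hij
    have h1 : (v i, Z.c j) ∈ ({(v i, Z.c i), (v i, bar (Z.c (i - 1)))} :
        Finset (ι × (α × Bool))) := by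
      rw [fibeq i]
      refine Finset.mem_filter.2 ⟨?_, rfl⟩
      rw [hij]
      exact mem1 j
    have h2 : (v i, bar (Z.c (j - 1))) ∈ ({(v i, Z.c i), (v i, bar (Z.c (i - 1)))} :
        Finset (ι × (α × Bool))) := by
      rw [fibeq i]
      refine Finset.mem_filter.2 ⟨?_, rfl⟩
      rw [hij]
      have := mem2 (j - 1)
      rwa [sub_add_cancel] at this
    rw [Finset.mem_insert, Finset.mem_singleton] at h1 h2
    have hr : Z.c j ≠ bar (Z.c (j - 1)) := by
      have := Z.red (j - 1)
      rwa [sub_add_cancel] at this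
    rcases h1 with h1 | h1
    · have h1' : Z.c j = Z.c i := congrArg Prod.snd h1
      rcases h2 with h2 | h2
      · have h2' : bar (Z.c (j - 1)) = Z.c i := congrArg Prod.snd h2
        exact absurd (h1'.trans h2'.symm) hr
      · have h2' : bar (Z.c (j - 1)) = bar (Z.c (i - 1)) := congrArg Prod.snd h2
        exact Or.inl ⟨h1', bar_inj h2'⟩
    · have h1' : Z.c j = bar (Z.c (i - 1)) := congrArg Prod.snd h1
      rcases h2 with h2 | h2
      · have h2' : bar (Z.c (j - 1)) = Z.c i := congrArg Prod.snd h2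
        exact Or.inr ⟨h1', h2'⟩
      · have h2' : bar (Z.c (j - 1)) = bar (Z.c (i - 1)) := congrArg Prod.snd h2
        exact absurd (h1'.trans h2'.symm) hr
  intro i j hij
  rcases star i j hij with ⟨hc, _⟩ | ⟨_, hc⟩
  · -- equal letters
    have claim : ∀ k : ℕ, v (i + k) = v (j + k) ∧ Z.c (i + k) = Z.c (j + k) := by
      intro k
      induction k with
      | zero => simpa using ⟨hij, hc.symm⟩
      | succ k ih =>
        have e1 : (i : ℤ) + ((k + 1 : ℕ) : ℤ) = (i + k) + 1 := by push_cast; ring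
        have e2 : (j : ℤ) + ((k + 1 : ℕ) : ℤ) = (j + k) + 1 := by push_cast; ring
        rw [e1, e2]
        have hv := c1 _ _ ih.2 ih.1
        refine ⟨hv, ?_⟩
        rcases star _ _ hv with ⟨h, _⟩ | ⟨_, h⟩
        · exact h.symm
        · exfalso
          rw [add_sub_cancel_right, ← ih.2] at h
          exact Z.red (i + k) h.symm
    have hall : ∀ x : ℤ, Z.c (x + (j - i)) = Z.c x := by
      intro x
      obtain ⟨q, hq⟩ : ∃ q : ℕ, 0 ≤ x - i + q * Z.n := by
        refine ⟨(i - x).toNat, ?_⟩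
        have h1 : i - x ≤ ((i - x).toNat : ℤ) := Int.self_le_toNat _
        have h2 : ((i - x).toNat : ℤ) ≤ ((i - x).toNat : ℤ) * Z.n :=
          le_mul_of_one_le_right (by positivity) (by omega)
        linarith
      obtain ⟨k, hk⟩ := Int.eq_ofNat_of_zero_le hq
      have h := (claim k).2
      have e1 : i + (k : ℤ) = x + (q : ℤ) * Z.n := by rw [← hk]; ring
      have e2 : j + (k : ℤ) = (x + (j - i)) + (q : ℤ) * Z.n := by rw [← hk]; ring
      rw [e1, e2, Z.per_mul, Z.per_mul] at h
      exact h.symm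
    have := Z.prim (j - i) hall
    rw [← dvd_neg, neg_sub] at this
    exact this
  · -- opposite letters
    exfalso
    have claim : ∀ k : ℕ, v (i + k) = v (j - k) ∧ Z.c (i + k) = bar (Z.c (j - 1 - k)) := by
      intro k
      induction k with
      | zero =>
        refine ⟨by simpa using hij, ?_⟩
        simpa using hc.symm
      | succ k ih =>
        have e1 : (i : ℤ) + ((k + 1 : ℕ) : ℤ) = (i + k) + 1 := by push_cast; ring
        have e2 : (j : ℤ) - ((k + 1 : ℕ) : ℤ) = j - 1 - k := by push_cast; ring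
        have e3 : (j : ℤ) - 1 - ((k + 1 : ℕ) : ℤ) = (j - 1 - k) - 1 := by push_cast; ring
        rw [e1, e2, e3]
        have hv : v (i + k + 1) = v (j - 1 - k) := by
          refine c2 _ _ ih.2 ?_
          rw [ih.1]
          congr 1
          ring
        refine ⟨hv, ?_⟩
        rcases star _ _ hv with ⟨h, _⟩ | ⟨_, h⟩
        · exfalso
          have h4 : bar (Z.c (i + k)) = Z.c (j - 1 - k) := by rw [ih.2, bar_bar]
          exact Z.red (i + k) (by rw [h4, h])
        · exact h.symm
    obtain ⟨q, hq⟩ : ∃ q : ℕ, 0 ≤ j + q * Z.n - 1 - i := by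
      refine ⟨(i + 1 - j).toNat, ?_⟩
      have h1 : i + 1 - j ≤ ((i + 1 - j).toNat : ℤ) := Int.self_le_toNat _
      have h2 : ((i + 1 - j).toNat : ℤ) ≤ ((i + 1 - j).toNat : ℤ) * Z.n :=
        le_mul_of_one_le_right (by positivity) (by omega)
      linarith
    have claim2 : ∀ k : ℕ, Z.c (i + k) = bar (Z.c (j + q * Z.n - 1 - k)) := by
      intro k
      have e : j + (q : ℤ) * Z.n - 1 - k = (j - 1 - k) + (q : ℤ) * Z.n := by ring
      rw [e, Z.per_mul]
      exact (claim k).2
    obtain ⟨d, hd⟩ := Int.eq_ofNat_of_zero_le hq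
    have hd' : j + (q : ℤ) * Z.n - 1 = i + d := by
      have : j + (q : ℤ) * Z.n - 1 - i = (d : ℤ) := hd
      linarith
    rcases Nat.even_or_odd' d with ⟨k, hk | hk⟩
    · have h := claim2 k
      rw [hd', hk] at h
      have e : i + ((2 * k : ℕ) : ℤ) - k = i + k := by push_cast; ring
      rw [e] at h
      exact bar_ne _ h.symm
    · have h := claim2 k
      rw [hd', hk] at h
      have e : i + ((2 * k + 1 : ℕ) : ℤ) - k = (i + k) + 1 := by push_cast; ring
      rw [e] at h
      exact Z.red (i + k) (by rw [h, bar_bar])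

theorem tSTK1 : StSTK1 := by
  intro α Z ι v h
  exact core_STK1 Z v h.per h.c1 h.c2 h.c3

end Pool.Agent.Helper96.UT
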